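import Pool.Agent.H64.K4.Tb

/-!
Module Co.  The counting argument (helper64).  See /team-store/H64_K14.md, 1-6.
-/

set_option autoImplicit false
set_option linter.all false

namespace Pool.Agent.H64.K4

open Classical Pool.Agent.H67.CF

noncomputable section

variable {V N : Type} [Fintype V] [Fintype N]

/-! ### classes -/

section cls

variable {S : SimpleGraph N} {U : Finset N}

theorem mem_clsF {p q : N} : q ∈ clsF S U p ↔ q ∉ U ∧ Rch S {y | y ∉ U} p q := by
  simp [clsF]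

theorem self_mem_clsF {p : N} (hp : p ∉ U) : p ∈ clsF S U p := mem_clsF.2 ⟨hp, rch_refl⟩

theorem clsF_eq {p q : N} (hp : p ∉ U) (hq : q ∈ clsF S U p) : clsF S U q = clsF S U p := by
  obtain ⟨hq1, hq2⟩ := mem_clsF.1 hq
  ext z
  rw [mem_clsF, mem_clsF]
  constructor
  · rintro ⟨h1, h2⟩
    exact ⟨h1, rch_trans hq2 h2⟩
  · rintro ⟨h1, h2⟩
    exact ⟨h1, rch_trans (rch_symm (show p ∈ {y | y ∉ U} from hp) hq2) h2⟩

theorem mem_allC {Z : Finset N} : Z ∈ allC S U ↔ ∃ p, p ∉ U ∧ clsF S U p = Z := by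
  simp [allC]

theorem allC_eq {Z : Finset N} (hZ : Z ∈ allC S U) {p : N} (hp : p ∈ Z) : p ∉ U ∧ clsF S U p = Z := by
  obtain ⟨q, hq, rfl⟩ := mem_allC.1 hZ
  exact ⟨(mem_clsF.1 hp).1, clsF_eq hq hp⟩

theorem allC_disj {Z Z' : Finset N} (hZ : Z ∈ allC S U) (hZ' : Z' ∈ allC S U) {p : N} (hp : p ∈ Z)
    (hp' : p ∈ Z') : Z = Z' := by
  rw [← (allC_eq hZ hp).2, ← (allC_eq hZ' hp').2]

theorem allC_closed {Z : Finset N} (hZ : Z ∈ allC S U) {p q : N} (hp : p ∈ Z) (hq : q ∉ U)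
    (h : S.Adj p q) : q ∈ Z := by
  rw [← (allC_eq hZ hp).2]
  exact mem_clsF.2 ⟨hq, rch_adj h hq⟩

theorem allC_nonempty {Z : Finset N} (hZ : Z ∈ allC S U) : Z.Nonempty := by
  obtain ⟨q, hq, rfl⟩ := mem_allC.1 hZ
  exact ⟨q, self_mem_clsF hq⟩

theorem sum_allC : ∑ Z ∈ allC S U, Z.card + U.card = Fintype.card N := by
  have h1 : (Finset.univ.filter (fun p => p ∉ U)) = (allC S U).biUnion id := by
    ext p
    simp only [Finset.mem_filter, Finset.mem_univ, true_and, Finset.mem_biUnion, id]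
    constructor
    · intro hp
      exact ⟨clsF S U p, mem_allC.2 ⟨p, hp, rfl⟩, self_mem_clsF hp⟩
    · rintro ⟨Z, hZ, hp⟩
      exact (allC_eq hZ hp).1
  have h2 : ((allC S U).biUnion id).card = ∑ Z ∈ allC S U, Z.card := by
    rw [Finset.card_biUnion]
    · rfl
    · intro Z hZ Z' hZ' hne
      rw [Function.onFun, Finset.disjoint_left]
      intro p hp hp'
      exact hne (allC_disj hZ hZ' hp hp')
  have h3 : (Finset.univ.filter (fun p => p ∉ U)).card + U.card = Fintype.card N := by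
    have h4 := Finset.card_filter_add_card_filter_not (s := (Finset.univ : Finset N)) (fun p => p ∈ U)
    have h5 : Finset.univ.filter (fun p => p ∈ U) = U := by ext; simp
    rw [h5, Finset.card_univ] at h4
    omega
  rw [← h2, ← h1]
  exact h3

end cls

/-! ### the vertices touching a class -/

section tch

variable {G : SimpleGraph V} {f : V → Finset N} {d : ℕ} {U : Finset N}

/-- the vertices touching `Z` -/
def tch (f : V → Finset N) (Z : Finset N) : Finset V :=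
  Finset.univ.filter (fun v => ∃ p, p ∈ f v ∧ p ∈ Z)

/-- the vertices inside `Z` -/
def ins (f : V → Finset N) (Z : Finset N) : Finset V := Finset.univ.filter (fun v => f v ⊆ Z)

/-- the boundary vertices of `Z` -/
def bdr (f : V → Finset N) (Z : Finset N) : Finset V := (tch f Z).filter (fun v => ¬ f v ⊆ Z)

theorem mem_tch {Z : Finset N} {v : V} : v ∈ tch f Z ↔ ∃ p, p ∈ f v ∧ p ∈ Z := by simp [tch]

theorem mem_ins {Z : Finset N} {v : V} : v ∈ ins f Z ↔ f v ⊆ Z := by simp [ins]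

theorem mem_bdr {Z : Finset N} {v : V} : v ∈ bdr f Z ↔ v ∈ tch f Z ∧ ¬ f v ⊆ Z := by simp [bdr]

theorem node_split (h3 : ∀ v, (f v).card = 3) {Z : Finset N} (hZ : Z ∈ allC (ngr f) U) {v : V}
    (hv : v ∈ tch f Z) {p : N} (hp : p ∈ f v) (hpU : p ∉ U) : p ∈ Z := by
  obtain ⟨q, hq1, hq2⟩ := mem_tch.1 hv
  by_cases hpq : q = p
  · rw [← hpq]; exact hq2
  · exact allC_closed hZ hq2 hpU ⟨hpq, v, hq1, hp⟩

theorem ins_sub_tch (h3 : ∀ v, (f v).card = 3) {Z : Finset N} : ins f Z ⊆ tch f Z := by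
  intro v hv
  have h1 : (f v).Nonempty := by
    rw [← Finset.card_pos, h3]; norm_num
  obtain ⟨p, hp⟩ := h1
  exact mem_tch.2 ⟨p, hp, mem_ins.1 hv hp⟩

theorem card_tch (h3 : ∀ v, (f v).card = 3) {Z : Finset N} :
    (tch f Z).card = (ins f Z).card + (bdr f Z).card := by
  have h1 := Finset.card_filter_add_card_filter_not (s := tch f Z) (fun v => f v ⊆ Z)
  have h2 : (tch f Z).filter (fun v => f v ⊆ Z) = ins f Z := by
    ext v
    rw [Finset.mem_filter, mem_ins]
    exact ⟨fun h => h.2, fun h => ⟨ins_sub_tch h3 (mem_ins.2 h), h⟩⟩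
  rw [h2] at h1
  rw [← h1]
  rfl

theorem sum_tch (h3 : ∀ v, (f v).card = 3) :
    ∑ Z ∈ allC (ngr f) U, (tch f Z).card + (Finset.univ.filter (fun v => f v ⊆ U)).card =
      Fintype.card V := by
  have h1 : (Finset.univ.filter (fun v => ¬ f v ⊆ U)) = (allC (ngr f) U).biUnion (tch f) := by
    ext v
    simp only [Finset.mem_filter, Finset.mem_univ, true_and, Finset.mem_biUnion]
    constructor
    · intro hv
      obtain ⟨p, hp, hpU⟩ := Finset.not_subset.1 hv
      exact ⟨clsF (ngr f) U p, mem_allC.2 ⟨p, hpU, rfl⟩, mem_tch.2 ⟨p, hp, self_mem_clsF hpU⟩⟩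
    · rintro ⟨Z, hZ, hv⟩ hsub
      obtain ⟨p, hp1, hp2⟩ := mem_tch.1 hv
      exact (allC_eq hZ hp2).1 (hsub hp1)
  have h2 : ((allC (ngr f) U).biUnion (tch f)).card = ∑ Z ∈ allC (ngr f) U, (tch f Z).card := by
    rw [Finset.card_biUnion]
    intro Z hZ Z' hZ' hne
    rw [Function.onFun, Finset.disjoint_left]
    intro v hv hv'
    obtain ⟨p, hp1, hp2⟩ := mem_tch.1 hv
    exact hne (allC_disj hZ hZ' hp2 (node_split h3 hZ' hv' hp1 (allC_eq hZ hp2).1))
  have h4 := Finset.card_filter_add_card_filter_not (s := (Finset.univ : Finset V)) (fun v => f v ⊆ U)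
  rw [Finset.card_univ] at h4
  rw [← h2, ← h1]
  omega

/-- the weight of a node -/
def wt5 (f : V → Finset N) (p : N) : ℤ := 5 - (mult f p : ℤ)

/-- the weight of the nodes of `v` in `U` -/
def WU (f : V → Finset N) (U : Finset N) (v : V) : ℤ := ∑ p ∈ (f v).filter (fun p => p ∈ U), wt5 f p

theorem two_le_wt (hm3 : ∀ p, mult f p ≤ 3) (p : N) : 2 ≤ wt5 f p := by
  have := hm3 p
  unfold wt5
  omega

theorem mult_mul (hm3 : ∀ p, mult f p ≤ 3) (p : N) : (mult f p : ℤ) * wt5 f p ≤ 6 := by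
  have h := hm3 p
  unfold wt5
  interval_cases h : (mult f p) <;> norm_num

theorem WU_ge (hm3 : ∀ p, mult f p ≤ 3) (v : V) :
    2 * (((f v).filter (fun p => p ∈ U)).card : ℤ) ≤ WU f U v := by
  unfold WU
  have h1 : ∑ p ∈ (f v).filter (fun p => p ∈ U), (2 : ℤ) ≤
      ∑ p ∈ (f v).filter (fun p => p ∈ U), wt5 f p :=
    Finset.sum_le_sum fun p _ => two_le_wt hm3 p
  rw [Finset.sum_const, nsmul_eq_mul] at h1
  linarith

theorem WU_nonneg (hm3 : ∀ p, mult f p ≤ 3) (v : V) : 0 ≤ WU f U v := by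
  have := WU_ge (U := U) hm3 v
  have h2 : (0 : ℤ) ≤ (((f v).filter (fun p => p ∈ U)).card : ℤ) := Nat.cast_nonneg _
  linarith

theorem W_ge (h3 : ∀ v, (f v).card = 3) (hdeg : ∀ v, ∑ p ∈ f v, mult f p ≤ d + 3) (v : V) :
    (12 : ℤ) - d ≤ ∑ p ∈ f v, wt5 f p := by
  unfold wt5
  rw [Finset.sum_sub_distrib, Finset.sum_const, h3, nsmul_eq_mul]
  have h1 := hdeg v
  have h2 : ((∑ p ∈ f v, mult f p : ℕ) : ℤ) ≤ ((d + 3 : ℕ) : ℤ) := by exact_mod_cast h1
  push_cast at h2 ⊢
  linarith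

/-- double counting: the total weight of the vertices on a set of nodes -/
theorem double_count (Z : Finset N) :
    ∑ v : V, ∑ p ∈ (f v).filter (fun p => p ∈ Z), wt5 f p = ∑ p ∈ Z, (mult f p : ℤ) * wt5 f p := by
  have h1 : ∀ v : V, ∑ p ∈ (f v).filter (fun p => p ∈ Z), wt5 f p =
      ∑ p ∈ Z, if p ∈ f v then wt5 f p else 0 := by
    intro v
    rw [← Finset.sum_filter]
    refine Finset.sum_congr ?_ fun _ _ => rfl
    ext p
    simp only [Finset.mem_filter]
    tauto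
  rw [Finset.sum_congr rfl fun v _ => h1 v, Finset.sum_comm]
  refine Finset.sum_congr rfl fun p _ => ?_
  rw [← Finset.sum_filter, Finset.sum_const, nsmul_eq_mul]
  rfl

theorem double_le (hm3 : ∀ p, mult f p ≤ 3) (Z : Finset N) :
    ∑ v : V, ∑ p ∈ (f v).filter (fun p => p ∈ Z), wt5 f p ≤ 6 * (Z.card : ℤ) := by
  rw [double_count]
  calc ∑ p ∈ Z, (mult f p : ℤ) * wt5 f p ≤ ∑ p ∈ Z, (6 : ℤ) :=
        Finset.sum_le_sum fun p _ => mult_mul hm3 p
    _ = 6 * (Z.card : ℤ) := by rw [Finset.sum_const, nsmul_eq_mul]; ring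

/-- the boundary weight -/
def Bw (f : V → Finset N) (U Z : Finset N) : ℤ := ∑ v ∈ tch f Z, WU f U v

/-- `D(Z)` -/
def Dz (f : V → Finset N) (U Z : Finset N) (d : ℕ) : ℤ :=
  6 * (Z.card : ℤ) - (12 - d) * ((tch f Z).card : ℤ) + 2 * Bw f U Z

theorem Bw_le_Dz (h3 : ∀ v, (f v).card = 3) (hm3 : ∀ p, mult f p ≤ 3)
    (hdeg : ∀ v, ∑ p ∈ f v, mult f p ≤ d + 3) {Z : Finset N} (hZ : Z ∈ allC (ngr f) U) :
    Bw f U Z ≤ Dz f U Z d := by
  have h1 : ((12 : ℤ) - d) * ((tch f Z).card : ℤ) ≤ ∑ v ∈ tch f Z, ∑ p ∈ f v, wt5 f p := by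
    calc ((12 : ℤ) - d) * ((tch f Z).card : ℤ) = ∑ v ∈ tch f Z, ((12 : ℤ) - d) := by
          rw [Finset.sum_const, nsmul_eq_mul]; ring
      _ ≤ _ := Finset.sum_le_sum fun v _ => W_ge h3 hdeg v
  have h2 : ∀ v ∈ tch f Z, ∑ p ∈ f v, wt5 f p =
      WU f U v + ∑ p ∈ (f v).filter (fun p => p ∈ Z), wt5 f p := by
    intro v hv
    rw [← Finset.sum_filter_add_sum_filter_not (f v) (fun p => p ∈ U)]
    unfold WU
    congr 1
    refine Finset.sum_congr ?_ fun _ _ => rfl
    ext p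
    simp only [Finset.mem_filter]
    constructor
    · rintro ⟨hp, hpU⟩
      exact ⟨hp, node_split h3 hZ hv hp hpU⟩
    · rintro ⟨hp, hpZ⟩
      exact ⟨hp, (allC_eq hZ hpZ).1⟩
  rw [Finset.sum_congr rfl h2, Finset.sum_add_distrib] at h1
  have h4 : ∑ v ∈ tch f Z, ∑ p ∈ (f v).filter (fun p => p ∈ Z), wt5 f p ≤
      ∑ v : V, ∑ p ∈ (f v).filter (fun p => p ∈ Z), wt5 f p := by
    refine Finset.sum_le_univ_sum_of_nonneg fun v => Finset.sum_nonneg fun p _ => ?_
    have := two_le_wt (f := f) hm3 p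
    linarith
  have h5 := double_le (f := f) hm3 Z
  unfold Dz Bw
  linarith

theorem sum_Bw (h3 : ∀ v, (f v).card = 3) (hm3 : ∀ p, mult f p ≤ 3)
    (hdeg : ∀ v, ∑ p ∈ f v, mult f p ≤ d + 3) :
    ∑ Z ∈ allC (ngr f) U, Bw f U Z +
      ((12 : ℤ) - d) * ((Finset.univ.filter (fun v => f v ⊆ U)).card : ℤ) ≤ 6 * (U.card : ℤ) := by
  have h1 : ∑ Z ∈ allC (ngr f) U, Bw f U Z = ∑ v ∈ Finset.univ.filter (fun v => ¬ f v ⊆ U), WU f U v := by
    have h1 : (Finset.univ.filter (fun v => ¬ f v ⊆ U)) = (allC (ngr f) U).biUnion (tch f) := by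
      ext v
      simp only [Finset.mem_filter, Finset.mem_univ, true_and, Finset.mem_biUnion]
      constructor
      · intro hv
        obtain ⟨p, hp, hpU⟩ := Finset.not_subset.1 hv
        exact ⟨clsF (ngr f) U p, mem_allC.2 ⟨p, hpU, rfl⟩, mem_tch.2 ⟨p, hp, self_mem_clsF hpU⟩⟩
      · rintro ⟨Z, hZ, hv⟩ hsub
        obtain ⟨p, hp1, hp2⟩ := mem_tch.1 hv
        exact (allC_eq hZ hp2).1 (hsub hp1)
    rw [h1, Finset.sum_biUnion]
    · rfl
    · intro Z hZ Z' hZ' hne
      rw [Function.onFun, Finset.disjoint_left]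
      intro v hv hv'
      obtain ⟨p, hp1, hp2⟩ := mem_tch.1 hv
      exact hne (allC_disj hZ hZ' hp2 (node_split h3 hZ' hv' hp1 (allC_eq hZ hp2).1))
  have h2 : ((12 : ℤ) - d) * ((Finset.univ.filter (fun v => f v ⊆ U)).card : ℤ) ≤
      ∑ v ∈ Finset.univ.filter (fun v => f v ⊆ U), WU f U v := by
    calc ((12 : ℤ) - d) * ((Finset.univ.filter (fun v => f v ⊆ U)).card : ℤ) =
        ∑ v ∈ Finset.univ.filter (fun v => f v ⊆ U), ((12 : ℤ) - d) := by
          rw [Finset.sum_const, nsmul_eq_mul]; ring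
      _ ≤ _ := by
          refine Finset.sum_le_sum fun v hv => ?_
          have hsub : f v ⊆ U := (Finset.mem_filter.1 hv).2
          have h5 : (f v).filter (fun p => p ∈ U) = f v :=
            Finset.filter_true_of_mem fun p hp => hsub hp
          unfold WU
          rw [h5]
          exact W_ge h3 hdeg v
  have h6 : ∑ v ∈ Finset.univ.filter (fun v => f v ⊆ U), WU f U v +
      ∑ v ∈ Finset.univ.filter (fun v => ¬ f v ⊆ U), WU f U v = ∑ v : V, WU f U v :=
    Finset.sum_filter_add_sum_filter_not _ _ _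
  have h7 : ∑ v : V, WU f U v ≤ 6 * (U.card : ℤ) := double_le hm3 U
  linarith

theorem two_bdr (h3 : ∀ v, (f v).card = 3) (hm3 : ∀ p, mult f p ≤ 3) {Z : Finset N}
    (hZ : Z ∈ allC (ngr f) U) : 2 * ((bdr f Z).card : ℤ) ≤ Bw f U Z := by
  have h1 : ∑ v ∈ bdr f Z, WU f U v ≤ Bw f U Z :=
    Finset.sum_le_sum_of_subset_of_nonneg (Finset.filter_subset _ _)
      fun v _ _ => WU_nonneg hm3 v
  have h2 : ∑ v ∈ bdr f Z, (2 : ℤ) ≤ ∑ v ∈ bdr f Z, WU f U v := by
    refine Finset.sum_le_sum fun v hv => ?_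
    obtain ⟨hv1, hv2⟩ := mem_bdr.1 hv
    obtain ⟨p, hp, hpZ⟩ := Finset.not_subset.1 hv2
    have hpU : p ∈ U := by
      by_contra hpU
      exact hpZ (node_split h3 hZ hv1 hp hpU)
    have h5 : 1 ≤ ((f v).filter (fun p => p ∈ U)).card :=
      Finset.card_pos.2 ⟨p, Finset.mem_filter.2 ⟨hp, hpU⟩⟩
    have h6 := WU_ge (U := U) hm3 v
    have h7 : (1 : ℤ) ≤ (((f v).filter (fun p => p ∈ U)).card : ℤ) := by exact_mod_cast h5
    linarith
  rw [Finset.sum_const, nsmul_eq_mul] at h2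
  linarith

/-- claim 1 -/
theorem claim1 (hd : d = 4 ∨ d = 6) (h3 : ∀ v, (f v).card = 3) (hm3 : ∀ p, mult f p ≤ 3)
    (hdeg : ∀ v, ∑ p ∈ f v, mult f p ≤ d + 3) {Z : Finset N} (hZ : Z ∈ allC (ngr f) U)
    (hodd : Odd Z.card) (hb : 2 ≤ (bdr f Z).card) : 6 ≤ Dz f U Z d := by
  have h1 := Bw_le_Dz h3 hm3 hdeg hZ
  have h2 := two_bdr h3 hm3 hZ
  obtain ⟨j, hj⟩ := hodd
  have hD : Dz f U Z d = 6 * (Z.card : ℤ) - (12 - d) * ((tch f Z).card : ℤ) + 2 * Bw f U Z := rfl
  rw [hj] at hD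
  rcases hd with rfl | rfl
  · push_cast at hD
    by_contra hlt
    omega
  · push_cast at hD
    by_contra hlt
    omega

/-- claim 2 -/
theorem claim2 (hd : d = 4 ∨ d = 6) (h3 : ∀ v, (f v).card = 3) (hm3 : ∀ p, mult f p ≤ 3)
    (hdeg : ∀ v, ∑ p ∈ f v, mult f p ≤ d + 3) {Z : Finset N} (hZ : Z ∈ allC (ngr f) U)
    (hodd : Odd Z.card) (hb : (bdr f Z).card ≤ 1) (hi : 2 * (ins f Z).card ≤ Z.card) :
    6 ≤ Dz f U Z d := by
  have h1 := Bw_le_Dz h3 hm3 hdeg hZ
  have h2 := two_bdr h3 hm3 hZ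
  have hcard := card_tch (f := f) h3 (Z := Z)
  obtain ⟨j, hj⟩ := hodd
  have hD : Dz f U Z d = 6 * (Z.card : ℤ) - (12 - d) * ((tch f Z).card : ℤ) + 2 * Bw f U Z := rfl
  rcases Nat.eq_zero_or_pos (bdr f Z).card with hb0 | hb1
  · rcases hd with rfl | rfl
    · push_cast at hD
      omega
    · push_cast at hD
      omega
  have hb' : (bdr f Z).card = 1 := le_antisymm hb hb1
  rcases Nat.eq_zero_or_pos (ins f Z).card with hi0 | hi1
  · -- the only touching vertex is a boundary vertex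
    obtain ⟨v, hv⟩ := Finset.card_eq_one.1 hb'
    have hvb : v ∈ bdr f Z := by rw [hv]; exact Finset.mem_singleton_self v
    have hvt : v ∈ tch f Z := (mem_bdr.1 hvb).1
    have htv : tch f Z = {v} := by
      symm
      apply Finset.eq_of_subset_of_card_le
      · intro z hz; rw [Finset.mem_singleton.1 hz]; exact hvt
      · rw [hcard, hi0, hb', Finset.card_singleton]
    -- Z = f v \ U
    have hZf : Z = (f v).filter (fun p => p ∉ U) := by
      ext p
      rw [Finset.mem_filter]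
      constructor
      · intro hp
        refine ⟨?_, (allC_eq hZ hp).1⟩
        obtain ⟨q, hq1, hq2⟩ := mem_tch.1 hvt
        by_cases hpq : p = q
        · rw [hpq]; exact hq1
        · -- p is joined to q, so p has a neighbour
          have h5 : Rch (ngr f) {y | y ∉ U} p q := by
            have := (allC_eq hZ hp).2
            rw [← this] at hq2
            exact (mem_clsF.1 hq2).2
          rcases Relation.ReflTransGen.cases_head h5 with h6 | ⟨c, ⟨hpc, hc⟩, -⟩
          · exact absurd h6 hpq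
          · obtain ⟨-, u, hu1, hu2⟩ := hpc
            have hu : u ∈ tch f Z := mem_tch.2 ⟨p, hu1, hp⟩
            rw [htv, Finset.mem_singleton] at hu
            rw [← hu]; exact hu1
      · rintro ⟨hp, hpU⟩
        exact node_split h3 hZ hvt hp hpU
    have h7 := Finset.card_filter_add_card_filter_not (s := f v) (fun p => p ∈ U)
    rw [← hZf, h3] at h7
    have h8 : Bw f U Z = WU f U v := by
      unfold Bw
      rw [htv, Finset.sum_singleton]
    have h9 := WU_ge (U := U) hm3 v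
    have htc : (tch f Z).card = 1 := by rw [htv, Finset.card_singleton]
    rcases hd with rfl | rfl
    · push_cast at hD
      omega
    · push_cast at hD
      omega
  · rcases hd with rfl | rfl
    · push_cast at hD
      omega
    · push_cast at hD
      omega

end tch

/-! ### the core -/

theorem own_card {s : Finset N} (h3 : s.card = 3) {mate : N → N} (hmm : ∀ p, mate (mate p) = p)
    {p : N} (hp : p ∈ s) (hne : mate p ≠ p) (hmp : mate p ∈ s) :
    s.filter (fun q => mate q ≠ q ∧ mate q ∈ s) = {p, mate p} := by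
  ext q
  rw [Finset.mem_filter, Finset.mem_insert, Finset.mem_singleton]
  constructor
  · rintro ⟨hq, hqne, hmq⟩
    by_contra hcon
    push Not at hcon
    obtain ⟨hq1, hq2⟩ := hcon
    have e1 : mate q ≠ p := by
      intro he
      apply hq2
      rw [← he, hmm]
    have e2 : mate q ≠ mate p := by
      intro he
      apply hq1
      rw [← hmm q, he, hmm]
    have h4 : ({p, mate p, q, mate q} : Finset N).card = 4 := by
      rw [Finset.card_insert_of_notMem, Finset.card_insert_of_notMem, Finset.card_insert_of_notMem,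
        Finset.card_singleton]
      · rw [Finset.mem_singleton]; exact fun he => hqne he.symm
      · rw [Finset.mem_insert, Finset.mem_singleton]
        rintro (he | he)
        · exact hq2 he.symm
        · exact e2 he.symm
      · rw [Finset.mem_insert, Finset.mem_insert, Finset.mem_singleton]
        rintro (he | he | he)
        · exact hne he.symm
        · exact hq1 he.symm
        · exact e1 he.symm
    have h5 : ({p, mate p, q, mate q} : Finset N) ⊆ s := by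
      intro z hz
      simp only [Finset.mem_insert, Finset.mem_singleton] at hz
      rcases hz with rfl | rfl | rfl | rfl
      · exact hp
      · exact hmp
      · exact hq
      · exact hmq
    have h6 := Finset.card_le_card h5
    omega
  · rintro (rfl | rfl)
    · exact ⟨hp, hne, hmp⟩
    · exact ⟨hmp, by rw [hmm]; exact fun he => hne he.symm, by rw [hmm]; exact hp⟩

theorem core {V N : Type} [Fintype V] [Nonempty V] [Fintype N] {G : SimpleGraph V}
    {f : V → Finset N} {d : ℕ} (hd : d = 4 ∨ d = 6) (h : PS G f d) :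
    ∃ (F : Finset V) (own : V → Finset N) (B : Finset (Finset V)) (x : Finset V → V),
      Own f F own ∧ Reg G B x ∧ (∀ X ∈ B, x X ∉ F) ∧
      (12 - d) * Fintype.card V ≤ 12 * (F.card + B.card) := by
  obtain ⟨U, mate, hmm, hmadj, hcard⟩ := tutte_berge (ngr f)
  have h3 := h.card3
  have hm3 := h.m3
  have hdeg := h.deg
  obtain ⟨own, howndef⟩ : ∃ own : V → Finset N,
      own = fun v => (f v).filter (fun p => mate p ≠ p ∧ mate p ∈ f v) := ⟨_, rfl⟩
  obtain ⟨F, hFdef⟩ : ∃ F : Finset V,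
      F = Finset.univ.filter (fun v => ∃ p, p ∈ f v ∧ mate p ≠ p ∧ mate p ∈ f v) := ⟨_, rfl⟩
  have mem_own : ∀ v p, p ∈ own v ↔ p ∈ f v ∧ mate p ≠ p ∧ mate p ∈ f v := by
    intro v p
    rw [howndef]
    simp only [Finset.mem_filter]
  have mem_F : ∀ v, v ∈ F ↔ ∃ p, p ∈ f v ∧ mate p ≠ p ∧ mate p ∈ f v := by
    intro v
    rw [hFdef]
    simp only [Finset.mem_filter, Finset.mem_univ, true_and]
  have hOwn : Own f F own := by
    refine ⟨?_, ?_, ?_⟩
    · intro v hv p hp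
      exact ((mem_own v p).1 hp).1
    · intro v hv
      obtain ⟨p, hp, hne, hmp⟩ := (mem_F v).1 hv
      have h1 : own v = {p, mate p} := by
        rw [howndef]
        exact own_card (h3 v) hmm hp hne hmp
      rw [h1, Finset.card_pair (fun he => hne he.symm)]
    · intro u hu v hv huv
      rw [Finset.disjoint_left]
      intro p hp hp'
      obtain ⟨a1, a2, a3⟩ := (mem_own u p).1 hp
      obtain ⟨b1, b2, b3⟩ := (mem_own v p).1 hp'
      exact a2 (h.lin u v huv (mate p) p a3 b3 a1 b1)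
  -- the number of matched nodes
  have hmatched : (Finset.univ.filter (fun p => ¬ mate p = p)).card = 2 * F.card := by
    have h1 : Finset.univ.filter (fun p => ¬ mate p = p) = F.biUnion own := by
      ext p
      simp only [Finset.mem_filter, Finset.mem_univ, true_and, Finset.mem_biUnion]
      constructor
      · intro hp
        rcases hmadj p with he | he
        · exact absurd he hp
        · obtain ⟨-, v, hv1, hv2⟩ := he
          exact ⟨v, (mem_F v).2 ⟨p, hv1, hp, hv2⟩, (mem_own v p).2 ⟨hv1, hp, hv2⟩⟩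
      · rintro ⟨v, hv, hp⟩
        exact ((mem_own v p).1 hp).2.1
    rw [h1, Finset.card_biUnion (fun u hu v hv huv => hOwn.disj u hu v hv huv),
      Finset.sum_congr rfl fun v hv => hOwn.card2 v hv, Finset.sum_const, smul_eq_mul, mul_comm]
  have hN := Finset.card_filter_add_card_filter_not (s := (Finset.univ : Finset N))
    (fun p => mate p = p)
  rw [hmatched, Finset.card_univ] at hN
  -- the bad classes
  obtain ⟨B0, hB0def⟩ : ∃ B0 : Finset (Finset N),
      B0 = (oddC (ngr f) U).filter (fun Z => (bdr f Z).card ≤ 1 ∧ ¬ ins f Z ⊆ F) := ⟨_, rfl⟩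
  have mem_B0 : ∀ Z, Z ∈ B0 ↔ Z ∈ oddC (ngr f) U ∧ (bdr f Z).card ≤ 1 ∧ ¬ ins f Z ⊆ F := by
    intro Z
    rw [hB0def, Finset.mem_filter]
  have hoddall : ∀ Z, Z ∈ oddC (ngr f) U → Z ∈ allC (ngr f) U ∧ Odd Z.card := by
    intro Z hZ
    exact Finset.mem_filter.1 hZ
  have hBw : ∀ Z, 0 ≤ Bw f U Z := by
    intro Z
    exact Finset.sum_nonneg fun v _ => WU_nonneg hm3 v
  have hD0 : ∀ Z ∈ allC (ngr f) U, 0 ≤ Dz f U Z d := by
    intro Z hZ
    exact le_trans (hBw Z) (Bw_le_Dz h3 hm3 hdeg hZ)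
  have hD6 : ∀ Z ∈ oddC (ngr f) U \ B0, 6 ≤ Dz f U Z d := by
    intro Z hZ
    rw [Finset.mem_sdiff, mem_B0] at hZ
    obtain ⟨hZo, hZn⟩ := hZ
    obtain ⟨hZ, hodd⟩ := hoddall Z hZo
    by_cases hb : 2 ≤ (bdr f Z).card
    · exact claim1 hd h3 hm3 hdeg hZ hodd hb
    · have hb' : (bdr f Z).card ≤ 1 := by omega
      have hins : ins f Z ⊆ F := by
        by_contra hcon
        exact hZn ⟨hZo, hb', hcon⟩
      refine claim2 hd h3 hm3 hdeg hZ hodd hb' ?_
      have h1 : ((ins f Z).biUnion own).card = 2 * (ins f Z).card := by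
        rw [Finset.card_biUnion (fun u hu v hv huv => hOwn.disj u (hins hu) v (hins hv) huv),
          Finset.sum_congr rfl fun v hv => hOwn.card2 v (hins hv), Finset.sum_const, smul_eq_mul,
          mul_comm]
      rw [← h1]
      apply Finset.card_le_card
      intro p hp
      obtain ⟨v, hv, hpv⟩ := Finset.mem_biUnion.1 hp
      exact mem_ins.1 hv (hOwn.sub v (hins hv) hpv)
  -- the sum of the D
  have hsumD : 6 * (((oddC (ngr f) U).card : ℤ) - (B0.card : ℤ)) ≤
      ∑ Z ∈ allC (ngr f) U, Dz f U Z d := by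
    have hsub : oddC (ngr f) U \ B0 ⊆ allC (ngr f) U := by
      intro Z hZ
      exact (hoddall Z (Finset.mem_sdiff.1 hZ).1).1
    have h1 : ∑ Z ∈ oddC (ngr f) U \ B0, Dz f U Z d ≤ ∑ Z ∈ allC (ngr f) U, Dz f U Z d :=
      Finset.sum_le_sum_of_subset_of_nonneg hsub fun Z hZ _ => hD0 Z hZ
    have h2 : ∑ Z ∈ oddC (ngr f) U \ B0, (6 : ℤ) ≤ ∑ Z ∈ oddC (ngr f) U \ B0, Dz f U Z d :=
      Finset.sum_le_sum hD6
    rw [Finset.sum_const, nsmul_eq_mul] at h2
    have hB0sub : B0 ⊆ oddC (ngr f) U := by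
      intro Z hZ
      exact ((mem_B0 Z).1 hZ).1
    have h3 := Finset.card_sdiff_add_card_eq_card hB0sub
    have h4 : (((oddC (ngr f) U \ B0).card : ℕ) : ℤ) + (B0.card : ℤ) =
        ((oddC (ngr f) U).card : ℤ) := by exact_mod_cast h3
    linarith
  have hsumD2 : ∑ Z ∈ allC (ngr f) U, Dz f U Z d =
      6 * (∑ Z ∈ allC (ngr f) U, (Z.card : ℤ)) -
        (12 - d) * (∑ Z ∈ allC (ngr f) U, ((tch f Z).card : ℤ)) +
        2 * ∑ Z ∈ allC (ngr f) U, Bw f U Z := by
    unfold Dz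
    rw [Finset.sum_add_distrib, Finset.sum_sub_distrib, Finset.mul_sum, Finset.mul_sum,
      Finset.mul_sum]
  have hs1 := sum_allC (S := ngr f) (U := U)
  have hs2 := sum_tch (f := f) (U := U) h3
  have hs3 := sum_Bw (f := f) (U := U) h3 hm3 hdeg
  have hs1' : ∑ Z ∈ allC (ngr f) U, (Z.card : ℤ) + (U.card : ℤ) = (Fintype.card N : ℤ) := by
    exact_mod_cast hs1
  have hs2' : ∑ Z ∈ allC (ngr f) U, ((tch f Z).card : ℤ) +
      ((Finset.univ.filter (fun v => f v ⊆ U)).card : ℤ) = (Fintype.card V : ℤ) := by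
    exact_mod_cast hs2
  have hcard' : ((Finset.univ.filter (fun p => mate p = p)).card : ℤ) + (U.card : ℤ) ≤
      ((oddC (ngr f) U).card : ℤ) := by exact_mod_cast hcard
  have hN' : ((Finset.univ.filter (fun p => mate p = p)).card : ℤ) + 2 * (F.card : ℤ) =
      (Fintype.card N : ℤ) := by exact_mod_cast hN
  have hd12 : (0 : ℤ) ≤ 12 - d := by
    rcases hd with rfl | rfl <;> norm_num
  have hinU : (0 : ℤ) ≤ (12 - (d : ℤ)) * ((Finset.univ.filter (fun v => f v ⊆ U)).card : ℤ) :=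
    mul_nonneg hd12 (Nat.cast_nonneg _)
  have hmain : (12 - (d : ℤ)) * (Fintype.card V : ℤ) ≤ 12 * (F.card : ℤ) + 6 * (B0.card : ℤ) := by
    have e1 : (12 - (d : ℤ)) * (∑ Z ∈ allC (ngr f) U, ((tch f Z).card : ℤ)) =
        (12 - (d : ℤ)) * (Fintype.card V : ℤ) -
          (12 - (d : ℤ)) * ((Finset.univ.filter (fun v => f v ⊆ U)).card : ℤ) := by
      rw [← hs2']
      ring
    rw [e1] at hsumD2
    linarith
  -- the regions
  have hinj : ∀ Z ∈ B0, ∀ Z' ∈ B0, ∀ v, v ∈ ins f Z → v ∈ ins f Z' → Z = Z' := by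
    intro Z hZ Z' hZ' v hv hv'
    have h1 : (f v).Nonempty := by
      rw [← Finset.card_pos, h3]; norm_num
    obtain ⟨p, hp⟩ := h1
    exact allC_disj (hoddall Z ((mem_B0 Z).1 hZ).1).1 (hoddall Z' ((mem_B0 Z').1 hZ').1).1
      (mem_ins.1 hv hp) (mem_ins.1 hv' hp)
  have hne : ∀ Z ∈ B0, ∃ v, v ∈ ins f Z ∧ v ∉ F := by
    intro Z hZ
    obtain ⟨v, hv, hvF⟩ := Finset.not_subset.1 ((mem_B0 Z).1 hZ).2.2
    exact ⟨v, hv, hvF⟩
  obtain ⟨v0⟩ := (inferInstance : Nonempty V)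
  obtain ⟨x, hx⟩ : ∃ x : Finset V → V, ∀ X : Finset V, (∃ v, v ∈ X ∧ v ∉ F) → x X ∈ X ∧ x X ∉ F :=
    ⟨fun X => if hX : ∃ v, v ∈ X ∧ v ∉ F then hX.choose else v0, by
      intro X hX
      simp only [dif_pos hX]
      exact hX.choose_spec⟩
  refine ⟨F, own, B0.image (ins f), x, hOwn, ⟨?_, ?_, ?_⟩, ?_, ?_⟩
  · intro X hX Y hY hXY
    obtain ⟨Z, hZ, rfl⟩ := Finset.mem_image.1 hX
    obtain ⟨Z', hZ', rfl⟩ := Finset.mem_image.1 hY
    rw [Finset.disjoint_left]
    intro v hv hv'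
    exact hXY (by rw [hinj Z hZ Z' hZ' v hv hv'])
  · intro X hX
    obtain ⟨Z, hZ, rfl⟩ := Finset.mem_image.1 hX
    exact (hx _ (hne Z hZ)).1
  · intro X hX
    obtain ⟨Z, hZ, rfl⟩ := Finset.mem_image.1 hX
    refine ⟨bdr f Z, ((mem_B0 Z).1 hZ).2.1, ?_, ?_⟩
    · intro Y hY
      obtain ⟨Z', hZ', rfl⟩ := Finset.mem_image.1 hY
      rw [Finset.disjoint_left]
      intro v hv hv'
      obtain ⟨hv1, hv2⟩ := mem_bdr.1 hv
      obtain ⟨p, hp, hpZ⟩ := mem_tch.1 hv1
      have h1 := allC_disj (hoddall Z ((mem_B0 Z).1 hZ).1).1 (hoddall Z' ((mem_B0 Z').1 hZ').1).1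
        hpZ (mem_ins.1 hv' hp)
      apply hv2
      rw [h1]
      exact mem_ins.1 hv'
    · intro u hu w huw
      obtain ⟨-, p, hp, hpw⟩ := (h.adj u w).1 huw
      have h1 : w ∈ tch f Z := mem_tch.2 ⟨p, hpw, mem_ins.1 hu hp⟩
      by_cases hw : f w ⊆ Z
      · exact Or.inl (mem_ins.2 hw)
      · exact Or.inr (mem_bdr.2 ⟨h1, hw⟩)
  · intro X hX
    obtain ⟨Z, hZ, rfl⟩ := Finset.mem_image.1 hX
    exact (hx _ (hne Z hZ)).2
  · have hBcard : (B0.image (ins f)).card = B0.card := by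
      apply Finset.card_image_of_injOn
      intro Z hZ Z' hZ' he
      obtain ⟨v, hv, -⟩ := hne Z hZ
      exact hinj Z hZ Z' hZ' v hv (by rw [← he]; exact hv)
    rw [hBcard]
    rcases hd with rfl | rfl
    · push_cast at hmain
      omega
    · push_cast at hmain
      omega

end

end Pool.Agent.H64.K4
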