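import Pool.Agent.H67.CF.Defs

/-!
MP_490a5a_co, graphs without induced `K_{1,4}` and without two triangles sharing an edge (project MP_490a5a_K4).
Text of the proof: /team-store/H64_K14.md.

`f v` is the set of the three nodes of the vertex `v`; two vertices are adjacent iff they share a node.
Nodes: the triangles, the edges in no triangle, and private nodes (padding to exactly three nodes per vertex).
-/

set_option autoImplicit false
set_option linter.all false

namespace Pool.Agent.H64.K4

open Classical Pool.Agent.H67.CF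

noncomputable section

variable {V N : Type}

/-- no induced `K_{1,4}` -/
def K14 {V : Type*} (G : SimpleGraph V) : Prop :=
  ∀ v a b c e, G.Adj v a → G.Adj v b → G.Adj v c → G.Adj v e → a ≠ b → a ≠ c → a ≠ e → b ≠ c →
    b ≠ e → c ≠ e →
    G.Adj a b ∨ G.Adj a c ∨ G.Adj a e ∨ G.Adj b c ∨ G.Adj b e ∨ G.Adj c e

/-- every edge lies in at most one triangle -/
def Dia {V : Type*} (G : SimpleGraph V) : Prop :=
  ∀ u v a b, G.Adj u v → G.Adj u a → G.Adj v a → G.Adj u b → G.Adj v b → a = b

/-- the number of vertices at the node `p` -/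
def mult [Fintype V] (f : V → Finset N) (p : N) : ℕ :=
  (Finset.univ.filter (fun v => p ∈ f v)).card

/-- `f` is a point structure for `G` with degree bound `d` -/
structure PS [Fintype V] (G : SimpleGraph V) (f : V → Finset N) (d : ℕ) : Prop where
  card3 : ∀ v, (f v).card = 3
  adj : ∀ u v, G.Adj u v ↔ u ≠ v ∧ ∃ p, p ∈ f u ∧ p ∈ f v
  lin : ∀ u v, u ≠ v → ∀ p q, p ∈ f u → p ∈ f v → q ∈ f u → q ∈ f v → p = q
  m3 : ∀ p, mult f p ≤ 3
  deg : ∀ v, ∑ p ∈ f v, mult f p ≤ d + 3

/-- `own` gives every vertex of `F` two of its nodes, and no node is given twice -/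
structure Own (f : V → Finset N) (F : Finset V) (own : V → Finset N) : Prop where
  sub : ∀ v ∈ F, own v ⊆ f v
  card2 : ∀ v ∈ F, (own v).card = 2
  disj : ∀ u ∈ F, ∀ v ∈ F, u ≠ v → Disjoint (own u) (own v)

/-- regions: pairwise disjoint sets `X ∈ B`, each attached to the rest by at most one vertex, which lies in no
region; `x X` is an element of `X` -/
structure Reg (G : SimpleGraph V) (B : Finset (Finset V)) (x : Finset V → V) : Prop where
  disj : ∀ X ∈ B, ∀ Y ∈ B, X ≠ Y → Disjoint X Y
  mem : ∀ X ∈ B, x X ∈ X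
  cut : ∀ X ∈ B, ∃ C : Finset V, C.card ≤ 1 ∧ (∀ Y ∈ B, Disjoint C Y) ∧
    ∀ u ∈ X, ∀ w, G.Adj u w → w ∈ X ∨ w ∈ C

/-- the node graph -/
def ngr (f : V → Finset N) : SimpleGraph N where
  Adj p q := p ≠ q ∧ ∃ v, p ∈ f v ∧ q ∈ f v
  symm := ⟨fun _ _ h => ⟨h.1.symm, h.2.imp fun _ h' => ⟨h'.2, h'.1⟩⟩⟩
  loopless := ⟨fun _ h => h.1 rfl⟩

/-- the class of `p` in the complement of `U` -/
def clsF [Fintype N] (S : SimpleGraph N) (U : Finset N) (p : N) : Finset N :=
  Finset.univ.filter (fun z => z ∉ U ∧ Rch S {y | y ∉ U} p z)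

/-- all classes of the complement of `U` -/
def allC [Fintype N] (S : SimpleGraph N) (U : Finset N) : Finset (Finset N) :=
  (Finset.univ.filter (fun p => p ∉ U)).image (clsF S U)

/-- the odd classes -/
def oddC [Fintype N] (S : SimpleGraph N) (U : Finset N) : Finset (Finset N) :=
  (allC S U).filter (fun Z => Odd Z.card)

end

end Pool.Agent.H64.K4
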