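import Pool.Agent.H64.K4.Defs
import Pool.Agent.H67.CF.Fl

/-!
Module La (row K4LA).  The lower bounds for `d = 4`: line graphs of cubic bipartite graphs of large girth.  A copy of H67/CF/Fl with `p = q = 3`.

(1) `bip_class`: the line graph of a bipartite graph of maximum degree `≤ 3` is claw-free (so `K14`) and satisfies `Dia`: if `e, e'` are adjacent and share (say) `s`, a common
    neighbour of both must have the same `s` (otherwise it shares `t` with one and `s` with the other, and equals one of them by injectivity, or it shares `t` with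
    both, and then `e = e'`), so it is the third element of the fibre of `s`, which has at most three elements.
(2) `transport4`: as `transport` in H67/CF/Fl, from `cover 3 3`, keeping the information that the fibres have exactly 3 elements; `a = b = n/3`.
(3) `cf_low4`, `mu_low4`: the proofs of `cf_low`, `mu_low` of H67/CF/Fl with `transport4`, `HasCub` in place of `HasBipLine`, and `2/3` in place of `wt d`.
-/

set_option autoImplicit false
set_option linter.all false

namespace Pool.Agent.H64.K4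

open Classical Pool.Agent.H67.CF

noncomputable section

/-- the class `P` contains all line graphs of (simple) bipartite graphs of maximum degree at most 3 -/
def HasCub (P : (n : ℕ) → SimpleGraph (Fin n) → Prop) : Prop :=
  ∀ (n : ℕ) (s t : Fin n → ℕ), (∀ e e', s e = s e' → t e = t e' → e = e') →
    (∀ k, (Finset.univ.filter (fun e => s e = k)).card ≤ 3) →
    (∀ k, (Finset.univ.filter (fun e => t e = k)).card ≤ 3) → P n (bipLine s t)

theorem La_four {n : ℕ} (F : Finset (Fin n)) (hF : F.card ≤ 3) {u v a b : Fin n} (hu : u ∈ F)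
    (hv : v ∈ F) (ha : a ∈ F) (hb : b ∈ F) (huv : u ≠ v) (hua : u ≠ a) (hva : v ≠ a)
    (hub : u ≠ b) (hvb : v ≠ b) : a = b := by
  by_contra hab
  have h1 : ({u, v, a, b} : Finset (Fin n)) ⊆ F := by
    intro x hx
    simp only [Finset.mem_insert, Finset.mem_singleton] at hx
    rcases hx with rfl | rfl | rfl | rfl <;> assumption
  have h2 : ({u, v, a, b} : Finset (Fin n)).card = 4 := by
    rw [Finset.card_insert_of_notMem, Finset.card_insert_of_notMem, Finset.card_pair hab]
    · simp only [Finset.mem_insert, Finset.mem_singleton, not_or]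
      exact ⟨hva, hvb⟩
    · simp only [Finset.mem_insert, Finset.mem_singleton, not_or]
      exact ⟨huv, hua, hub⟩
  have h3 := Finset.card_le_card h1
  omega

theorem bip_class {n : ℕ} {s t : Fin n → ℕ} (hinj : ∀ e e', s e = s e' → t e = t e' → e = e')
    (hs : ∀ k, (Finset.univ.filter (fun e => s e = k)).card ≤ 3)
    (ht : ∀ k, (Finset.univ.filter (fun e => t e = k)).card ≤ 3) :
    K14 (bipLine s t) ∧ Dia (bipLine s t) := by
  constructor
  · rintro v a b c e ⟨-, ha⟩ ⟨-, hb⟩ ⟨-, hc⟩ - hab hac - hbc - -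
    rcases ha with ha | ha <;> rcases hb with hb | hb <;> rcases hc with hc | hc
    · exact Or.inl ⟨hab, Or.inl (ha.symm.trans hb)⟩
    · exact Or.inl ⟨hab, Or.inl (ha.symm.trans hb)⟩
    · exact Or.inr (Or.inl ⟨hac, Or.inl (ha.symm.trans hc)⟩)
    · exact Or.inr (Or.inr (Or.inr (Or.inl ⟨hbc, Or.inr (hb.symm.trans hc)⟩)))
    · exact Or.inr (Or.inr (Or.inr (Or.inl ⟨hbc, Or.inl (hb.symm.trans hc)⟩)))
    · exact Or.inr (Or.inl ⟨hac, Or.inr (ha.symm.trans hc)⟩)
    · exact Or.inl ⟨hab, Or.inr (ha.symm.trans hb)⟩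
    · exact Or.inl ⟨hab, Or.inr (ha.symm.trans hb)⟩
  · rintro u v a b ⟨huv, h1⟩ ⟨hua, h2⟩ ⟨hva, h3⟩ ⟨hub, h4⟩ ⟨hvb, h5⟩
    rcases h1 with h1 | h1
    · have htuv : t u ≠ t v := fun h => huv (hinj _ _ h1 h)
      have hsa : s u = s a := by
        rcases h2 with h2 | h2
        · exact h2
        · rcases h3 with h3 | h3
          · exact h1.trans h3
          · exact absurd (h2.trans h3.symm) htuv
      have hsb : s u = s b := by
        rcases h4 with h4 | h4
        · exact h4
        · rcases h5 with h5 | h5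
          · exact h1.trans h5
          · exact absurd (h4.trans h5.symm) htuv
      exact La_four _ (hs (s u)) (by simp) (by simp [h1.symm]) (by simp [hsa.symm])
        (by simp [hsb.symm]) huv hua hva hub hvb
    · have hsuv : s u ≠ s v := fun h => huv (hinj _ _ h h1)
      have hta : t u = t a := by
        rcases h2 with h2 | h2
        · rcases h3 with h3 | h3
          · exact absurd (h2.trans h3.symm) hsuv
          · exact h1.trans h3
        · exact h2
      have htb : t u = t b := by
        rcases h4 with h4 | h4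
        · rcases h5 with h5 | h5
          · exact absurd (h4.trans h5.symm) hsuv
          · exact h1.trans h5
        · exact h4
      exact La_four _ (ht (t u)) (by simp) (by simp [h1.symm]) (by simp [hta.symm])
        (by simp [htb.symm]) huv hua hva hub hvb

theorem La_fibN {n a : ℕ} (s : Fin n → Fin a)
    (hs : ∀ x, (Finset.univ.filter (fun e => s e = x)).card = 3) (k : ℕ) :
    (Finset.univ.filter (fun e => ((s e : Fin a) : ℕ) = k)).card ≤ 3 := by
  by_cases hk : k < a
  · rw [← hs ⟨k, hk⟩]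
    refine Finset.card_le_card ?_
    intro e he
    rw [Finset.mem_filter] at he ⊢
    exact ⟨he.1, Fin.ext he.2⟩
  · have h0 : Finset.univ.filter (fun e => ((s e : Fin a) : ℕ) = k) = ∅ := by
      refine Finset.filter_eq_empty_iff.2 ?_
      intro e _ h
      exact hk (h ▸ (s e).2)
    rw [h0]
    simp

theorem La_transport (g : ℕ) :
    ∃ (n a b : ℕ) (s : Fin n → Fin a) (t : Fin n → Fin b), 1 ≤ n ∧ g ≤ n ∧
      ((a : ℝ) + b = 2 / 3 * n) ∧ (∀ e, (nb (lineG s t) e).card ≤ 4) ∧ Rg s t g ∧
      (∀ e e', s e = s e' → t e = t e' → e = e') ∧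
      (∀ k : ℕ, (Finset.univ.filter (fun e => (s e : ℕ) = k)).card ≤ 3) ∧
      (∀ k : ℕ, (Finset.univ.filter (fun e => (t e : ℕ) = k)).card ≤ 3) ∧
      bipLine (fun e => (s e : ℕ)) (fun e => (t e : ℕ)) = lineG s t := by
  obtain ⟨E, A, B, iE, iA, iB, hne, s0, t0, hs, ht, hR⟩ :=
    cover 3 3 (by omega) (by omega) (g + 3)
  have hpos : 1 ≤ Fintype.card E := Fintype.card_pos
  have cA := fibre_card hs
  have cB := fibre_card ht
  refine ⟨Fintype.card E, Fintype.card A, Fintype.card B,
    fun e => Fintype.equivFin A (s0 ((Fintype.equivFin E).symm e)),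
    fun e => Fintype.equivFin B (t0 ((Fintype.equivFin E).symm e)), hpos, ?_, ?_, ?_, ?_, ?_, ?_,
    ?_, ?_⟩
  · by_contra hlt
    have h1 := hR Finset.univ Finset.univ_nonempty (by rw [Finset.card_univ]; omega)
    rw [Finset.card_univ] at h1
    have h2 := Finset.card_le_univ (Finset.univ.image s0)
    have h3 := Finset.card_le_univ (Finset.univ.image t0)
    omega
  · have hA : (Fintype.card E : ℝ) = 3 * Fintype.card A := by
      rw [cA]; push_cast; ring
    have hB : (Fintype.card E : ℝ) = 3 * Fintype.card B := by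
      rw [cB]; push_cast; ring
    linarith
  · intro e
    exact (lineG_deg (Fl_fib hs _ _) (Fl_fib ht _ _) e).trans (by omega)
  · exact Fl_Rg hR _ _ _ (by omega)
  · intro e e' h1 h2
    exact Fl_inj (Fl_Rg hR (Fintype.equivFin E) (Fintype.equivFin A) (Fintype.equivFin B) le_rfl)
      (by omega) h1 h2
  · refine La_fibN _ fun x => ?_
    convert Fl_fib hs (Fintype.equivFin E) (Fintype.equivFin A) x
  · refine La_fibN _ fun x => ?_
    convert Fl_fib ht (Fintype.equivFin E) (Fintype.equivFin B) x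
  · ext e e'
    simp only [bipLine, lineG, Fin.ext_iff]

theorem cf_low4 {P : (n : ℕ) → SimpleGraph (Fin n) → Prop} (hP : HasCub P) {c : ℝ}
    (hc : c ∈ cfSet P 4) : 1 / 3 ≤ c := by
  by_contra hlt
  rw [not_le] at hlt
  set ε : ℝ := (1 / 3 - c) / 2 with hε
  have hεp : 0 < ε := by rw [hε]; linarith
  obtain ⟨C, hC⟩ := hc ε hεp
  obtain ⟨n, a, b, s, t, hn, hgn, hab, hdeg, hR, hinj, hfs, hft, hG⟩ := La_transport (C + 1)
  have hPG : P n (lineG s t) := by
    rw [← hG]
    exact hP n _ _ (fun e e' h1 h2 => hinj e e' (Fin.ext h1) (Fin.ext h2)) hfs hft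
  obtain ⟨S, hS, hT⟩ := hC n (lineG s t) hPG fun v => by
    rw [← nb_card]
    exact hdeg v
  have h1 := small_pieces hR Sᶜ (by
    intro Z hZ hconn
    rcases Z.eq_empty_or_nonempty with rfl | hZne
    · simp
    · have h2 := hT (Z : Set (Fin n)) (by
        rw [Finset.disjoint_coe]
        exact Finset.disjoint_left.2 fun x hx hxS => (Finset.mem_compl.1 (hZ hx)) hxS)
        (connected_iff.2 ⟨hZne, hconn⟩)
      rw [Set.ncard_coe_finset] at h2
      omega)
  have h4 : (Sᶜ : Finset (Fin n)).card ≤ a + b :=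
    h1.trans (Nat.add_le_add ((Finset.card_le_univ _).trans_eq (Fintype.card_fin _))
      ((Finset.card_le_univ _).trans_eq (Fintype.card_fin _)))
  rw [Finset.card_compl, Fintype.card_fin] at h4
  have h5 : n ≤ a + b + S.card := by omega
  have h6 : (n : ℝ) ≤ a + b + S.card := by exact_mod_cast h5
  rw [hab] at h6
  have hn' : (0 : ℝ) < n := by exact_mod_cast hn
  have h7 : (n : ℝ) * ε ≤ 0 := by
    have : (1 : ℝ) / 3 = 2 * ε + c := by rw [hε]; ring
    nlinarith
  have h8 := mul_pos hn' hεp
  linarith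

theorem mu_low4 {P : (n : ℕ) → SimpleGraph (Fin n) → Prop} (hP : HasCub P) {r : ℕ} {μ : ℝ}
    (hμ : μ ∈ muSet P r 4) : 1 / 3 ≤ μ := by
  by_contra hlt
  rw [not_le] at hlt
  set ε : ℝ := (1 / 3 - μ) / 2 with hε
  have hεp : 0 < ε := by rw [hε]; linarith
  obtain ⟨N, hN⟩ := hμ ε hεp
  obtain ⟨m0, hm0⟩ := exists_nat_ge ((2 : ℝ) ^ r / ε)
  have hmη : (2 : ℝ) ^ r ≤ ε * ((m0 + 1 : ℕ) : ℝ) := by
    rw [div_le_iff₀ hεp] at hm0
    push_cast
    nlinarith
  obtain ⟨n, a, b, s, t, hn, hgn, hab, hdeg, hR, hinj, hfs, hft, hG⟩ :=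
    La_transport (N + 2 * ((4 + 1) * (m0 + 1) ^ 2) + 1)
  have hPG : P n (lineG s t) := by
    rw [← hG]
    exact hP n _ _ (fun e e' h1 h2 => hinj e e' (Fin.ext h1) (Fin.ext h2)) hfs hft
  obtain ⟨S, hS, hno⟩ := hN n (by omega) (lineG s t) hPG fun v => by
    rw [← nb_card]
    exact hdeg v
  haveI : Nonempty (Fin n) := ⟨⟨0, hn⟩⟩
  have hY : (Fintype.card (Fin a) : ℝ) + Fintype.card (Fin b) + ε * Fintype.card (Fin n) ≤
      ((Sᶜ : Finset (Fin n)).card : ℝ) := by
    rw [Finset.card_compl, Fintype.card_fin, Fintype.card_fin, Fintype.card_fin, hab]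
    have h1 : S.card ≤ n := by
      have := Finset.card_le_univ S
      rwa [Fintype.card_fin] at this
    rw [Nat.cast_sub h1]
    have : (1 : ℝ) / 3 = 2 * ε + μ := by rw [hε]; ring
    nlinarith
  obtain ⟨f, hf1, hf2, hf3⟩ := low_model (m := m0 + 1) hdeg hR (by omega) (by omega) hεp hmη Sᶜ hY
  refine hno ⟨f, fun i => ?_, fun i => ?_, hf2, hf3⟩
  · rw [Set.disjoint_left]
    intro x hx hxS
    have := (hf1 i).1 hx
    rw [Finset.mem_coe, Finset.mem_compl] at this
    exact this (Finset.mem_coe.1 hxS)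
  · exact connected_iff.2 (hf1 i).2

end

end Pool.Agent.H64.K4
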