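import Pool.Agent.H64.K4.Lp
import Pool.Agent.H67.CF.Ld

/-!
Module Lm (row K4LM).  A set of left vertices which is slightly too large contains a large clique minor.  A copy of `low_model` (H67/CF/Ld) for `pgr s t`; use only the STATEMENTS of Lp.

`part` (H67/CF/Pa) for `G := pgr s t`, `Y`, `m`: pieces `Q i`, `i < n`, `m ≤ |Q i| ≤ (d+1) m²`, connected, disjoint, the rest `Y \ U` (`U = ⋃ Q i`) has connected subsets of size `< m` and no
edge to `U`.  `D i := pts (Q i)`: `2|Q i| + 1 ≤ |D i|` (`pts_lower`), `|D i ∩ D j| ≤ 1` (`pts_share`), `2 |Y \ U| ≤ |pts (Y \ U)|` (`pts_small`), and `pts (Y \ U)` is disjoint from all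
`D i` (a common point of `y ∈ Y \ U` and `x ∈ Q i` makes them adjacent).  So `Σ (2|Q i| + 1) ≤ Σ |D i|`, `|⋃ D i| + 2 |Y \ U| ≤ |B|`, and `pair_count` (H67/CF/Lc):
`2 Σ |D i| ≤ 2 |⋃ D i| + |P|`, `P` = the ordered pairs `i ≠ j` with `D i ∩ D j ≠ ∅`.  Hence `4|Y| + 2n ≤ 2|B| + |P|`, with `hY`: `|P| ≥ 2 η |A| + 2n > 0`, and `m n ≤ |U| ≤ |A|`, so
`|P| ≥ 2 η m n ≥ 2^(r+1) n`: the quotient graph has a model of `K_r` (as in `low_model`, with the theorem of H67/CF/Md), which lifts to `Y` (as `Ld_lift`; its statement is for `lineG`,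
copy it for `pgr`, or for any graph).
-/

set_option autoImplicit false
set_option linter.all false

namespace Pool.Agent.H64.K4

open Classical Pool.Agent.H67.CF

noncomputable section

theorem Lm_share {E A B : Type} [Fintype E] (s : E → A) (t : E → B) (Z Z' : Finset A) {w : B}
    (h : w ∈ pts s t Z) (h' : w ∈ pts s t Z') :
    ∃ x ∈ Z, ∃ y ∈ Z', x = y ∨ (pgr s t).Adj x y := by
  unfold pts at h h'
  rw [Finset.mem_image] at h h'
  obtain ⟨e, he, hew⟩ := h
  obtain ⟨e', he', hew'⟩ := h'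
  rw [Finset.mem_filter] at he he'
  refine ⟨s e, he.2, s e', he'.2, ?_⟩
  by_cases hx : s e = s e'
  · exact Or.inl hx
  · exact Or.inr ⟨hx, e, e', rfl, rfl, hew.trans hew'.symm⟩

theorem Lm_lift {V : Type} {G : SimpleGraph V} {r n : ℕ} (Y : Finset V)
    (Q : Fin n → Finset V) (hQY : ∀ i, Q i ⊆ Y) (hQne : ∀ i, (Q i).Nonempty)
    (hQc : ∀ i, PConn G (Q i : Set V)) (hdis : ∀ i j, i ≠ j → Disjoint (Q i) (Q j))
    (H : SimpleGraph (Fin n)) (hadj : ∀ i j, H.Adj i j → ∃ x ∈ Q i, ∃ y ∈ Q j, G.Adj x y)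
    (hM : Model H r ((Finset.univ : Finset (Fin n)) : Set (Fin n))) :
    Model G r (Y : Set V) := by
  obtain ⟨f, hf1, hf2, hf3⟩ := hM
  refine ⟨fun k => {e | ∃ i ∈ f k, e ∈ Q i}, ?_, ?_, ?_⟩
  · intro k
    refine ⟨?_, ?_, ?_⟩
    · rintro e ⟨i, _, hi⟩
      exact hQY i hi
    · obtain ⟨i, hi⟩ := (hf1 k).2.1
      obtain ⟨e, he⟩ := hQne i
      exact ⟨e, i, hi, he⟩
    · rintro a ⟨i, hi, ha⟩ b ⟨j, hj, hb⟩
      have hR := (hf1 k).2.2 i hi j hj
      have hmono : ∀ l ∈ f k, (Q l : Set V) ⊆ {e | ∃ i ∈ f k, e ∈ Q i} :=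
        fun l hl e he => ⟨l, hl, he⟩
      have key : ∀ b ∈ Q j, Rch G {e | ∃ i ∈ f k, e ∈ Q i} a b := by
        refine rch_induct (P := fun l => ∀ b ∈ Q l,
          Rch G {e | ∃ i ∈ f k, e ∈ Q i} a b) hR ?_ ?_
        · intro b hb
          exact rch_mono (hmono i hi) (hQc i a ha b hb)
        · intro x y hx _ hxy hy b hb
          obtain ⟨u, hu, v, hv, huv⟩ := hadj x y hxy
          have h1 := rch_tail (hx u hu) huv ⟨y, hy, hv⟩
          exact rch_trans h1 (rch_mono (hmono y hy) (hQc y v hv b hb))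
      exact key b hb
  · intro k l hkl
    rw [Set.disjoint_left]
    rintro e ⟨i, hi, hei⟩ ⟨j, hj, hej⟩
    by_cases hij : i = j
    · rw [← hij] at hj
      exact Set.disjoint_left.1 (hf2 k l hkl) hi hj
    · exact Finset.disjoint_left.1 (hdis i j hij) hei hej
  · intro k l hkl
    obtain ⟨i, hi, j, hj, hij⟩ := hf3 k l hkl
    obtain ⟨x, hx, y, hy, hxy⟩ := hadj i j hij
    exact ⟨x, ⟨i, hi, hx⟩, y, ⟨j, hj, hy⟩, hxy⟩

theorem low_model6 {E A B : Type} [Fintype E] [Fintype A] [Fintype B] [Nonempty A]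
    {s : E → A} {t : E → B} {d g m r : ℕ} {η : ℝ}
    (hs : ∀ a, (Finset.univ.filter (fun e => s e = a)).card = 3)
    (hdeg : ∀ a, (nb (pgr s t) a).card ≤ d) (hR : Rg s t g) (hm : 1 ≤ m)
    (hg : 6 * ((d + 1) * m ^ 2) < g) (hη : 0 < η) (hmη : (2 : ℝ) ^ r ≤ η * m)
    (Y : Finset A) (hY : (Fintype.card B : ℝ) + η * Fintype.card A ≤ 2 * Y.card) :
    Model (pgr s t) r (Y : Set A) := by
  obtain ⟨n, Q, hQ, hdis, hcl, hsm⟩ := part hdeg Y hm
  have hmm : m ≤ (d + 1) * m ^ 2 := by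
    calc m ≤ m * m := Nat.le_mul_of_pos_left m hm
      _ = 1 * m ^ 2 := by ring
      _ ≤ (d + 1) * m ^ 2 := Nat.mul_le_mul_right _ (Nat.succ_le_succ (Nat.zero_le d))
  have hQne : ∀ i, (Q i).Nonempty := by
    intro i
    rw [← Finset.card_pos]
    have := (hQ i).2.1
    omega
  set D : Fin n → Finset B := fun i => pts s t (Q i) with hD
  have h1 : ∀ i, 2 * (Q i).card + 1 ≤ (D i).card := by
    intro i
    exact pts_lower hs hR (hQne i) (by have := (hQ i).2.2.1; omega)
  have h2 : ∀ i j, i ≠ j → (D i ∩ D j).card ≤ 1 := by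
    intro i j hij
    apply pts_share hs hR (hQne i) (hQne j) (hQ i).2.2.2 (hQ j).2.2.2 (hdis i j hij)
    have := (hQ i).2.2.1
    have := (hQ j).2.2.1
    omega
  have h3 := Ld_pc D h2
  set U : Finset A := Finset.univ.biUnion Q with hU
  have hUY : U ⊆ Y := by
    rw [hU, Finset.biUnion_subset]
    intro i _
    exact (hQ i).1
  have hUc : U.card = ∑ i, (Q i).card := by
    rw [hU]
    apply Finset.card_biUnion
    intro i _ j _ hij
    exact hdis i j hij
  have h4 : 2 * (Y \ U).card ≤ (pts s t (Y \ U)).card := by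
    apply pts_small hs hR
    intro Z hZ hc
    have h5 : Z.card < m := by
      apply hsm Z (hZ.trans Finset.sdiff_subset) _ hc
      intro i
      rw [Finset.disjoint_left]
      intro x hx hxi
      have := (Finset.mem_sdiff.1 (hZ hx)).2
      apply this
      rw [hU, Finset.mem_biUnion]
      exact ⟨i, Finset.mem_univ i, hxi⟩
    omega
  have h5 : Disjoint (pts s t (Y \ U)) (Finset.univ.biUnion D) := by
    rw [Finset.disjoint_left]
    intro w hw hw'
    rw [Finset.mem_biUnion] at hw'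
    obtain ⟨i, _, hi⟩ := hw'
    obtain ⟨x, hx, y, hy, hxy⟩ := Lm_share s t _ _ hw hi
    rw [Finset.mem_sdiff] at hx
    have hne : y ≠ x := by
      intro h
      apply hx.2
      rw [hU, Finset.mem_biUnion]
      exact ⟨i, Finset.mem_univ i, h ▸ hy⟩
    have hadj : (pgr s t).Adj y x := by
      rcases hxy with hxy | hxy
      · exact absurd hxy.symm hne
      · exact hxy.symm
    obtain ⟨j, hj⟩ := hcl i y hy x hx.1 hadj
    apply hx.2
    rw [hU, Finset.mem_biUnion]
    exact ⟨j, Finset.mem_univ j, hj⟩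
  have h6 : (pts s t (Y \ U)).card + (Finset.univ.biUnion D).card ≤ Fintype.card B := by
    rw [← Finset.card_union_of_disjoint h5]
    exact Finset.card_le_univ _
  have h7 : (Y \ U).card + U.card = Y.card := Finset.card_sdiff_add_card_eq_card hUY
  have h8 : 2 * ∑ i, (Q i).card + n ≤ ∑ i, (D i).card := by
    have h := Finset.sum_le_sum (fun i (_ : i ∈ (Finset.univ : Finset (Fin n))) => h1 i)
    rw [Finset.sum_add_distrib, ← Finset.mul_sum] at h
    simpa using h
  have h9 : m * n ≤ U.card := by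
    rw [hUc]
    have h := Finset.sum_le_sum (fun i (_ : i ∈ (Finset.univ : Finset (Fin n))) => (hQ i).2.1)
    rw [Finset.sum_const, Finset.card_univ, Fintype.card_fin, smul_eq_mul, mul_comm] at h
    exact h
  have h10 : U.card ≤ Fintype.card A := Finset.card_le_univ _
  set P := ((Finset.univ : Finset (Fin n)) ×ˢ (Finset.univ : Finset (Fin n))).filter
        (fun p => (Ld_H D).Adj p.1 p.2) with hP
  have h11 : 4 * Y.card + 2 * n ≤ 2 * Fintype.card B + P.card := by
    omega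
  have h11' : 4 * (Y.card : ℝ) + 2 * (n : ℝ) ≤ 2 * (Fintype.card B : ℝ) + P.card := by
    exact_mod_cast h11
  have hE : (0 : ℝ) < Fintype.card A := by
    exact_mod_cast Fintype.card_pos
  have h12 : 2 * (η * Fintype.card A) ≤ (P.card : ℝ) := by
    have : (0 : ℝ) ≤ n := Nat.cast_nonneg n
    linarith
  have h13 : (0 : ℝ) < P.card := by
    have := mul_pos hη hE
    linarith
  have hn : Nonempty (Fin n) := by
    have h : 0 < P.card := by exact_mod_cast h13
    rw [Finset.card_pos] at h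
    obtain ⟨x, _⟩ := h
    exact ⟨x.1⟩
  have h14 : ((m : ℝ) * n) ≤ Fintype.card A := by
    exact_mod_cast h9.trans h10
  have h15 : (2 : ℝ) ^ (r + 1) * n ≤ P.card := by
    calc (2 : ℝ) ^ (r + 1) * n = 2 * ((2 : ℝ) ^ r * n) := by ring
      _ ≤ 2 * ((η * m) * n) := by
          have : (0 : ℝ) ≤ n := Nat.cast_nonneg n
          gcongr
      _ = 2 * (η * (m * n)) := by ring
      _ ≤ 2 * (η * Fintype.card A) := by gcongr
      _ ≤ P.card := h12
  have h16 : 2 ^ (r + 1) * n ≤ P.card := by exact_mod_cast h15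
  apply Lm_lift Y Q (fun i => (hQ i).1) hQne (fun i => (hQ i).2.2.2) hdis (Ld_H D)
  · intro i j hij
    obtain ⟨hne, w, hw⟩ := hij
    rw [Finset.mem_inter] at hw
    obtain ⟨x, hx, y, hy, hxy⟩ := Lm_share s t _ _ hw.1 hw.2
    refine ⟨x, hx, y, hy, ?_⟩
    rcases hxy with hxy | hxy
    · exfalso
      rw [hxy] at hx
      exact Finset.disjoint_left.1 (hdis i j hne) hx hy
    · exact hxy
  · apply mader
    · exact Finset.univ_nonempty
    · rw [Finset.card_univ, Fintype.card_fin]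
      exact h16

end

end Pool.Agent.H64.K4
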