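import Pool.Agent.H64.K4.Defs
import Pool.Agent.H67.CF.Lb

/-!
Module Lp (row K4LP).  The graph of a cubic bipartite graph `(E; s : E → A, t : E → B)` on its left side: `a ~ a'` iff they have a common right neighbour.

`Rg s t g`: every nonempty set `F` of fewer than `g` edges has `|F| < |s(F)| + |t(F)|`.
`pts Y := (univ.filter (fun e => s e ∈ Y)).image t`.
(1) `pts_lower`: `Y` nonempty, `3|Y| < g`: apply `Rg` to `F := {e | s e ∈ Y}`, `|F| = 3|Y|`, `s(F) = Y`.
(2) `pts_upper`: `Y` nonempty connected: `|pts Y| ≤ 2|Y| + 1`: choose a maximal subset `T ⊆ Y`, nonempty, with the inequality (as `nodes_le` in H67/CF/Lb); if `T ≠ Y` there is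
    `a ∈ Y \ T` adjacent to some element of `T`, and `insert a T` has at most two new points.
(3) `pts_small`: if all connected `Z ⊆ Y` have `3|Z| < g`, then `2|Y| ≤ |pts Y|` (as `small_pieces` in H67/CF/Lb: strong induction on `Y`, split off the class `Z` of some
    `a ∈ Y`; `pts Z` and `pts (Y \ Z)` are disjoint, because two elements of `Y` with a common point are adjacent).
(4) `pts_share`: two disjoint nonempty connected sets `Z, Z'` with `3(|Z| + |Z'|) < g` have at most one common point (as `share_le_one`): `pts (Z ∪ Z') = pts Z ∪ pts Z'`.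
(5) `pgr_class`: for `g ≥ 13`, fibres of size 3: `K14`: four neighbours of `v` each share one of its three points with `v`, two share the same point, hence adjacent.
    `Dia`: if `u ~ v` (common point `p`) and `a` is a common neighbour, `a` has the point `p`: otherwise `a` shares `q ≠ p` with `u` and `q' ≠ p` with `v`; (1) for `Y = {u, v, a}`, `3·3 < g`:
    `|pts Y| ≥ 7`; but three vertices with pairwise common points: if `q ≠ q'`, at most `9 - 3 = 6` points; if `q = q'` then `u, v` share `p` and `q`: `|pts {u, v}| ≤ 4 < 5`, contradiction.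
    So `a` is the third vertex at `p` (the fibre of `t` over `p` has 3 elements, and they have different `s`, because `3·1 < g`: `|pts {u}| ≥ 3`).
    Degree: `nb v ⊆` the vertices at the three points of `v`, at most two others at each.
-/

set_option autoImplicit false
set_option linter.all false

namespace Pool.Agent.H64.K4

open Classical Pool.Agent.H67.CF

noncomputable section

variable {E A B : Type}

/-- two left vertices are adjacent iff they have a common right neighbour -/
def pgr (s : E → A) (t : E → B) : SimpleGraph A where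
  Adj a a' := a ≠ a' ∧ ∃ e e', s e = a ∧ s e' = a' ∧ t e = t e'
  symm := ⟨fun _ _ h => ⟨h.1.symm, by
    obtain ⟨e, e', h1, h2, h3⟩ := h.2
    exact ⟨e', e, h2, h1, h3.symm⟩⟩⟩
  loopless := ⟨fun _ h => h.1 rfl⟩

/-- the right neighbours of `Y` -/
def pts [Fintype E] (s : E → A) (t : E → B) (Y : Finset A) : Finset B :=
  (Finset.univ.filter (fun e => s e ∈ Y)).image t

variable [Fintype E] {s : E → A} {t : E → B} {g : ℕ}

theorem Lp_card (hs : ∀ a, (Finset.univ.filter (fun e => s e = a)).card = 3) (Y : Finset A) :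
    (Finset.univ.filter (fun e => s e ∈ Y)).card = 3 * Y.card := by
  have h0 := Finset.card_eq_sum_card_fiberwise (f := s) (s := Finset.univ.filter (fun e => s e ∈ Y))
    (t := Y) (fun x hx => Finset.mem_coe.2 (Finset.mem_filter.1 (Finset.mem_coe.1 hx)).2)
  rw [h0]
  have h1 : ∀ a ∈ Y, ((Finset.univ.filter (fun e => s e ∈ Y)).filter (fun e => s e = a)).card = 3 := by
    intro a ha
    rw [← hs a]
    congr 1
    ext e
    simp only [Finset.mem_filter, Finset.mem_univ, true_and]
    constructor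
    · exact fun h => h.2
    · rintro rfl
      exact ⟨ha, rfl⟩
  rw [Finset.sum_congr rfl h1, Finset.sum_const, smul_eq_mul, mul_comm]

theorem Lp_image (Y : Finset A) :
    ((Finset.univ.filter (fun e => s e ∈ Y)).image s).card ≤ Y.card := by
  apply Finset.card_le_card
  intro a ha
  obtain ⟨e, he, rfl⟩ := Finset.mem_image.1 ha
  exact (Finset.mem_filter.1 he).2

theorem Lp_mem {Y : Finset A} {p : B} : p ∈ pts s t Y ↔ ∃ e, s e ∈ Y ∧ t e = p := by
  simp only [pts, Finset.mem_image, Finset.mem_filter, Finset.mem_univ, true_and]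

theorem Lp_union (Y Z : Finset A) : pts s t (Y ∪ Z) = pts s t Y ∪ pts s t Z := by
  ext p
  simp only [Finset.mem_union, Lp_mem]
  constructor
  · rintro ⟨e, h | h, h'⟩
    · exact Or.inl ⟨e, h, h'⟩
    · exact Or.inr ⟨e, h, h'⟩
  · rintro (⟨e, h, h'⟩ | ⟨e, h, h'⟩)
    · exact ⟨e, Or.inl h, h'⟩
    · exact ⟨e, Or.inr h, h'⟩

theorem Lp_single (hs : ∀ a, (Finset.univ.filter (fun e => s e = a)).card = 3) (a : A) :
    (pts s t {a}).card ≤ 3 := by
  refine Finset.card_image_le.trans ?_
  rw [Lp_card hs, Finset.card_singleton]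

theorem Lp_adj {a a' : A} : (pgr s t).Adj a a' ↔ a ≠ a' ∧ ∃ p, p ∈ pts s t {a} ∧ p ∈ pts s t {a'} := by
  constructor
  · rintro ⟨h, e, e', h1, h2, h3⟩
    exact ⟨h, t e, Lp_mem.2 ⟨e, by simp [h1], rfl⟩, Lp_mem.2 ⟨e', by simp [h2], h3.symm⟩⟩
  · rintro ⟨h, p, h1, h2⟩
    obtain ⟨e, he, he'⟩ := Lp_mem.1 h1
    obtain ⟨f, hf, hf'⟩ := Lp_mem.1 h2
    exact ⟨h, e, f, Finset.mem_singleton.1 he, Finset.mem_singleton.1 hf, he'.trans hf'.symm⟩

theorem pts_lower (hs : ∀ a, (Finset.univ.filter (fun e => s e = a)).card = 3) (hR : Rg s t g)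
    {Y : Finset A} (hY : Y.Nonempty) (hg : 3 * Y.card < g) : 2 * Y.card + 1 ≤ (pts s t Y).card := by
  have h1 := Lp_card hs Y
  have h0 : 0 < Y.card := hY.card_pos
  have hne : (Finset.univ.filter (fun e => s e ∈ Y)).Nonempty := by
    rw [← Finset.card_pos, h1]
    omega
  have h2 := hR _ hne (by rw [h1]; exact hg)
  have h3 := Lp_image (s := s) Y
  have h4 : (pts s t Y).card = ((Finset.univ.filter (fun e => s e ∈ Y)).image t).card := rfl
  omega

theorem pts_upper (hs : ∀ a, (Finset.univ.filter (fun e => s e = a)).card = 3)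
    {Y : Finset A} (hY : Y.Nonempty) (hc : PConn (pgr s t) (Y : Set A)) :
    (pts s t Y).card ≤ 2 * Y.card + 1 := by
  set T := Y.powerset.filter (fun U => U.Nonempty ∧ (pts s t U).card ≤ 2 * U.card + 1) with hT
  have hTn : T.Nonempty := by
    obtain ⟨e, he⟩ := hY
    refine ⟨{e}, ?_⟩
    rw [hT, Finset.mem_filter, Finset.mem_powerset]
    refine ⟨Finset.singleton_subset_iff.2 he, Finset.singleton_nonempty e, ?_⟩
    have := Lp_single (t := t) hs e
    simpa using this
  obtain ⟨U, hU, hmax⟩ := Finset.exists_max_image T Finset.card hTn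
  rw [hT, Finset.mem_filter, Finset.mem_powerset] at hU
  obtain ⟨hUY, ⟨a, ha⟩, hUc⟩ := hU
  by_cases hEq : U = Y
  · rw [← hEq]
    exact hUc
  exfalso
  obtain ⟨b, hbY, hbU⟩ : ∃ b ∈ Y, b ∉ U := by
    by_contra hcon
    push Not at hcon
    exact hEq (Finset.Subset.antisymm hUY hcon)
  have hstep : ∃ e' ∈ U, ∃ e ∈ Y, e ∉ U ∧ (pgr s t).Adj e' e := by
    by_contra hcon
    push Not at hcon
    apply hbU
    refine rch_induct (P := fun x => x ∈ U)
      (hc a (Finset.mem_coe.2 (hUY ha)) b (Finset.mem_coe.2 hbY)) ha ?_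
    intro x y hx _ hxy hy
    by_contra hyU
    exact hcon x hx y (Finset.mem_coe.1 hy) hyU hxy
  obtain ⟨e', he', e, heY, heU, hadj⟩ := hstep
  obtain ⟨-, p, hp1, hp2⟩ := Lp_adj.1 hadj
  have hins : insert e U ∈ T := by
    rw [hT, Finset.mem_filter, Finset.mem_powerset]
    refine ⟨Finset.insert_subset heY hUY, Finset.insert_nonempty e U, ?_⟩
    rw [Finset.card_insert_of_notMem heU, Finset.insert_eq, Lp_union]
    have h1 := Finset.card_union_add_card_inter (pts s t {e}) (pts s t U)
    have h2 := Lp_single (t := t) hs e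
    have h3 : 0 < (pts s t {e} ∩ pts s t U).card := by
      rw [Finset.card_pos]
      refine ⟨p, Finset.mem_inter.2 ⟨hp2, ?_⟩⟩
      obtain ⟨f, hf, hf'⟩ := Lp_mem.1 hp1
      refine Lp_mem.2 ⟨f, ?_, hf'⟩
      rw [Finset.mem_singleton.1 hf]
      exact he'
    omega
  have h3 := hmax _ hins
  rw [Finset.card_insert_of_notMem heU] at h3
  omega

theorem pts_small (hs : ∀ a, (Finset.univ.filter (fun e => s e = a)).card = 3) (hR : Rg s t g)
    (Y : Finset A)
    (hY : ∀ Z : Finset A, Z ⊆ Y → PConn (pgr s t) (Z : Set A) → 3 * Z.card < g) :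
    2 * Y.card ≤ (pts s t Y).card := by
  induction Y using Finset.strongInduction with
  | H Y ih =>
  rcases Y.eq_empty_or_nonempty with h0 | ⟨a, ha⟩
  · rw [h0]
    simp
  set Z := Y.filter (fun z => z ∈ Cls (pgr s t) (Y : Set A) a) with hZ
  have hZY : Z ⊆ Y := Finset.filter_subset _ _
  have hZs : (Z : Set A) = Cls (pgr s t) (Y : Set A) a := by
    ext z
    rw [hZ, Finset.coe_filter]
    constructor
    · exact fun h => h.2
    · exact fun h => ⟨Finset.mem_coe.1 h.1, h⟩
  have haZ : a ∈ Z := by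
    rw [hZ, Finset.mem_filter]
    exact ⟨ha, mem_cls_self (Finset.mem_coe.2 ha)⟩
  have hconn : PConn (pgr s t) (Z : Set A) := by
    rw [hZs]
    exact cls_pconn (Finset.mem_coe.2 ha)
  have h1 := pts_lower hs hR ⟨a, haZ⟩ (hY Z hZY hconn)
  have h2 := ih (Y \ Z) (Finset.sdiff_ssubset hZY ⟨a, haZ⟩)
    (fun W hW hc => hY W (hW.trans Finset.sdiff_subset) hc)
  have hdt : Disjoint (pts s t Z) (pts s t (Y \ Z)) := by
    rw [Finset.disjoint_left]
    intro x hx hx'
    obtain ⟨e, he, he1⟩ := Lp_mem.1 hx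
    obtain ⟨f, hf, hf1⟩ := Lp_mem.1 hx'
    rw [Finset.mem_sdiff] at hf
    apply hf.2
    have he2 : s e ∈ Cls (pgr s t) (Y : Set A) a := by
      rw [← hZs]
      exact Finset.mem_coe.2 he
    have hne : s e ≠ s f := fun h => hf.2 (h ▸ he)
    rw [hZ, Finset.mem_filter]
    exact ⟨hf.1, Finset.mem_coe.2 hf.1, rch_tail he2.2
      ⟨hne, e, f, rfl, rfl, he1.trans hf1.symm⟩ (Finset.mem_coe.2 hf.1)⟩
  have hYu : Y = Z ∪ (Y \ Z) := (Finset.union_sdiff_of_subset hZY).symm
  have et : (pts s t Y).card = (pts s t Z).card + (pts s t (Y \ Z)).card := by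
    conv_lhs => rw [hYu]
    rw [Lp_union, Finset.card_union_of_disjoint hdt]
  have eY : Y.card = Z.card + (Y \ Z).card := by
    conv_lhs => rw [hYu]
    rw [Finset.card_union_of_disjoint Finset.disjoint_sdiff]
  omega

theorem pts_share (hs : ∀ a, (Finset.univ.filter (fun e => s e = a)).card = 3) (hR : Rg s t g)
    {Z Z' : Finset A} (hZ : Z.Nonempty) (hZ' : Z'.Nonempty) (hc : PConn (pgr s t) (Z : Set A))
    (hc' : PConn (pgr s t) (Z' : Set A)) (hdis : Disjoint Z Z')
    (hg : 3 * (Z.card + Z'.card) < g) : (pts s t Z ∩ pts s t Z').card ≤ 1 := by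
  have h1 : (Z ∪ Z').card = Z.card + Z'.card := Finset.card_union_of_disjoint hdis
  have h2 := pts_lower hs hR (hZ.mono Finset.subset_union_left) (by rw [h1]; exact hg)
  rw [h1, Lp_union] at h2
  have h3 := Finset.card_union_add_card_inter (pts s t Z) (pts s t Z')
  have h5 := pts_upper hs hZ hc
  have h6 := pts_upper hs hZ' hc'
  omega

theorem Lp_two (hs : ∀ a, (Finset.univ.filter (fun e => s e = a)).card = 3) (hR : Rg s t g)
    (hg : 13 ≤ g) {u v : A} (huv : u ≠ v) {p q : B} (h1 : p ∈ pts s t {u}) (h2 : p ∈ pts s t {v})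
    (h3 : q ∈ pts s t {u}) (h4 : q ∈ pts s t {v}) : p = q := by
  by_contra hne
  have h5 := pts_lower hs hR (Y := {u} ∪ {v}) ⟨u, by simp⟩ (by
    have := Finset.card_union_le ({u} : Finset A) {v}
    simp only [Finset.card_singleton] at this
    omega)
  rw [Lp_union, Finset.card_union_of_disjoint (by simpa using huv)] at h5
  simp only [Finset.card_singleton] at h5
  have h6 := Finset.card_union_add_card_inter (pts s t {u}) (pts s t {v})
  have h7 := Lp_single (t := t) hs u
  have h8 := Lp_single (t := t) hs v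
  have h9 : ({p, q} : Finset B).card ≤ (pts s t {u} ∩ pts s t {v}).card := by
    apply Finset.card_le_card
    intro x hx
    rcases Finset.mem_insert.1 hx with rfl | hx
    · exact Finset.mem_inter.2 ⟨h1, h2⟩
    · rw [Finset.mem_singleton.1 hx]
      exact Finset.mem_inter.2 ⟨h3, h4⟩
  rw [Finset.card_pair hne] at h9
  omega

theorem Lp_third (hs : ∀ a, (Finset.univ.filter (fun e => s e = a)).card = 3) (hR : Rg s t g)
    (hg : 13 ≤ g) {u v a : A} (huv : u ≠ v) (hua : (pgr s t).Adj u a) (hva : (pgr s t).Adj v a)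
    {p : B} (h1 : p ∈ pts s t {u}) (h2 : p ∈ pts s t {v}) : p ∈ pts s t {a} := by
  by_contra hpa
  obtain ⟨hua', q, hq1, hq2⟩ := Lp_adj.1 hua
  obtain ⟨hva', r, hr1, hr2⟩ := Lp_adj.1 hva
  have hqr : q ≠ r := by
    rintro rfl
    have := Lp_two hs hR hg huv h1 h2 hq1 hr1
    exact hpa (this ▸ hq2)
  have hc3 : (({u} ∪ {v}) ∪ {a} : Finset A).card = 3 := by
    rw [Finset.card_union_of_disjoint, Finset.card_union_of_disjoint]
    · simp
    · simpa using huv
    · rw [Finset.disjoint_singleton_right]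
      simp only [Finset.mem_union, Finset.mem_singleton]
      rintro (h | h)
      · exact hua' h.symm
      · exact hva' h.symm
  have h5 := pts_lower hs hR (Y := ({u} ∪ {v}) ∪ {a}) ⟨a, by simp⟩ (by omega)
  rw [hc3, Lp_union, Lp_union] at h5
  have h6 := Finset.card_union_add_card_inter (pts s t {u}) (pts s t {v})
  have h6' := Finset.card_union_add_card_inter (pts s t {u} ∪ pts s t {v}) (pts s t {a})
  have h7 := Lp_single (t := t) hs u
  have h8 := Lp_single (t := t) hs v
  have h8' := Lp_single (t := t) hs a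
  have h9 : 0 < (pts s t {u} ∩ pts s t {v}).card :=
    Finset.card_pos.2 ⟨p, Finset.mem_inter.2 ⟨h1, h2⟩⟩
  have h10 : ({q, r} : Finset B).card ≤ ((pts s t {u} ∪ pts s t {v}) ∩ pts s t {a}).card := by
    apply Finset.card_le_card
    intro x hx
    rcases Finset.mem_insert.1 hx with rfl | hx
    · exact Finset.mem_inter.2 ⟨Finset.mem_union_left _ hq1, hq2⟩
    · rw [Finset.mem_singleton.1 hx]
      exact Finset.mem_inter.2 ⟨Finset.mem_union_right _ hr1, hr2⟩
  rw [Finset.card_pair hqr] at h10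
  omega

theorem pgr_class [Fintype A] (hs : ∀ a, (Finset.univ.filter (fun e => s e = a)).card = 3)
    (ht : ∀ b, (Finset.univ.filter (fun e => t e = b)).card = 3) (hR : Rg s t g) (hg : 13 ≤ g) :
    K14 (pgr s t) ∧ Dia (pgr s t) ∧ ∀ a, (nb (pgr s t) a).card ≤ 6 := by
  refine ⟨?_, ?_, ?_⟩
  · intro v a b c e ha hb hc he hab hac hae hbc hbe hce
    obtain ⟨-, pa, va, pa'⟩ := Lp_adj.1 ha
    obtain ⟨-, pb, vb, pb'⟩ := Lp_adj.1 hb
    obtain ⟨-, pc, vc, pc'⟩ := Lp_adj.1 hc
    obtain ⟨-, pe, ve, pe'⟩ := Lp_adj.1 he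
    by_contra hcon
    push Not at hcon
    obtain ⟨n1, n2, n3, n4, n5, n6⟩ := hcon
    have m1 : pa ≠ pb := fun h => n1 (Lp_adj.2 ⟨hab, pa, pa', h ▸ pb'⟩)
    have m2 : pa ≠ pc := fun h => n2 (Lp_adj.2 ⟨hac, pa, pa', h ▸ pc'⟩)
    have m3 : pa ≠ pe := fun h => n3 (Lp_adj.2 ⟨hae, pa, pa', h ▸ pe'⟩)
    have m4 : pb ≠ pc := fun h => n4 (Lp_adj.2 ⟨hbc, pb, pb', h ▸ pc'⟩)
    have m5 : pb ≠ pe := fun h => n5 (Lp_adj.2 ⟨hbe, pb, pb', h ▸ pe'⟩)
    have m6 : pc ≠ pe := fun h => n6 (Lp_adj.2 ⟨hce, pc, pc', h ▸ pe'⟩)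
    have h1 : ({pa, pb, pc, pe} : Finset B) ⊆ pts s t {v} := by
      intro x hx
      simp only [Finset.mem_insert, Finset.mem_singleton] at hx
      rcases hx with rfl | rfl | rfl | rfl
      · exact va
      · exact vb
      · exact vc
      · exact ve
    have h2 := Finset.card_le_card h1
    have h3 : ({pa, pb, pc, pe} : Finset B).card = 4 := by
      rw [Finset.card_insert_of_notMem, Finset.card_insert_of_notMem, Finset.card_pair m6]
      · simp [m4, m5]
      · simp [m1, m2, m3]
    have h4 := Lp_single (t := t) hs v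
    omega
  · intro u v a b huv hua hva hub hvb
    obtain ⟨huv', p, hp1, hp2⟩ := Lp_adj.1 huv
    have hpa := Lp_third hs hR hg huv' hua hva hp1 hp2
    have hpb := Lp_third hs hR hg huv' hub hvb hp1 hp2
    by_contra hab
    obtain ⟨eu, hu, hu'⟩ := Lp_mem.1 hp1
    obtain ⟨ev, hv, hv'⟩ := Lp_mem.1 hp2
    obtain ⟨ea, ha, ha'⟩ := Lp_mem.1 hpa
    obtain ⟨eb, hb, hb'⟩ := Lp_mem.1 hpb
    rw [Finset.mem_singleton] at hu hv ha hb
    have h1 : ({u, v, a, b} : Finset A) ⊆ (Finset.univ.filter (fun e => t e = p)).image s := by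
      intro x hx
      simp only [Finset.mem_insert, Finset.mem_singleton] at hx
      rw [Finset.mem_image]
      rcases hx with rfl | rfl | rfl | rfl
      · exact ⟨eu, by simp [hu'], hu⟩
      · exact ⟨ev, by simp [hv'], hv⟩
      · exact ⟨ea, by simp [ha'], ha⟩
      · exact ⟨eb, by simp [hb'], hb⟩
    have h2 := (Finset.card_le_card h1).trans Finset.card_image_le
    rw [ht p] at h2
    have h3 : ({u, v, a, b} : Finset A).card = 4 := by
      rw [Finset.card_insert_of_notMem, Finset.card_insert_of_notMem, Finset.card_pair hab]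
      · simp [hva.ne, hvb.ne]
      · simp [huv', hua.ne, hub.ne]
    omega
  · intro v
    have hsub : nb (pgr s t) v ⊆ (pts s t {v}).biUnion
        (fun p => ((Finset.univ.filter (fun e => t e = p)).image s).erase v) := by
      intro w hw
      rw [mem_nb] at hw
      obtain ⟨hne, p, h1, h2⟩ := Lp_adj.1 hw
      rw [Finset.mem_biUnion]
      refine ⟨p, h1, Finset.mem_erase.2 ⟨hne.symm, ?_⟩⟩
      obtain ⟨e, he, he'⟩ := Lp_mem.1 h2
      exact Finset.mem_image.2 ⟨e, by simp [he'], Finset.mem_singleton.1 he⟩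
    refine (Finset.card_le_card hsub).trans ?_
    refine (Finset.card_biUnion_le_card_mul _ _ 2 ?_).trans ?_
    · intro p hp
      obtain ⟨e, he, he'⟩ := Lp_mem.1 hp
      rw [Finset.card_erase_of_mem (Finset.mem_image.2 ⟨e, by simp [he'], Finset.mem_singleton.1 he⟩)]
      have := Finset.card_image_le (s := Finset.univ.filter (fun e => t e = p)) (f := s)
      rw [ht p] at this
      omega
    · have := Lp_single (t := t) hs v
      omega

end

end Pool.Agent.H64.K4
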