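import Pool.Agent.H64.K4.Lm
import Pool.Agent.H67.CF.Cv
import Pool.Agent.H67.CF.Sd

/-!
Module Ls (row K4LS).  The lower bounds for `d = 6`.  As H67/CF/Fl (`transport`, `cf_low`, `mu_low`); use only the STATEMENTS of Lp, Lm, Cv.

(1) transport: `cover 3 3` with a large `g`, `n := Fintype.card A`, `|E| = 3|A| = 3|B|`, so `|B| = |A|`; replace `A` by `Fin n` (`Fintype.equivFin`): `s' := equivFin A ∘ s`; `Rg s' t g`, fibres of size 3.
    `n ≥ g / 3`: otherwise `pts_lower` with `Y := univ` gives `2|A| + 1 ≤ |B| = |A|`.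
(2) `cf_low6`: suppose `c < 1/2`, `ε := (1/2 - c)/2`, `C`; `g := 3C + 13`; `G := pgr s' t` on `Fin n` is in the class; `Y := Sᶜ` has pieces of size `≤ C`, so
    `2|Y| ≤ |pts Y| ≤ |B| = n` (`pts_small`); `|S| ≥ n/2`, contradiction (`n > 0`).
(3) `mu_low6`: as `mu_low`, with `low_model6`: `|Y| ≥ n - (μ + ε) n = (1/2 + ε) n`, `2|Y| ≥ |B| + 2 ε |A|`, `η := 2 ε`.
-/

set_option autoImplicit false
set_option linter.all false

namespace Pool.Agent.H64.K4

open Classical Pool.Agent.H67.CF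

noncomputable section

theorem Ls_Rg {E A B A' : Type} {s : E → A} {t : E → B} {g : ℕ} (h : Rg s t g)
    (εA : A ≃ A') : Rg (fun e => εA (s e)) t g := by
  intro Y hY hYg
  have h1 := h Y hY hYg
  have e1 : (Y.image fun e => εA (s e)).card = (Y.image s).card := by
    rw [← Finset.card_image_of_injective (Y.image s) εA.injective, Finset.image_image]
    rfl
  rw [e1]
  exact h1

/-- all fibres have three elements -/
def Ls_F3 {E A : Type} [Fintype E] (s : E → A) : Prop :=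
  ∀ a, (Finset.univ.filter (fun e => s e = a)).card = 3

theorem Ls_fib {E A A' : Type} [Fintype E] {s : E → A} (hs : Ls_F3 s) (εA : A ≃ A') :
    Ls_F3 (fun e => εA (s e)) := by
  intro a
  rw [← hs (εA.symm a)]
  congr 1
  ext e
  rw [Finset.mem_filter, Finset.mem_filter, Equiv.eq_symm_apply]

theorem Ls_tr (g : ℕ) :
    ∃ (E B : Type) (_ : Fintype E) (_ : Fintype B) (n : ℕ) (s : E → Fin n) (t : E → B),
      1 ≤ n ∧ g ≤ 3 * n ∧ Fintype.card B = n ∧
      Ls_F3 s ∧ Ls_F3 t ∧ Rg s t g := by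
  obtain ⟨E, A, B, iE, iA, iB, hne, s0, t0, hs, ht, hR⟩ :=
    cover 3 3 (by omega) (by omega) g
  have hpos : 1 ≤ Fintype.card E := Fintype.card_pos
  have cA := fibre_card hs
  have cB := fibre_card ht
  have hAB : Fintype.card B = Fintype.card A := by omega
  have hs' : Ls_F3 (fun e => Fintype.equivFin A (s0 e)) := Ls_fib hs _
  refine ⟨E, B, iE, iB, Fintype.card A, fun e => Fintype.equivFin A (s0 e), t0, by omega, ?_, hAB,
    hs', ht, Ls_Rg hR _⟩
  by_contra hlt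
  haveI : Nonempty A := hne.map s0
  have h1 := pts_lower hs hR (Y := Finset.univ) Finset.univ_nonempty (by
    rw [Finset.card_univ]; omega)
  have h2 := Finset.card_le_univ (pts s0 t0 (Finset.univ : Finset A))
  rw [Finset.card_univ] at h1
  omega

theorem cf_low6 {c : ℝ} (hc : c ∈ cfSet (fun _ G => K14 G ∧ Dia G) 6) : 1 / 2 ≤ c := by
  by_contra hlt
  rw [not_le] at hlt
  set ε : ℝ := (1 / 2 - c) / 2 with hε
  have hεp : 0 < ε := by rw [hε]; linarith
  obtain ⟨C, hC⟩ := hc ε hεp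
  obtain ⟨E, B, iE, iB, n, s, t, hn, hgn, hB, hs, ht, hR⟩ := Ls_tr (3 * C + 13)
  obtain ⟨hK, hD, hdeg⟩ := pgr_class hs ht hR (by omega)
  obtain ⟨S, hS, hT⟩ := hC n (pgr s t) ⟨hK, hD⟩ fun v => by
    rw [← nb_card]
    exact hdeg v
  have h1 := pts_small hs hR Sᶜ (by
    intro Z hZ hconn
    rcases Z.eq_empty_or_nonempty with rfl | hZne
    · simp
    · have h2 := hT (Z : Set (Fin n)) (by
        rw [Finset.disjoint_coe]
        exact Finset.disjoint_left.2 fun x hx hxS => (Finset.mem_compl.1 (hZ hx)) hxS)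
        (connected_iff.2 ⟨hZne, hconn⟩)
      rw [Set.ncard_coe_finset] at h2
      omega)
  have h3 := Finset.card_le_univ (pts s t (Sᶜ : Finset (Fin n)))
  rw [hB] at h3
  have h4 := h1.trans h3
  rw [Finset.card_compl, Fintype.card_fin] at h4
  have h5 : n ≤ 2 * S.card := by omega
  have h6 : (n : ℝ) ≤ 2 * S.card := by exact_mod_cast h5
  have hn' : (0 : ℝ) < n := by exact_mod_cast hn
  have h7 : (n : ℝ) * ε ≤ 0 := by
    have : c = 1 / 2 - 2 * ε := by rw [hε]; ring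
    rw [this] at hS
    nlinarith
  have h8 := mul_pos hn' hεp
  linarith

theorem mu_low6 {r : ℕ} {μ : ℝ} (hμ : μ ∈ muSet (fun _ G => K14 G ∧ Dia G) r 6) : 1 / 2 ≤ μ := by
  by_contra hlt
  rw [not_le] at hlt
  set ε : ℝ := (1 / 2 - μ) / 2 with hε
  have hεp : 0 < ε := by rw [hε]; linarith
  obtain ⟨N, hN⟩ := hμ ε hεp
  obtain ⟨m0, hm0⟩ := exists_nat_ge ((2 : ℝ) ^ r / (2 * ε))
  have hηp : 0 < 2 * ε := by linarith
  have hmη : (2 : ℝ) ^ r ≤ 2 * ε * ((m0 + 1 : ℕ) : ℝ) := by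
    rw [div_le_iff₀ hηp] at hm0
    push_cast
    nlinarith
  obtain ⟨E, B, iE, iB, n, s, t, hn, hgn, hB, hs, ht, hR⟩ :=
    Ls_tr (3 * N + 6 * ((6 + 1) * (m0 + 1) ^ 2) + 13)
  obtain ⟨hK, hD, hdeg⟩ := pgr_class hs ht hR (by omega)
  obtain ⟨S, hS, hno⟩ := hN n (by omega) (pgr s t) ⟨hK, hD⟩ fun v => by
    rw [← nb_card]
    exact hdeg v
  haveI : Nonempty (Fin n) := ⟨⟨0, hn⟩⟩
  have hY : (Fintype.card B : ℝ) + 2 * ε * Fintype.card (Fin n) ≤
      2 * ((Sᶜ : Finset (Fin n)).card : ℝ) := by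
    rw [Finset.card_compl, Fintype.card_fin, hB]
    have h1 : S.card ≤ n := by
      have := Finset.card_le_univ S
      rwa [Fintype.card_fin] at this
    rw [Nat.cast_sub h1]
    have : μ = 1 / 2 - 2 * ε := by rw [hε]; ring
    rw [this] at hS
    nlinarith
  obtain ⟨f, hf1, hf2, hf3⟩ := low_model6 (m := m0 + 1) (r := r) hs hdeg hR (by omega)
    (by omega) hηp hmη Sᶜ hY
  refine hno ⟨f, fun i => ?_, fun i => ?_, hf2, hf3⟩
  · rw [Set.disjoint_left]
    intro x hx hxS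
    have := (hf1 i).1 hx
    rw [Finset.mem_coe, Finset.mem_compl] at this
    exact this (Finset.mem_coe.1 hxS)
  · exact connected_iff.2 (hf1 i).2

end

end Pool.Agent.H64.K4
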