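import Pool.Agent.H64.K4.Defs

/-!
Module Mr (row K4MR).  Adding one vertex in every region raises the order of the complete minors by at most one.
Only the basic lemmas of H67/CF/Defs are needed (`Rch`, `PConn`, `Model`, `Cls`, ...).

(1) `model_sdiff`: from a model of `K_(r+1)` in `T` drop the branch set containing `x` (or any one): a model of `K_r` in `T \ {x}`.
(2) `model_sep`: let `C` have at most one element, and let all edges from `X` go to `X ∪ C`, `X` and `C` disjoint.  A model of `K_r`, `r ≥ 3`, in `T` gives a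
    model in `T ∩ (X ∪ C)` or in `T \ X`.  Proof: call a branch set good for `X` if it is contained in `X`, and good for the outside if it is contained in
    `(X ∪ C)ᶜ`; a branch set which contains no element of `C` is good for one of the two (connected, no edges from `X` to `(X ∪ C)ᶜ`), and at most one
    branch set meets `C`.  Two branch sets of different kinds are not adjacent.  As `r ≥ 3` and all pairs are adjacent, all branch sets not meeting
    `C` (at least two) are of the same kind.  If they are inside `X`: the possible exceptional branch set `B j ∋ c` is replaced by `B j ∩ (X ∪ C)`: it is still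
    connected (a walk in `B j` from `c` to a point of `X`, after its last visit to `c`, stays in `X`; or: a walk between two points of `B j ∩ (X ∪ C)`
    can leave `X ∪ C` only through `c` and must come back through `c`), and still adjacent to all others (the others are inside `X`, the neighbours of `X` are in `X ∪ C`).
    If they are outside: replace `B j` by `B j \ X`, connected for the same reason, adjacency: the others are outside `X ∪ C`, and have no neighbour in `X`.
(3) `model_regions`: induction on `B`.  `B = ∅`: a model of `K_(r+1)` in `F` gives one of `K_r` in `F`.  `insert X B`: apply (2) with the set `C` of `Reg.cut X`: a model in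
    `T ∩ (X ∪ C)`, where `T = F ∪ image x`: this set without `x X` is contained in `F` (the other `x Y` lie in `Y`, disjoint from `X` and from `C`), so by (1) `F` has a model of `K_r`;
    or a model in `T \ X ⊆ F ∪ image x B`: induction.
-/

set_option autoImplicit false
set_option linter.all false

namespace Pool.Agent.H64.K4

open Classical Pool.Agent.H67.CF

noncomputable section

theorem Mr_mono {V : Type} {G : SimpleGraph V} {r : ℕ} {S T : Set V} (h : Model G r S)
    (hST : S ⊆ T) : Model G r T := by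
  obtain ⟨f, h1, h2, h3⟩ := h
  exact ⟨f, fun i => ⟨(h1 i).1.trans hST, (h1 i).2⟩, h2, h3⟩

theorem model_sdiff {V : Type} {G : SimpleGraph V} {r : ℕ} {T : Set V} (x : V)
    (h : Model G (r + 1) T) : Model G r (T \ {x}) := by
  obtain ⟨f, h1, h2, h3⟩ := h
  have h0 : ∃ j0 : Fin (r + 1), ∀ j, j ≠ j0 → x ∉ f j := by
    by_cases hx : ∃ j, x ∈ f j
    · obtain ⟨j0, hj0⟩ := hx
      exact ⟨j0, fun j hj hxj => Set.disjoint_left.1 (h2 j j0 hj) hxj hj0⟩
    · push Not at hx
      exact ⟨0, fun j _ => hx j⟩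
  obtain ⟨j0, hj0⟩ := h0
  refine ⟨fun i => f (j0.succAbove i), fun i => ⟨?_, (h1 _).2⟩, ?_, ?_⟩
  · intro y hy
    refine ⟨(h1 _).1 hy, ?_⟩
    rintro rfl
    exact hj0 _ (Fin.succAbove_ne j0 i) hy
  · intro i j hij
    exact h2 _ _ (fun h => hij (Fin.succAbove_right_injective h))
  · intro i j hij
    exact h3 _ _ (fun h => hij (Fin.succAbove_right_injective h))

theorem Mr_conn {V : Type} {G : SimpleGraph V} {Z Y : Set V} {C : Finset V} (hC : C.card ≤ 1)
    (hZ : PConn G Z) (hY : ∀ z ∈ Y, ∀ w, w ∉ Y → G.Adj z w → z ∈ C) : PConn G (Z ∩ Y) := by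
  intro a ha b hb
  have key : (b ∈ Y ∧ Rch G (Z ∩ Y) a b) ∨ (b ∉ Y ∧ ∃ c ∈ C, Rch G (Z ∩ Y) a c) := by
    refine rch_induct (P := fun b => (b ∈ Y ∧ Rch G (Z ∩ Y) a b) ∨
      (b ∉ Y ∧ ∃ c ∈ C, Rch G (Z ∩ Y) a c)) (hZ a ha.1 b hb.1) (Or.inl ⟨ha.2, rch_refl⟩) ?_
    intro z w hz _ hzw hw
    rcases hz with ⟨hzY, hz⟩ | ⟨hzY, c, hc, hz⟩
    · by_cases hwY : w ∈ Y
      · exact Or.inl ⟨hwY, rch_tail hz hzw ⟨hw, hwY⟩⟩
      · exact Or.inr ⟨hwY, z, hY z hzY w hwY hzw, hz⟩
    · by_cases hwY : w ∈ Y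
      · have hwC := hY w hwY z hzY hzw.symm
        have hwc : w = c := Finset.card_le_one.1 hC w hwC c hc
        rw [hwc]
        exact Or.inl ⟨hwc ▸ hwY, hz⟩
      · exact Or.inr ⟨hwY, c, hc, hz⟩
  rcases key with h | h
  · exact h.2
  · exact absurd hb.2 h.1

theorem Mr_cut {V : Type} {G : SimpleGraph V} {r : ℕ} {T Y : Set V} {C : Finset V}
    (hC : C.card ≤ 1) (hY : ∀ z ∈ Y, ∀ w, w ∉ Y → G.Adj z w → z ∈ C) (f : Fin r → Set V)
    (h1 : ∀ i, f i ⊆ T ∧ (f i).Nonempty ∧ PConn G (f i))
    (h2 : ∀ i j, i ≠ j → Disjoint (f i) (f j))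
    (h3 : ∀ i j, i ≠ j → ∃ u ∈ f i, ∃ v ∈ f j, G.Adj u v) (j0 j1 : Fin r) (hj : j1 ≠ j0)
    (hfC : ∀ j, j ≠ j0 → ∀ c ∈ f j, c ∉ C) (hfY : ∀ j, j ≠ j0 → f j ⊆ Y) :
    Model G r (T ∩ Y) := by
  have hadj : ∀ i j, i ≠ j → ∃ u ∈ f i ∩ Y, ∃ v ∈ f j ∩ Y, G.Adj u v := by
    intro i j hij
    obtain ⟨u, hu, v, hv, huv⟩ := h3 i j hij
    refine ⟨u, ⟨hu, ?_⟩, v, ⟨hv, ?_⟩, huv⟩
    · by_cases hi : i = j0
      · by_contra huY
        have hj' : j ≠ j0 := fun h => hij (hi.trans h.symm)
        exact hfC j hj' v hv (hY v (hfY j hj' hv) u huY huv.symm)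
      · exact hfY i hi hu
    · by_cases hj' : j = j0
      · by_contra hvY
        have hi : i ≠ j0 := fun h => hij (h.trans hj'.symm)
        exact hfC i hi u hu (hY u (hfY i hi hu) v hvY huv)
      · exact hfY j hj' hv
  refine ⟨fun i => f i ∩ Y, fun i => ⟨?_, ?_, ?_⟩, ?_, hadj⟩
  · exact fun y hy => ⟨(h1 i).1 hy.1, hy.2⟩
  · by_cases hi : i = j0
    · obtain ⟨u, hu, -⟩ := hadj i j1 (fun h => hj (h.symm.trans hi))
      exact ⟨u, hu⟩
    · obtain ⟨u, hu⟩ := (h1 i).2.1
      exact ⟨u, hu, hfY i hi hu⟩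
  · exact Mr_conn hC (h1 i).2.2 hY
  · intro i j hij
    exact (h2 i j hij).mono Set.inter_subset_left Set.inter_subset_left

theorem model_sep {V : Type} {G : SimpleGraph V} {r : ℕ} (hr : 3 ≤ r) {T X : Set V} {C : Finset V}
    (hC : C.card ≤ 1) (hXC : Disjoint X (C : Set V))
    (hcut : ∀ u ∈ X, ∀ w, G.Adj u w → w ∈ X ∨ w ∈ C) (h : Model G r T) :
    Model G r (T ∩ (X ∪ (C : Set V))) ∨ Model G r (T \ X) := by
  obtain ⟨f, h1, h2, h3⟩ := h
  have h0 : ∃ j0 : Fin r, ∀ j, j ≠ j0 → ∀ c ∈ f j, c ∉ C := by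
    by_cases hx : ∃ j, ∃ c ∈ f j, c ∈ C
    · obtain ⟨j0, c0, hc0, hc0C⟩ := hx
      refine ⟨j0, fun j hj c hc hcC => ?_⟩
      have hcc : c = c0 := Finset.card_le_one.1 hC c hcC c0 hc0C
      rw [hcc] at hc
      exact Set.disjoint_left.1 (h2 j j0 hj) hc hc0
    · push Not at hx
      exact ⟨⟨0, by omega⟩, fun j _ => hx j⟩
  obtain ⟨j0, hj0⟩ := h0
  obtain ⟨j1, hj1⟩ : ∃ j1 : Fin r, j1 ≠ j0 := by
    by_cases h : j0 = ⟨0, by omega⟩
    · refine ⟨⟨1, by omega⟩, ?_⟩
      rw [h]
      intro h'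
      exact absurd (Fin.mk.inj_iff.1 h') (by omega)
    · exact ⟨⟨0, by omega⟩, Ne.symm h⟩
  have hin : ∀ j, j ≠ j0 → (∃ u ∈ f j, u ∈ X) → f j ⊆ X := by
    rintro j hj ⟨u, hu, huX⟩ w hw
    refine rch_induct (P := fun w => w ∈ X) ((h1 j).2.2 u hu w hw) huX ?_
    intro z w hz _ hzw hw
    rcases hcut z hz w hzw with h | h
    · exact h
    · exact absurd h (hj0 j hj w hw)
  by_cases hX : ∃ u ∈ f j1, u ∈ X
  · left
    have hall : ∀ j, j ≠ j0 → f j ⊆ X := by
      intro j hj
      by_cases hjj : j = j1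
      · rw [hjj]
        exact hin j1 hj1 hX
      · obtain ⟨u, hu, v, hv, huv⟩ := h3 j1 j (Ne.symm hjj)
        refine hin j hj ⟨v, hv, ?_⟩
        rcases hcut u (hin j1 hj1 hX hu) v huv with h | h
        · exact h
        · exact absurd h (hj0 j hj v hv)
    refine Mr_cut hC ?_ f h1 h2 h3 j0 j1 hj1 hj0 (fun j hj => (hall j hj).trans Set.subset_union_left)
    intro z hz w hw hzw
    rcases hz with hz | hz
    · exfalso
      apply hw
      rcases hcut z hz w hzw with h | h
      · exact Or.inl h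
      · exact Or.inr h
    · exact hz
  · right
    have hall : ∀ j, j ≠ j0 → f j ⊆ Xᶜ := by
      intro j hj
      by_cases hjj : j = j1
      · rw [hjj]
        exact fun u hu huX => hX ⟨u, hu, huX⟩
      · intro w hw hwX
        obtain ⟨u, hu, v, hv, huv⟩ := h3 j1 j (Ne.symm hjj)
        have hv' := hin j hj ⟨w, hw, hwX⟩ hv
        rcases hcut v hv' u huv.symm with h | h
        · exact hX ⟨u, hu, h⟩
        · exact hj0 j1 hj1 u hu h
    have h := Mr_cut (Y := Xᶜ) hC ?_ f h1 h2 h3 j0 j1 hj1 hj0 hall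
    · exact h
    · intro z hz w hw hzw
      have hw' : w ∈ X := by
        by_contra h
        exact hw h
      rcases hcut w hw' z hzw.symm with h | h
      · exact absurd h hz
      · exact h

theorem Mr_reg {V : Type} {G : SimpleGraph V} {B B' : Finset (Finset V)} {x : Finset V → V}
    (h : Reg G B x) (hB : B' ⊆ B) : Reg G B' x where
  disj X hX Y hY := h.disj X (hB hX) Y (hB hY)
  mem X hX := h.mem X (hB hX)
  cut X hX := by
    obtain ⟨C, h1, h2, h3⟩ := h.cut X (hB hX)
    exact ⟨C, h1, fun Y hY => h2 Y (hB hY), h3⟩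

theorem model_regions {V : Type} [Fintype V] {G : SimpleGraph V} {F : Finset V}
    {B : Finset (Finset V)} {x : Finset V → V} (hR : Reg G B x) {r : ℕ} (hr : 2 ≤ r)
    (hF : ¬ Model G r (F : Set V)) : ¬ Model G (r + 1) ((F ∪ B.image x : Finset V) : Set V) := by
  induction B using Finset.induction_on with
  | empty =>
    intro h
    have hne : ∃ y : V, True := by
      obtain ⟨f, h1, -, -⟩ := h
      obtain ⟨y, -⟩ := (h1 0).2.1
      exact ⟨y, trivial⟩
    obtain ⟨y, -⟩ := hne
    refine hF (Mr_mono (model_sdiff y h) ?_)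
    rintro t ⟨ht, -⟩
    simpa using ht
  | insert X B hXB ih =>
    intro h
    have hXm : X ∈ insert X B := Finset.mem_insert_self _ _
    obtain ⟨C, hC, hCd, hcut⟩ := hR.cut X hXm
    have hXC : Disjoint ((X : Finset V) : Set V) (C : Set V) := by
      have := hCd X hXm
      rw [Finset.disjoint_coe]
      exact this.symm
    have hsplit : ∀ t : V, t ∈ ((F ∪ (insert X B).image x : Finset V) : Set V) →
        t ∈ F ∨ t = x X ∨ ∃ Y ∈ B, t = x Y := by
      intro t ht
      rw [Finset.mem_coe, Finset.mem_union, Finset.mem_image] at ht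
      rcases ht with ht | ⟨Y, hY, rfl⟩
      · exact Or.inl ht
      · rcases Finset.mem_insert.1 hY with rfl | hY
        · exact Or.inr (Or.inl rfl)
        · exact Or.inr (Or.inr ⟨Y, hY, rfl⟩)
    rcases model_sep (X := ((X : Finset V) : Set V)) (by omega) hC hXC
      (fun u hu w huw => by
        rcases hcut u (Finset.mem_coe.1 hu) w huw with h | h
        · exact Or.inl (Finset.mem_coe.2 h)
        · exact Or.inr h) h with h | h
    · refine hF (Mr_mono (model_sdiff (x X) h) ?_)
      rintro t ⟨⟨ht, htXC⟩, htx⟩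
      rcases hsplit t ht with h | h | ⟨Y, hY, rfl⟩
      · exact Finset.mem_coe.2 h
      · exact absurd h htx
      · exfalso
        have hYm : Y ∈ insert X B := Finset.mem_insert_of_mem hY
        have hYX : X ≠ Y := fun h => hXB (h ▸ hY)
        have hmem := hR.mem Y hYm
        rcases htXC with h | h
        · exact Finset.disjoint_left.1 (hR.disj X hXm Y hYm hYX) (Finset.mem_coe.1 h) hmem
        · exact Finset.disjoint_left.1 (hCd Y hYm) (Finset.mem_coe.1 h) hmem
    · refine ih (Mr_reg hR (Finset.subset_insert _ _)) (Mr_mono h ?_)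
      rintro t ⟨ht, htX⟩
      rw [Finset.mem_coe, Finset.mem_union, Finset.mem_image]
      rcases hsplit t ht with h | h | ⟨Y, hY, rfl⟩
      · exact Or.inl h
      · exfalso
        apply htX
        rw [h]
        exact Finset.mem_coe.2 (hR.mem X hXm)
      · exact Or.inr ⟨Y, hY, rfl⟩

end

end Pool.Agent.H64.K4
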