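import Mathlib

/-!
Module Pl (row K4PL).  The functional digraph lemma: levels for a map of a finite set into itself.  No graph, only Mathlib.

Iterate `par`: every `v ∈ F` ends in a root (`par w = w`) or in a cycle of length `≥ 2`.  The basin of a cycle = the set of `v ∈ F` which end in it; basins are disjoint.
`X0` = one element of each cycle whose basin has more than `m` elements: `m |X0| ≤ |F|`.  `sm v` := `v` ends in a cycle (of length `≥ 2`) whose basin has at most `m` elements.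
`lev v := 0` if `sm v` (or `v ∉ F`); otherwise, for `v ∈ F \ X0`: the smallest `n` such that `par^[n] v` is a root or `par (par^[n] v) ∈ X0`
(it exists: the iteration of `v` reaches a root, or it reaches the cycle, and then, going around it, the element of `X0` on it).
A possible formalisation: `v ≈ w` iff `∃ i j, par^[i] v = par^[j] w` (an equivalence relation; its classes in `F` are the basins and the trees of the roots); for a class `c`
without root (all `par v ≠ v`) pick a periodic element `e c` of the class (`Function.IsPeriodicPt`; for instance `par^[|F|!]` or `par^[n * k]`, or: finite set + `par` maps `F` to `F`);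
`X0 := image of e over the classes without root with more than m elements`.
-/

set_option autoImplicit false
set_option linter.all false

namespace Pool.Agent.H64.K4

open Classical

noncomputable section

private def Pl_R {V : Type} (par : V → V) (z v : V) : Prop := ∃ i j, par^[i] z = par^[j] v

private theorem Pl_R_symm {V : Type} {par : V → V} {a b : V} (h : Pl_R par a b) : Pl_R par b a := by
  obtain ⟨i, j, h⟩ := h
  exact ⟨j, i, h.symm⟩

private theorem Pl_R_trans {V : Type} {par : V → V} {a b c : V} (h : Pl_R par a b)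
    (h' : Pl_R par b c) : Pl_R par a c := by
  obtain ⟨i, j, h⟩ := h
  obtain ⟨k, l, h'⟩ := h'
  refine ⟨k + i, j + l, ?_⟩
  rw [Function.iterate_add_apply, h, ← Function.iterate_add_apply, Nat.add_comm k j,
    Function.iterate_add_apply, h', ← Function.iterate_add_apply]

private def Pl_root {V : Type} (par : V → V) (v : V) : Prop := ∃ n, par (par^[n] v) = par^[n] v

private theorem Pl_fix {V : Type} {par : V → V} {r : V} (h : par r = r) (n : ℕ) :
    par^[n] r = r := Function.iterate_fixed h n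

private theorem Pl_root_R {V : Type} {par : V → V} {a b : V} (h : Pl_R par a b)
    (hb : Pl_root par b) : Pl_root par a := by
  obtain ⟨i, j, h⟩ := h
  obtain ⟨n, hn⟩ := hb
  have e : par^[n + i] a = par^[n] b := by
    rw [Function.iterate_add_apply, h, ← Function.iterate_add_apply, Nat.add_comm n j,
      Function.iterate_add_apply, Pl_fix hn]
  exact ⟨n + i, by rw [e, hn]⟩

private theorem Pl_R_iter {V : Type} (par : V → V) (v : V) (n : ℕ) : Pl_R par (par^[n] v) v :=
  ⟨0, n, rfl⟩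

/-- The class. -/
private def Pl_C {V : Type} (F : Finset V) (par : V → V) (v : V) : Finset V :=
  F.filter (fun z => Pl_R par z v)

private theorem Pl_C_eq {V : Type} {F : Finset V} {par : V → V} {v w : V} (h : Pl_R par v w) :
    Pl_C F par v = Pl_C F par w := by
  ext z
  simp only [Pl_C, Finset.mem_filter]
  constructor
  · rintro ⟨h1, h2⟩
    exact ⟨h1, Pl_R_trans h2 h⟩
  · rintro ⟨h1, h2⟩
    exact ⟨h1, Pl_R_trans h2 (Pl_R_symm h)⟩

private theorem Pl_per {V : Type} [Fintype V] {F : Finset V} {par : V → V}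
    (hpar : ∀ v ∈ F, par v ∈ F) {v : V} (hv : v ∈ F) :
    ∃ p ∈ F, ∀ z ∈ Pl_C F par v, ∃ n, par^[n + 1] z = p := by
  obtain ⟨i, j, hij, he⟩ := Finite.exists_ne_map_eq_of_infinite (fun n : ℕ => par^[n] v)
  wlog hlt : i < j generalizing i j
  · exact this j i (Ne.symm hij) he.symm (lt_of_le_of_ne (not_lt.1 hlt) (Ne.symm hij))
  obtain ⟨k, rfl⟩ := Nat.exists_eq_add_of_lt hlt
  have hF : ∀ n, par^[n] v ∈ F := by
    intro n
    induction n with
    | zero => exact hv
    | succ n ih =>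
      rw [Function.iterate_succ_apply']
      exact hpar _ ih
  have hp : par^[k + 1] (par^[i] v) = par^[i] v := by
    rw [← Function.iterate_add_apply, he]
    congr 1
    omega
  have hpk : ∀ c : ℕ, par^[(k + 1) * c] (par^[i] v) = par^[i] v := by
    intro c
    rw [Function.iterate_mul]
    exact Function.iterate_fixed hp c
  refine ⟨par^[i] v, hF i, fun z hz => ?_⟩
  obtain ⟨-, a, b, hab⟩ := (Finset.mem_filter.1 hz)
  refine ⟨(k * b + k) + (i + a), ?_⟩
  have e : (k * b + k) + (i + a) + 1 = ((k * b + k + 1) + i) + a := by ring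
  have e3 : ((k * b + k + 1) + i) + b = (k + 1) * (b + 1) + i := by ring
  rw [e, Function.iterate_add_apply par ((k * b + k + 1) + i) a, hab,
    ← Function.iterate_add_apply, e3, Function.iterate_add_apply]
  exact hpk _

/-- (A): a map of a finite set into itself -/
theorem par_lev {V : Type} [Fintype V] (F : Finset V) (par : V → V) (hpar : ∀ v ∈ F, par v ∈ F)
    {m : ℕ} (hm : 1 ≤ m) :
    ∃ (X0 : Finset V) (lev : V → ℕ) (sm : V → Prop), X0 ⊆ F ∧ m * X0.card ≤ F.card ∧
      (∀ v ∈ X0, ¬ sm v ∧ par v ≠ v) ∧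
      (∀ v ∈ F, sm v ↔ sm (par v)) ∧ (∀ v ∈ F, sm v → lev v = 0 ∧ par v ≠ v) ∧
      (∀ v ∈ F, v ∉ X0 → 1 ≤ lev v → par v ∉ X0 ∧ par v ≠ v ∧ lev (par v) + 1 = lev v) ∧
      (∀ v ∈ F, v ∉ X0 → lev v = 0 → sm v ∨ par v = v ∨ par v ∈ X0) ∧
      (∀ v ∈ F, sm v → (F.filter (fun z => sm z ∧ ∃ i j, par^[i] z = par^[j] v)).card ≤ m) := by
  rcases isEmpty_or_nonempty V with hV | hV
  · refine ⟨∅, fun _ => 0, fun _ => False, Finset.empty_subset _, by simp, fun v => isEmptyElim v,
      fun v => isEmptyElim v, fun v => isEmptyElim v, fun v => isEmptyElim v,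
      fun v => isEmptyElim v, fun v => isEmptyElim v⟩
  have H : ∀ c : Finset V, (∃ v ∈ F, c = Pl_C F par v) →
      ∃ p, p ∈ F ∧ ∀ z ∈ c, ∃ n, par^[n + 1] z = p := by
    rintro c ⟨v, hv, rfl⟩
    obtain ⟨p, hp, h⟩ := Pl_per hpar hv
    exact ⟨p, hp, h⟩
  choose! e he using H
  have heF : ∀ v ∈ F, e (Pl_C F par v) ∈ F := fun v hv => (he _ ⟨v, hv, rfl⟩).1
  have hself : ∀ v ∈ F, v ∈ Pl_C F par v := fun v hv => Finset.mem_filter.2 ⟨hv, ⟨0, 0, rfl⟩⟩
  have hen : ∀ v ∈ F, ∃ n, par^[n + 1] v = e (Pl_C F par v) :=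
    fun v hv => (he _ ⟨v, hv, rfl⟩).2 v (hself v hv)
  obtain ⟨big, hbig⟩ : ∃ big : V → Prop, big = fun v =>
    ¬ Pl_root par v ∧ m < (Pl_C F par v).card := ⟨_, rfl⟩
  obtain ⟨X0, hX0⟩ : ∃ X0 : Finset V, X0 = (F.filter big).image (fun v => e (Pl_C F par v)) :=
    ⟨_, rfl⟩
  have hX : ∀ x ∈ X0, ∃ w ∈ F, big w ∧ x = e (Pl_C F par w) ∧ Pl_R par x w := by
    intro x hx
    rw [hX0, Finset.mem_image] at hx
    obtain ⟨w, hw, rfl⟩ := hx
    obtain ⟨hwF, hwb⟩ := Finset.mem_filter.1 hw
    obtain ⟨n, hn⟩ := hen w hwF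
    exact ⟨w, hwF, hwb, rfl, by rw [← hn]; exact Pl_R_iter par w (n + 1)⟩
  obtain ⟨sm, hsm⟩ : ∃ sm : V → Prop, sm = fun v =>
    ¬ Pl_root par v ∧ (Pl_C F par v).card ≤ m := ⟨_, rfl⟩
  have hstop : ∀ v ∈ F, ¬ sm v → ∃ n, par (par^[n] v) = par^[n] v ∨ par (par^[n] v) ∈ X0 := by
    intro v hv hs
    by_cases hr : Pl_root par v
    · obtain ⟨n, hn⟩ := hr
      exact ⟨n, Or.inl hn⟩
    · have hb : big v := by
        rw [hbig]
        rw [hsm] at hs
        exact ⟨hr, not_le.1 (fun h => hs ⟨hr, h⟩)⟩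
      obtain ⟨n, hn⟩ := hen v hv
      refine ⟨n, Or.inr ?_⟩
      rw [← Function.iterate_succ_apply' par n v]
      rw [hX0, Finset.mem_image]
      exact ⟨v, Finset.mem_filter.2 ⟨hv, hb⟩, hn.symm⟩
  have hsmpar : ∀ v, sm v ↔ sm (par v) := by
    intro v
    have h1 : Pl_R par (par v) v := Pl_R_iter par v 1
    rw [hsm]
    simp only
    rw [Pl_C_eq (F := F) h1]
    constructor
    · rintro ⟨h2, h3⟩
      exact ⟨fun h4 => h2 (Pl_root_R (Pl_R_symm h1) h4), h3⟩
    · rintro ⟨h2, h3⟩
      exact ⟨fun h4 => h2 (Pl_root_R h1 h4), h3⟩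
  refine ⟨X0, fun v => if sm v then 0 else
      if h : ∃ n, par (par^[n] v) = par^[n] v ∨ par (par^[n] v) ∈ X0 then Nat.find h else 0, sm,
      ?_, ?_, ?_, fun v _ => hsmpar v, ?_, ?_, ?_, ?_⟩
  · intro x hx
    obtain ⟨w, hw, -, rfl, -⟩ := hX x hx
    exact heF w hw
  · rw [hX0]
    refine (Finset.mul_card_image_le_card (F.filter big) m ?_).trans
      (Finset.card_le_card (Finset.filter_subset _ _))
    intro x hx
    obtain ⟨w, hw, rfl⟩ := Finset.mem_image.1 hx
    obtain ⟨hwF, hwb⟩ := Finset.mem_filter.1 hw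
    rw [hbig] at hwb
    refine hwb.2.le.trans (Finset.card_le_card ?_)
    intro z hz
    obtain ⟨hzF, hzR⟩ := Finset.mem_filter.1 hz
    have hC : Pl_C F par z = Pl_C F par w := Pl_C_eq hzR
    rw [Finset.mem_filter, Finset.mem_filter]
    refine ⟨⟨hzF, ?_⟩, by rw [hC]⟩
    rw [hbig]
    refine ⟨fun h => hwb.1 (Pl_root_R (Pl_R_symm hzR) h), ?_⟩
    rw [hC]
    exact hwb.2
  · intro v hv
    obtain ⟨w, hw, hwb, -, hR⟩ := hX v hv
    rw [hbig] at hwb
    constructor
    · rw [hsm]
      rintro ⟨-, h⟩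
      rw [Pl_C_eq (F := F) hR] at h
      exact absurd hwb.2 (not_lt.2 h)
    · intro h
      exact hwb.1 (Pl_root_R (Pl_R_symm hR) ⟨0, h⟩)
  · intro v _ hs
    refine ⟨if_pos hs, fun h => ?_⟩
    rw [hsm] at hs
    exact hs.1 ⟨0, h⟩
  · intro v hv hvX hl
    by_cases hs : sm v
    · simp only [if_pos hs] at hl
      omega
    have h := hstop v hv hs
    have hs' : ¬ sm (par v) := fun h1 => hs ((hsmpar v).2 h1)
    simp only [if_neg hs, if_neg hs'] at hl ⊢
    rw [dif_pos h] at hl
    have h0 : ¬ (par (par^[0] v) = par^[0] v ∨ par (par^[0] v) ∈ X0) := by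
      intro h1
      have := (Nat.find_eq_zero h).2 h1
      omega
    have h' : ∃ n, par (par^[n] (par v)) = par^[n] (par v) ∨ par (par^[n] (par v)) ∈ X0 :=
      hstop (par v) (hpar v hv) hs'
    rw [dif_pos h, dif_pos h']
    refine ⟨fun h1 => h0 (Or.inr h1), fun h1 => h0 (Or.inl h1), ?_⟩
    have h2 : ∃ n, par (par^[n + 1] v) = par^[n + 1] v ∨ par (par^[n + 1] v) ∈ X0 := h'
    have h3 := Nat.find_comp_succ h h2 h0
    rw [h3]
    rfl
  · intro v hv hvX hl
    by_cases hs : sm v
    · exact Or.inl hs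
    have h := hstop v hv hs
    simp only [if_neg hs] at hl
    rw [dif_pos h] at hl
    exact Or.inr ((Nat.find_eq_zero h).1 hl)
  · intro v hv hs
    rw [hsm] at hs
    refine (Finset.card_le_card ?_).trans hs.2
    intro z hz
    obtain ⟨h1, -, h3⟩ := Finset.mem_filter.1 hz
    exact Finset.mem_filter.2 ⟨h1, h3⟩

end

end Pool.Agent.H64.K4
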