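import Pool.Agent.H64.K4.Defs
import Pool.Agent.H64.K4.Pl
import Pool.Agent.H67.CF.La

/-!
Module Of (row K4OF).  A set `F` in which every vertex owns two of its three nodes can be cut into bounded pieces by deleting `2|F|/m` vertices.

For `v ∈ F` let `t v` be the third node (`f v \ own v = {t v}`), and `par v := w` if some `w ∈ F`, `w ≠ v`, owns `t v` (then `w` is unique, and `v ~ w`), otherwise
`par v := v` (`v` is a root).  If `u, v ∈ F` are adjacent they share a node `p`; `p` is owned by at most one of them; so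
  `par v = u`, or `par u = v`, or `p = t u = t v`: then either some `w ∈ F` owns `p` and `par u = par v = w`, or nobody owns `p` and both are roots, `t u = t v`.
`par` maps `F` to `F`.  (A) FUNCTIONAL DIGRAPH LEMMA `par_lev` (module Pl; use only its statement): iterate `par`; every `v ∈ F` ends in a root or in a cycle (of length ≥ 2).
  The basin of a cycle = the set of `v ∈ F` which end in it.  Basins are disjoint.  `X0` = one element of each cycle whose basin has more than `m` elements: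
  `m |X0| ≤ |F|`.  `sm v` := `v` ends in a cycle whose basin has at most `m` elements, and `lev v := 0` for these.  For the others `lev v :=` the smallest `n` such
  that `par^[n] v` is a root or `par (par^[n] v) ∈ X0` (for `v ∈ F \ X0`).
(B) Then `layer` (H67/CF/La) is applied to `X := F \ X0`, `lev`, `par`, `R := m + 3`:
  `hlev`: by the four kinds of adjacency (in a small basin all levels are 0 and adjacency does not leave the basin).
  `hR`: `x0` in a small basin: the row set is contained in the basin, `≤ m` elements.  Otherwise the row set is contained in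
     `{z | t z = t x0}` (at most `mult f (t x0) ≤ 3` elements): along a walk through vertices of level `≥ lev x0` starting at `x0` the vertex
     `anc v := par^[lev v - lev x0] v` satisfies `lev (anc v) = lev x0`, `t (anc v) = t x0` (induction, `rch_induct`; if `lev v = lev x0` and the next vertex `u` has the
     same level then `t u = t v`, because `par u = v` or `par v = u` would change the level by one, or make both of level 0 in a small basin).
     (Roots of level 0: adjacent roots share their third node.  A vertex of level 0 whose parent is in `X0`: an adjacent vertex of level 0 not owned by/owning it has the same third node too.)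
  The conclusion of `layer` gives `X' ⊆ X`, `m |X| ≤ m |X'| + |X|`, pieces of size `≤ (d+1)^m (m+3)`.
-/

set_option autoImplicit false
set_option linter.all false

namespace Pool.Agent.H64.K4

open Classical Pool.Agent.H67.CF

noncomputable section

/-- the third node -/
theorem Of_third {V N : Type} {f : V → Finset N} (h3 : ∀ v, (f v).card = 3) {F : Finset V}
    {own : V → Finset N} (hown : Own f F own) :
    ∃ t : V → N, ∀ v, t v ∈ f v ∧ (v ∈ F → t v ∉ own v ∧ ∀ p ∈ f v, p ∉ own v → p = t v) := by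
  have h : ∀ v, ∃ t : N, t ∈ f v ∧ (v ∈ F → t ∉ own v ∧ ∀ p ∈ f v, p ∉ own v → p = t) := by
    intro v
    by_cases hv : v ∈ F
    · have h1 : (f v \ own v).card = 1 := by
        rw [Finset.card_sdiff_of_subset (hown.sub v hv), h3 v, hown.card2 v hv]
      obtain ⟨t, ht⟩ := Finset.card_eq_one.1 h1
      have ht1 : t ∈ f v \ own v := by rw [ht]; exact Finset.mem_singleton_self t
      rw [Finset.mem_sdiff] at ht1
      refine ⟨t, ht1.1, fun _ => ⟨ht1.2, fun p hp hpo => ?_⟩⟩
      have hp1 : p ∈ f v \ own v := Finset.mem_sdiff.2 ⟨hp, hpo⟩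
      rw [ht, Finset.mem_singleton] at hp1
      exact hp1
    · have h1 : (f v).Nonempty := by
        rw [← Finset.card_pos, h3 v]
        norm_num
      obtain ⟨t, ht⟩ := h1
      exact ⟨t, ht, fun h => absurd h hv⟩
  choose t ht using h
  exact ⟨t, ht⟩

/-- the parent function -/
theorem Of_par {V N : Type} (F : Finset V) (own : V → Finset N) (t : V → N) :
    ∃ par : V → V, ∀ v, (par v ∈ F ∧ par v ≠ v ∧ t v ∈ own (par v)) ∨
      (par v = v ∧ ∀ w ∈ F, w ≠ v → t v ∉ own w) := by
  have h : ∀ v, ∃ p : V, (p ∈ F ∧ p ≠ v ∧ t v ∈ own p) ∨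
      (p = v ∧ ∀ w ∈ F, w ≠ v → t v ∉ own w) := by
    intro v
    by_cases hv : ∃ w ∈ F, w ≠ v ∧ t v ∈ own w
    · obtain ⟨w, h1, h2, h3⟩ := hv
      exact ⟨w, Or.inl ⟨h1, h2, h3⟩⟩
    · push Not at hv
      exact ⟨v, Or.inr ⟨rfl, hv⟩⟩
  choose par hpar using h
  exact ⟨par, hpar⟩

/-- the row sets are small -/
theorem Of_rows {V N : Type} {G : SimpleGraph V} {F X0 : Finset V} {t : V → N} {par : V → V}
    {lev : V → ℕ} {sm : V → Prop}
    (H1 : ∀ v ∈ F, par v ∈ F)
    (H3 : ∀ u ∈ F, ∀ v ∈ F, G.Adj u v → par v = u ∨ par u = v ∨ t u = t v)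
    (H4 : ∀ u ∈ F, ∀ v ∈ F, t u = t v → (par u = u ∧ par v = v) ∨ par u = par v)
    (hsm : ∀ v ∈ F, sm v ↔ sm (par v)) (hsm0 : ∀ v ∈ F, sm v → lev v = 0 ∧ par v ≠ v)
    (hl1 : ∀ v ∈ F, v ∉ X0 → 1 ≤ lev v → par v ∉ X0 ∧ par v ≠ v ∧ lev (par v) + 1 = lev v)
    (hl0 : ∀ v ∈ F, v ∉ X0 → lev v = 0 → sm v ∨ par v = v ∨ par v ∈ X0)
    {x0 z : V} (hx0 : x0 ∈ F \ X0) (hns : ¬ sm x0)
    (hz : Rch G {v | v ∈ F \ X0 ∧ lev x0 ≤ lev v} x0 z) :
    z ∈ F \ X0 ∧ ¬ sm z ∧ lev x0 ≤ lev z ∧ t (par^[lev z - lev x0] z) = t x0 := by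
  refine rch_induct (P := fun z => z ∈ F \ X0 ∧ ¬ sm z ∧ lev x0 ≤ lev z ∧
    t (par^[lev z - lev x0] z) = t x0) hz ⟨hx0, hns, le_rfl, by rw [Nat.sub_self]; rfl⟩ ?_
  rintro x y ⟨hx, hxs, hxl, hxt⟩ - hxy ⟨hy, hyl⟩
  have hne : x ≠ y := hxy.ne
  obtain ⟨hxF, hx0'⟩ := Finset.mem_sdiff.1 hx
  obtain ⟨hyF, hy0'⟩ := Finset.mem_sdiff.1 hy
  -- the case where the parent of `y` is `x`
  have key1 : par y = x → ¬ sm y ∧ t (par^[lev y - lev x0] y) = t x0 := by
    intro h
    have hys : ¬ sm y := fun h' => hxs (by rw [← h]; exact (hsm y hyF).1 h')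
    refine ⟨hys, ?_⟩
    rcases Nat.eq_zero_or_pos (lev y) with h0 | h0
    · rcases hl0 y hyF hy0' h0 with h' | h' | h'
      · exact absurd h' hys
      · exact absurd (h.symm.trans h') hne
      · rw [h] at h'
        exact absurd h' hx0'
    · obtain ⟨_, _, h3⟩ := hl1 y hyF hy0' h0
      rw [h] at h3
      have h4 : lev y - lev x0 = (lev x - lev x0) + 1 := by omega
      rw [h4, Function.iterate_succ_apply, h]
      exact hxt
  -- the case where the parent of `x` is `y`
  have key2 : par x = y → ¬ sm y ∧ t (par^[lev y - lev x0] y) = t x0 := by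
    intro h
    have hys : ¬ sm y := fun h' => hxs ((hsm x hxF).2 (by rw [h]; exact h'))
    refine ⟨hys, ?_⟩
    rcases Nat.eq_zero_or_pos (lev x) with h0 | h0
    · rcases hl0 x hxF hx0' h0 with h' | h' | h'
      · exact absurd h' hxs
      · exact absurd (h'.symm.trans h) hne
      · rw [h] at h'
        exact absurd h' hy0'
    · obtain ⟨_, _, h3⟩ := hl1 x hxF hx0' h0
      rw [h] at h3
      have h4 : lev x - lev x0 = (lev y - lev x0) + 1 := by omega
      rw [h4, Function.iterate_succ_apply, h] at hxt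
      exact hxt
  suffices h : ¬ sm y ∧ t (par^[lev y - lev x0] y) = t x0 from ⟨hy, h.1, hyl, h.2⟩
  rcases H3 x hxF y hyF hxy with h | h | h
  · exact key1 h
  · exact key2 h
  rcases H4 x hxF y hyF h with ⟨h1, h2⟩ | h1
  · -- two roots
    have hys : ¬ sm y := fun h' => (hsm0 y hyF h').2 h2
    refine ⟨hys, ?_⟩
    have hlx : lev x = 0 := by
      by_contra h'
      exact (hl1 x hxF hx0' (by omega)).2.1 h1
    have hly : lev y = 0 := by
      by_contra h'
      exact (hl1 y hyF hy0' (by omega)).2.1 h2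
    have e1 : lev x - lev x0 = 0 := by omega
    have e2 : lev y - lev x0 = 0 := by omega
    rw [e1] at hxt
    rw [e2]
    exact h.symm.trans hxt
  · have hys : ¬ sm y := by
      intro h'
      apply hxs
      rw [hsm x hxF, h1]
      exact (hsm y hyF).1 h'
    rcases Nat.eq_zero_or_pos (lev x) with hx1 | hx1
    · rcases Nat.eq_zero_or_pos (lev y) with hy1 | hy1
      · refine ⟨hys, ?_⟩
        have e1 : lev x - lev x0 = 0 := by omega
        have e2 : lev y - lev x0 = 0 := by omega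
        rw [e1] at hxt
        rw [e2]
        exact h.symm.trans hxt
      · rcases hl0 x hxF hx0' hx1 with h' | h' | h'
        · exact absurd h' hxs
        · exact key1 (h1.symm.trans h')
        · rw [h1] at h'
          exact absurd h' (hl1 y hyF hy0' hy1).1
    · rcases Nat.eq_zero_or_pos (lev y) with hy1 | hy1
      · rcases hl0 y hyF hy0' hy1 with h' | h' | h'
        · exact absurd h' hys
        · exact key2 (h1.trans h')
        · rw [← h1] at h'
          exact absurd h' (hl1 x hxF hx0' hx1).1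
      · refine ⟨hys, ?_⟩
        have e3 := (hl1 x hxF hx0' hx1).2.2
        have e4 := (hl1 y hyF hy0' hy1).2.2
        rw [h1] at e3
        have e5 : lev x = lev y := by omega
        rcases Nat.eq_zero_or_pos (lev x - lev x0) with e6 | e6
        · have e7 : lev y - lev x0 = 0 := by omega
          rw [e6] at hxt
          rw [e7]
          exact h.symm.trans hxt
        · obtain ⟨n, hn⟩ : ∃ n, lev x - lev x0 = n + 1 := ⟨lev x - lev x0 - 1, by omega⟩
          have hn' : lev y - lev x0 = n + 1 := by omega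
          rw [hn, Function.iterate_succ_apply, h1] at hxt
          rw [hn', Function.iterate_succ_apply]
          exact hxt

/-- a walk starting in a small basin stays in it -/
theorem Of_small {V N : Type} {G : SimpleGraph V} {F X0 : Finset V} {t : V → N} {par : V → V}
    {lev : V → ℕ} {sm : V → Prop}
    (H3 : ∀ u ∈ F, ∀ v ∈ F, G.Adj u v → par v = u ∨ par u = v ∨ t u = t v)
    (H4 : ∀ u ∈ F, ∀ v ∈ F, t u = t v → (par u = u ∧ par v = v) ∨ par u = par v)
    (hsm : ∀ v ∈ F, sm v ↔ sm (par v)) (hsm0 : ∀ v ∈ F, sm v → lev v = 0 ∧ par v ≠ v)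
    {x0 z : V} (hx0 : x0 ∈ F \ X0) (hs : sm x0)
    (hz : Rch G {v | v ∈ F \ X0 ∧ lev x0 ≤ lev v} x0 z) :
    z ∈ F \ X0 ∧ sm z ∧ ∃ i j, par^[i] z = par^[j] x0 := by
  refine rch_induct (P := fun z => z ∈ F \ X0 ∧ sm z ∧ ∃ i j, par^[i] z = par^[j] x0) hz
    ⟨hx0, hs, 0, 0, rfl⟩ ?_
  rintro x y ⟨hx, hxs, i, j, hij⟩ - hxy ⟨hy, -⟩
  obtain ⟨hxF, hx0'⟩ := Finset.mem_sdiff.1 hx
  obtain ⟨hyF, hy0'⟩ := Finset.mem_sdiff.1 hy
  refine ⟨hy, ?_⟩
  rcases H3 x hxF y hyF hxy with h | h | h
  · refine ⟨(hsm y hyF).2 (by rw [h]; exact hxs), i + 1, j, ?_⟩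
    rw [Function.iterate_succ_apply, h, hij]
  · refine ⟨by rw [← h]; exact (hsm x hxF).1 hxs, i, j + 1, ?_⟩
    rw [← h, ← Function.iterate_succ_apply, Function.iterate_succ_apply', hij,
      Function.iterate_succ_apply']
  · rcases H4 x hxF y hyF h with ⟨h1, h2⟩ | h1
    · exact absurd h1 (hsm0 x hxF hxs).2
    · refine ⟨(hsm y hyF).2 (by rw [← h1]; exact (hsm x hxF).1 hxs), i + 1, j + 1, ?_⟩
      rw [Function.iterate_succ_apply, ← h1, ← Function.iterate_succ_apply,
        Function.iterate_succ_apply', hij, Function.iterate_succ_apply']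

/-- levels of adjacent vertices -/
theorem Of_lev {V N : Type} {G : SimpleGraph V} {F X0 : Finset V} {t : V → N} {par : V → V}
    {lev : V → ℕ} {sm : V → Prop}
    (H3 : ∀ u ∈ F, ∀ v ∈ F, G.Adj u v → par v = u ∨ par u = v ∨ t u = t v)
    (H4 : ∀ u ∈ F, ∀ v ∈ F, t u = t v → (par u = u ∧ par v = v) ∨ par u = par v)
    (hsm : ∀ v ∈ F, sm v ↔ sm (par v)) (hsm0 : ∀ v ∈ F, sm v → lev v = 0 ∧ par v ≠ v)
    (hl1 : ∀ v ∈ F, v ∉ X0 → 1 ≤ lev v → par v ∉ X0 ∧ par v ≠ v ∧ lev (par v) + 1 = lev v)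
    (hl0 : ∀ v ∈ F, v ∉ X0 → lev v = 0 → sm v ∨ par v = v ∨ par v ∈ X0)
    {u v : V} (hu : u ∈ F \ X0) (hv : v ∈ F \ X0) (huv : G.Adj u v) : lev v ≤ lev u + 1 := by
  obtain ⟨huF, hu0⟩ := Finset.mem_sdiff.1 hu
  obtain ⟨hvF, hv0⟩ := Finset.mem_sdiff.1 hv
  rcases Nat.eq_zero_or_pos (lev v) with hv1 | hv1
  · omega
  obtain ⟨a1, a2, a3⟩ := hl1 v hvF hv0 hv1
  rcases H3 u huF v hvF huv with h | h | h
  · rw [h] at a3
    omega
  · rcases Nat.eq_zero_or_pos (lev u) with hu1 | hu1
    · rcases hl0 u huF hu0 hu1 with h' | h' | h'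
      · have h2 : sm v := by rw [← h]; exact (hsm u huF).1 h'
        have h3 := (hsm0 v hvF h2).1
        omega
      · exact absurd (h'.symm.trans h) huv.ne
      · rw [h] at h'
        exact absurd h' hv0
    · have h3 := (hl1 u huF hu0 hu1).2.2
      rw [h] at h3
      omega
  · rcases H4 u huF v hvF h with ⟨h1, h2⟩ | h1
    · exact absurd h2 a2
    · rcases Nat.eq_zero_or_pos (lev u) with hu1 | hu1
      · rcases hl0 u huF hu0 hu1 with h' | h' | h'
        · have h2 : sm v := by
            rw [hsm v hvF, ← h1]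
            exact (hsm u huF).1 h'
          have h3 := (hsm0 v hvF h2).1
          omega
        · rw [← h1, h'] at a3
          omega
        · rw [h1] at h'
          exact absurd h' a1
      · have h3 := (hl1 u huF hu0 hu1).2.2
        rw [h1] at h3
        omega

theorem own_frag {V N : Type} [Fintype V] {G : SimpleGraph V} {f : V → Finset N} {d : ℕ}
    (h3 : ∀ v, (f v).card = 3) (hadj : ∀ u v, G.Adj u v ↔ u ≠ v ∧ ∃ p, p ∈ f u ∧ p ∈ f v)
    (hm3 : ∀ p, mult f p ≤ 3)
    (hdeg : ∀ v, (nb G v).card ≤ d) {F : Finset V} {own : V → Finset N} (hown : Own f F own)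
    {m : ℕ} (hm : 1 ≤ m) :
    ∃ F1 : Finset V, F1 ⊆ F ∧ m * F.card ≤ m * F1.card + 2 * F.card ∧
      ∀ Z : Finset V, Z ⊆ F1 → PConn G (Z : Set V) → Z.card ≤ (d + 1) ^ m * (m + 3) := by
  obtain ⟨t, ht⟩ := Of_third h3 hown
  obtain ⟨par, hpar⟩ := Of_par F own t
  have hdj : ∀ u ∈ F, ∀ v ∈ F, ∀ p, p ∈ own u → p ∈ own v → u = v := by
    intro u hu v hv p hpu hpv
    by_contra hne
    exact (Finset.disjoint_left.1 (hown.disj u hu v hv hne)) hpu hpv
  have H1 : ∀ v ∈ F, par v ∈ F := by
    intro v hv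
    rcases hpar v with h | h
    · exact h.1
    · rw [h.1]; exact hv
  have H2 : ∀ v ∈ F, par v ≠ v → G.Adj v (par v) := by
    intro v hv hne
    rcases hpar v with h | h
    · rw [hadj]
      exact ⟨hne.symm, t v, (ht v).1, hown.sub _ h.1 h.2.2⟩
    · exact absurd h.1 hne
  have H0 : ∀ v ∈ F, ∀ w ∈ F, t v ∈ own w → par v = w := by
    intro v hv w hw h
    have hwv : w ≠ v := by
      rintro rfl
      exact ((ht w).2 hw).1 h
    rcases hpar v with h' | h'
    · exact hdj _ h'.1 _ hw _ h'.2.2 h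
    · exact absurd h (h'.2 w hw hwv)
  have H3 : ∀ u ∈ F, ∀ v ∈ F, G.Adj u v → par v = u ∨ par u = v ∨ t u = t v := by
    intro u hu v hv huv
    obtain ⟨hne, p, hpu, hpv⟩ := (hadj u v).1 huv
    by_cases h1 : p ∈ own u
    · have h2 : p ∉ own v := fun h => hne (hdj u hu v hv p h1 h)
      have h3' := ((ht v).2 hv).2 p hpv h2
      exact Or.inl (H0 v hv u hu (by rw [← h3']; exact h1))
    · have h3' := ((ht u).2 hu).2 p hpu h1
      by_cases h2 : p ∈ own v
      · exact Or.inr (Or.inl (H0 u hu v hv (by rw [← h3']; exact h2)))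
      · have h4 := ((ht v).2 hv).2 p hpv h2
        exact Or.inr (Or.inr (h3'.symm.trans h4))
  have H4 : ∀ u ∈ F, ∀ v ∈ F, t u = t v → (par u = u ∧ par v = v) ∨ par u = par v := by
    intro u hu v hv h
    rcases hpar u with h1 | h1
    · exact Or.inr (H0 v hv _ h1.1 (by rw [← h]; exact h1.2.2)).symm
    · rcases hpar v with h2 | h2
      · exact Or.inr (H0 u hu _ h2.1 (by rw [h]; exact h2.2.2))
      · exact Or.inl ⟨h1.1, h2.1⟩
  obtain ⟨X0, lev, sm, hX0F, hX0c, hX0, hsm, hsm0, hl1, hl0, hbas⟩ := par_lev F par H1 hm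
  obtain ⟨X', hX'X, -, hX'c, hX'⟩ := layer (G := G) hdeg (F \ X0) lev par
    (by
      intro v hv h
      obtain ⟨hvF, hv0⟩ := Finset.mem_sdiff.1 hv
      obtain ⟨h1, h2, h3'⟩ := hl1 v hvF hv0 h
      exact ⟨Finset.mem_sdiff.2 ⟨H1 v hvF, h1⟩, H2 v hvF h2, h3'⟩)
    (fun u hu v hv huv => Of_lev H3 H4 hsm hsm0 hl1 hl0 hu hv huv) (m + 3)
    (by
      intro x0 hx0
      obtain ⟨hxF, hx0'⟩ := Finset.mem_sdiff.1 hx0
      by_cases hs : sm x0
      · refine le_trans (Finset.card_le_card ?_) ((hbas x0 hxF hs).trans (Nat.le_add_right m 3))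
        intro z hz
        rw [Finset.mem_filter] at hz
        obtain ⟨h1, h2, h4⟩ := Of_small H3 H4 hsm hsm0 hx0 hs hz.2.2
        rw [Finset.mem_filter]
        exact ⟨(Finset.mem_sdiff.1 h1).1, h2, h4⟩
      · refine le_trans (Finset.card_le_card ?_) ((hm3 (t x0)).trans (Nat.le_add_left 3 m))
        intro z hz
        rw [Finset.mem_filter] at hz
        obtain ⟨h1, h2, h4, h5⟩ := Of_rows H1 H3 H4 hsm hsm0 hl1 hl0 hx0 hs hz.2.2
        rw [Finset.mem_filter]
        refine ⟨Finset.mem_univ z, ?_⟩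
        have e : lev z - lev x0 = 0 := by have := hz.2.1; omega
        rw [e] at h5
        have h6 : t z = t x0 := h5
        rw [← h6]
        exact (ht z).1)
    hm
  refine ⟨X', hX'X.trans Finset.sdiff_subset, ?_, hX'⟩
  have e1 : (F \ X0).card + X0.card = F.card := Finset.card_sdiff_add_card_eq_card hX0F
  have e2 : m * F.card = m * (F \ X0).card + m * X0.card := by rw [← mul_add, e1]
  omega

end

end Pool.Agent.H64.K4
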