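import Pool.Agent.H64.K4.Defs
import Pool.Agent.H67.CF.Tr

/-!
Module Om (row K4OM).  A set `F` of vertices in which every vertex owns two of its three nodes contains no model of `K_r`, `r ≥ d + 2`, `r ≥ 4`.
-/

set_option autoImplicit false
set_option linter.all false

namespace Pool.Agent.H64.K4

open Classical Pool.Agent.H67.CF

noncomputable section

/-- a connected set has at least `|S| - 1` edges -/
theorem Om_edges {V : Type} {G : SimpleGraph V} (S : Finset V) (hne : S.Nonempty)
    (hc : PConn G (S : Set V)) : 2 * S.card ≤ (∑ v ∈ S, (S.filter (fun w => G.Adj v w)).card) + 2 := by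
  have hcon : (G.induce (S : Set V)).Connected := connected_iff.2 ⟨Finset.coe_nonempty.2 hne, hc⟩
  have h1 := hcon.card_vert_le_card_edgeSet_add_one
  have h2 := (G.induce (S : Set V)).sum_degrees_eq_twice_card_edges
  have h3 : Nat.card (S : Set V) = S.card := by simp
  have h4 : Nat.card (G.induce (S : Set V)).edgeSet = (G.induce (S : Set V)).edgeFinset.card := by
    rw [Nat.card_eq_fintype_card, SimpleGraph.edgeFinset, Set.toFinset_card]
  have h5 : ∑ v : (S : Set V), (G.induce (S : Set V)).degree v =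
      ∑ v ∈ S, (S.filter (fun w => G.Adj v w)).card := by
    rw [← Finset.sum_coe_sort S]
    apply Finset.sum_congr rfl
    intro v _
    rw [← SimpleGraph.card_neighborFinset_eq_degree]
    refine Finset.card_bij (fun w _ => w.1) ?_ ?_ ?_
    · intro w hw
      rw [SimpleGraph.mem_neighborFinset] at hw
      rw [Finset.mem_filter]
      exact ⟨w.2, hw⟩
    · intro w _ w' _ h
      exact Subtype.ext h
    · intro w hw
      rw [Finset.mem_filter] at hw
      refine ⟨⟨w, hw.1⟩, ?_, rfl⟩
      rw [SimpleGraph.mem_neighborFinset]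
      exact hw.2
  rw [h5] at h2
  rw [h3, h4] at h1
  omega

/-- the counting: every vertex of a minimal set has at most two neighbours in it -/
theorem Om_deg {V N : Type} {G : SimpleGraph V} {f : V → Finset N}
    (h3 : ∀ v, (f v).card = 3) (hadj : ∀ u v, G.Adj u v ↔ u ≠ v ∧ ∃ p, p ∈ f u ∧ p ∈ f v)
    (T : Finset V) (own : V → Finset N) (hsub : ∀ v ∈ T, own v ⊆ f v)
    (hcard : ∀ v ∈ T, (own v).card = 2) (hdis : ∀ u ∈ T, ∀ v ∈ T, u ≠ v → Disjoint (own u) (own v))
    (hloc : ∀ x ∈ T, ∃ a b, a ∈ T ∧ b ∈ T ∧ G.Adj x a ∧ G.Adj x b ∧ a ≠ b ∧ ¬ G.Adj a b) :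
    ∀ v ∈ T, (T.filter (fun w => G.Adj v w)).card ≤ 2 := by
  set k : N → ℕ := fun p => (T.filter (fun v => p ∈ f v)).card with hk
  set P : Finset N := T.biUnion f with hP
  set PA : Finset N := P.filter (fun p => 2 ≤ k p) with hPA
  have hshare : ∀ v ∈ T, ∀ w ∈ T, v ≠ w → ∀ p, p ∈ f v → p ∈ f w → 2 ≤ k p := by
    intro v hv w hw hvw p hp hp'
    have h : ({v, w} : Finset V) ⊆ T.filter (fun v => p ∈ f v) := by
      intro z hz
      rw [Finset.mem_insert, Finset.mem_singleton] at hz
      rw [Finset.mem_filter]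
      rcases hz with rfl | rfl
      · exact ⟨hv, hp⟩
      · exact ⟨hw, hp'⟩
    have h' := Finset.card_le_card h
    rw [Finset.card_pair hvw] at h'
    exact h'
  -- every vertex has two active nodes
  have hact : ∀ v ∈ T, 2 ≤ ((f v).filter (fun p => 2 ≤ k p)).card := by
    intro x hx
    obtain ⟨a, b, ha, hb, hxa, hxb, hab, hnab⟩ := hloc x hx
    obtain ⟨hxa', p, hpx, hpa⟩ := (hadj x a).1 hxa
    obtain ⟨hxb', q, hqx, hqb⟩ := (hadj x b).1 hxb
    have hpq : p ≠ q := by
      intro h
      rw [h] at hpa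
      exact hnab ((hadj a b).2 ⟨hab, q, hpa, hqb⟩)
    have h : ({p, q} : Finset N) ⊆ (f x).filter (fun p => 2 ≤ k p) := by
      intro z hz
      rw [Finset.mem_insert, Finset.mem_singleton] at hz
      rw [Finset.mem_filter]
      rcases hz with rfl | rfl
      · exact ⟨hpx, hshare x hx a ha hxa' _ hpx hpa⟩
      · exact ⟨hqx, hshare x hx b hb hxb' _ hqx hqb⟩
    have h' := Finset.card_le_card h
    rw [Finset.card_pair hpq] at h'
    exact h'
  -- the four counts
  have c1 : 2 * T.card ≤ P.card := by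
    have e1 : (T.biUnion own).card = ∑ v ∈ T, (own v).card := Finset.card_biUnion hdis
    have e2 : ∑ v ∈ T, (own v).card = ∑ v ∈ T, 2 := Finset.sum_congr rfl hcard
    have e3 : (T.biUnion own) ⊆ P := Finset.biUnion_subset_biUnion_of_subset_left own (Finset.Subset.refl T) |>.trans (by
      intro z hz
      rw [Finset.mem_biUnion] at hz
      obtain ⟨v, hv, hz⟩ := hz
      rw [hP, Finset.mem_biUnion]
      exact ⟨v, hv, hsub v hv hz⟩)
    have e4 := Finset.card_le_card e3
    rw [e1, e2, Finset.sum_const, smul_eq_mul] at e4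
    omega
  have c2 : ∑ p ∈ P, k p = 3 * T.card := by
    have e := Finset.sum_card_bipartiteAbove_eq_sum_card_bipartiteBelow (s := T) (t := P)
      (fun v p => p ∈ f v)
    have e1 : ∑ v ∈ T, (Finset.bipartiteAbove (fun v p => p ∈ f v) P v).card = ∑ v ∈ T, 3 := by
      apply Finset.sum_congr rfl
      intro v hv
      rw [← h3 v]
      congr 1
      ext p
      rw [Finset.mem_bipartiteAbove, hP, Finset.mem_biUnion]
      constructor
      · intro h
        exact h.2
      · intro h
        exact ⟨⟨v, hv, h⟩, h⟩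
    rw [e1, Finset.sum_const, smul_eq_mul] at e
    have e2 : ∑ p ∈ P, k p = ∑ b ∈ P, (Finset.bipartiteBelow (fun v p => p ∈ f v) T b).card := rfl
    rw [e2, ← e]
    ring
  have c3 : ∑ p ∈ PA, k p = ∑ v ∈ T, ((f v).filter (fun p => 2 ≤ k p)).card := by
    have e := Finset.sum_card_bipartiteAbove_eq_sum_card_bipartiteBelow (s := T) (t := PA)
      (fun v p => p ∈ f v)
    have e1 : ∑ v ∈ T, (Finset.bipartiteAbove (fun v p => p ∈ f v) PA v).card =
        ∑ v ∈ T, ((f v).filter (fun p => 2 ≤ k p)).card := by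
      apply Finset.sum_congr rfl
      intro v hv
      congr 1
      ext p
      rw [Finset.mem_bipartiteAbove, hPA, Finset.mem_filter, hP, Finset.mem_biUnion, Finset.mem_filter]
      constructor
      · intro h
        exact ⟨h.2, h.1.2⟩
      · intro h
        exact ⟨⟨⟨v, hv, h.1⟩, h.2⟩, h.1⟩
    have e2 : ∑ p ∈ PA, k p = ∑ b ∈ PA, (Finset.bipartiteBelow (fun v p => p ∈ f v) T b).card := rfl
    rw [e2, ← e, e1]
  have c4 : ∑ p ∈ P, k p = ∑ p ∈ PA, k p + (P.filter (fun p => ¬ 2 ≤ k p)).card := by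
    rw [← Finset.sum_filter_add_sum_filter_not P (fun p => 2 ≤ k p)]
    congr 1
    rw [Finset.card_eq_sum_ones]
    apply Finset.sum_congr rfl
    intro p hp
    rw [Finset.mem_filter] at hp
    have h1 : 1 ≤ k p := by
      obtain ⟨v, hv, hpv⟩ := Finset.mem_biUnion.1 hp.1
      exact Finset.card_pos.2 ⟨v, Finset.mem_filter.2 ⟨hv, hpv⟩⟩
    omega
  have c5 : P.card = PA.card + (P.filter (fun p => ¬ 2 ≤ k p)).card :=
    (Finset.card_filter_add_card_filter_not (s := P) (fun p => 2 ≤ k p)).symm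
  have c6 : 2 * PA.card ≤ ∑ p ∈ PA, k p := by
    have h := Finset.card_nsmul_le_sum PA k 2 (fun p hp => (Finset.mem_filter.1 hp).2)
    rw [smul_eq_mul, mul_comm] at h
    exact h
  have c7 : 2 * T.card ≤ ∑ v ∈ T, ((f v).filter (fun p => 2 ≤ k p)).card := by
    have h := Finset.card_nsmul_le_sum T (fun v => ((f v).filter (fun p => 2 ≤ k p)).card) 2 hact
    rw [smul_eq_mul, mul_comm] at h
    exact h
  have c8 : ∑ v ∈ T, ((f v).filter (fun p => 2 ≤ k p)).card = ∑ v ∈ T, 2 := by
    rw [Finset.sum_const, smul_eq_mul]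
    omega
  have c9 : ∑ p ∈ PA, k p = ∑ p ∈ PA, 2 := by
    rw [Finset.sum_const, smul_eq_mul]
    omega
  have hact2 : ∀ v ∈ T, ((f v).filter (fun p => 2 ≤ k p)).card = 2 := by
    have := (Finset.sum_eq_sum_iff_of_le (s := T) (f := fun _ => 2)
      (g := fun v => ((f v).filter (fun p => 2 ≤ k p)).card) hact).1 c8.symm
    intro v hv
    exact (this v hv).symm
  have hk2 : ∀ p ∈ PA, k p = 2 := by
    have := (Finset.sum_eq_sum_iff_of_le (s := PA) (f := fun _ => 2)
      (g := k) (fun p hp => (Finset.mem_filter.1 hp).2)).1 c9.symm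
    intro p hp
    exact (this p hp).symm
  intro v hv
  rw [← hact2 v hv]
  have hex : ∀ w, G.Adj v w → ∃ p, p ∈ f v ∧ p ∈ f w := fun w hw => ((hadj v w).1 hw).2
  refine Finset.card_le_card_of_injOn (fun w => if h : G.Adj v w then (hex w h).choose else
    (Classical.choice (Finset.card_pos.1 (by rw [h3 v]; norm_num : 0 < (f v).card)).to_subtype).1) ?_ ?_
  · intro w hw
    rw [Finset.mem_coe, Finset.mem_filter] at hw
    have hs := (hex w hw.2).choose_spec
    simp only [dif_pos hw.2]
    rw [Finset.mem_coe, Finset.mem_filter]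
    exact ⟨hs.1, hshare v hv w hw.1 hw.2.ne _ hs.1 hs.2⟩
  · intro w hw w' hw' heq
    rw [Finset.mem_coe, Finset.mem_filter] at hw hw'
    simp only [dif_pos hw.2, dif_pos hw'.2] at heq
    have hs := (hex w hw.2).choose_spec
    have hs' := (hex w' hw'.2).choose_spec
    rw [← heq] at hs'
    by_contra hne
    have hp : (hex w hw.2).choose ∈ PA := by
      rw [hPA, Finset.mem_filter]
      refine ⟨?_, hshare v hv w hw.1 hw.2.ne _ hs.1 hs.2⟩
      rw [hP, Finset.mem_biUnion]
      exact ⟨v, hv, hs.1⟩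
    have h2 := hk2 _ hp
    have h : ({v, w, w'} : Finset V) ⊆ T.filter (fun u => (hex w hw.2).choose ∈ f u) := by
      intro z hz
      rw [Finset.mem_insert, Finset.mem_insert, Finset.mem_singleton] at hz
      rw [Finset.mem_filter]
      rcases hz with rfl | rfl | rfl
      · exact ⟨hv, hs.1⟩
      · exact ⟨hw.1, hs.2⟩
      · exact ⟨hw'.1, hs'.2⟩
    have h' := Finset.card_le_card h
    rw [Finset.card_eq_three.2 ⟨v, w, w', hw.2.ne, hw'.2.ne, hne, rfl⟩] at h'
    have h2' : (T.filter (fun u => (hex w hw.2).choose ∈ f u)).card = 2 := h2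
    omega

theorem own_model {V N : Type} [Fintype V] {G : SimpleGraph V} {f : V → Finset N} {d : ℕ}
    (h3 : ∀ v, (f v).card = 3) (hadj : ∀ u v, G.Adj u v ↔ u ≠ v ∧ ∃ p, p ∈ f u ∧ p ∈ f v)
    (hdeg : ∀ v, (nb G v).card ≤ d) {F : Finset V} {own : V → Finset N} (hown : Own f F own)
    {r : ℕ} (hr : d + 2 ≤ r) (hr4 : 4 ≤ r) : ¬ Model G r (F : Set V) := by
  intro hF
  obtain ⟨T, hT, hmin⟩ := Finset.exists_min_image
    (F.powerset.filter (fun T : Finset V => Model G r (T : Set V))) (fun T : Finset V => T.card)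
    ⟨F, Finset.mem_filter.2 ⟨Finset.mem_powerset.2 (Finset.Subset.refl F), hF⟩⟩
  rw [Finset.mem_filter, Finset.mem_powerset] at hT
  obtain ⟨hTF, hm⟩ := hT
  have hloc : ∀ x ∈ T, ∃ a b, a ∈ T ∧ b ∈ T ∧ G.Adj x a ∧ G.Adj x b ∧ a ≠ b ∧ ¬ G.Adj a b := by
    intro x hx
    have hnl : ¬ Loc G (T : Set V) x := by
      intro hl
      have h1 := model_remove (hdeg x) hr hl hm
      rw [← Finset.coe_erase] at h1
      have h2 := hmin (T.erase x) (Finset.mem_filter.2
        ⟨Finset.mem_powerset.2 ((Finset.erase_subset x T).trans hTF), h1⟩)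
      have h3 := Finset.card_erase_lt_of_mem hx
      omega
    unfold Loc at hnl
    push Not at hnl
    obtain ⟨a, b, ha, hb, hxa, hxb, _, hab, hnab⟩ := hnl
    exact ⟨a, b, ha, hb, hxa, hxb, hab, hnab⟩
  have hdeg2 := Om_deg h3 hadj T own (fun v hv => hown.sub v (hTF hv)) (fun v hv => hown.card2 v (hTF hv))
    (fun u hu v hv => hown.disj u (hTF hu) v (hTF hv)) hloc
  obtain ⟨B, hB, hdis, hB2⟩ := hm
  have h0 : 0 < r := by omega
  set i0 : Fin r := ⟨0, h0⟩ with hi0
  set S : Finset V := T.filter (fun v => v ∈ B i0) with hS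
  have hSB : (S : Set V) = B i0 := by
    ext z
    rw [Finset.mem_coe, hS, Finset.mem_filter]
    constructor
    · intro h
      exact h.2
    · intro h
      exact ⟨(hB i0).1 h, h⟩
  have hSne : S.Nonempty := by
    rw [← Finset.coe_nonempty, hSB]
    exact (hB i0).2.1
  have hE := Om_edges (G := G) S hSne (by rw [hSB]; exact (hB i0).2.2)
  have hsplit : ∀ v ∈ S, (S.filter (fun w => G.Adj v w)).card +
      ((T \ S).filter (fun w => G.Adj v w)).card ≤ 2 := by
    intro v hv
    have hvT : v ∈ T := (Finset.mem_filter.1 hv).1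
    have h1 := hdeg2 v hvT
    have h2 : (S.filter (fun w => G.Adj v w)) ∪ ((T \ S).filter (fun w => G.Adj v w)) ⊆
        T.filter (fun w => G.Adj v w) := by
      intro z hz
      rcases Finset.mem_union.1 hz with hz' | hz'
      · obtain ⟨hz1, hz2⟩ := Finset.mem_filter.1 hz'
        exact Finset.mem_filter.2 ⟨(Finset.mem_filter.1 hz1).1, hz2⟩
      · obtain ⟨hz1, hz2⟩ := Finset.mem_filter.1 hz'
        exact Finset.mem_filter.2 ⟨(Finset.mem_sdiff.1 hz1).1, hz2⟩
    have h3 := Finset.card_le_card h2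
    rw [Finset.card_union_of_disjoint] at h3
    · omega
    · rw [Finset.disjoint_left]
      intro z hz hz'
      exact (Finset.mem_sdiff.1 (Finset.mem_filter.1 hz').1).2 (Finset.mem_filter.1 hz).1
  have hsum : ∑ v ∈ S, ((S.filter (fun w => G.Adj v w)).card +
      ((T \ S).filter (fun w => G.Adj v w)).card) ≤ S.card * 2 := by
    have := Finset.sum_le_card_nsmul S _ 2 hsplit
    rwa [smul_eq_mul] at this
  rw [Finset.sum_add_distrib] at hsum
  -- three leaving edges
  have hleave : 3 ≤ ∑ v ∈ S, ((T \ S).filter (fun w => G.Adj v w)).card := by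
    have hch : ∀ j : Fin r, j ≠ i0 → ∃ u ∈ B i0, ∃ v ∈ B j, G.Adj u v := fun j hj => hB2 i0 j hj.symm
    choose u hu v hv huv using hch
    have hcs : (Finset.univ.erase i0).card ≤
        (S.sigma (fun v => (T \ S).filter (fun w => G.Adj v w))).card := by
      obtain ⟨s0, hs0⟩ := hSne
      refine Finset.card_le_card_of_injOn (fun j => if h : j ≠ i0 then (⟨u j h, v j h⟩ : (_ : V) × V) else ⟨s0, s0⟩) ?_ ?_
      · intro j hj
        have hj' : j ≠ i0 := (Finset.mem_erase.1 (Finset.mem_coe.1 hj)).1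
        simp only [dif_pos hj', Finset.mem_coe]
        rw [Finset.mem_sigma]
        have hvT : v j hj' ∈ T := (hB j).1 (hv j hj')
        refine ⟨?_, ?_⟩
        · rw [← Finset.mem_coe, hSB]
          exact hu j hj'
        · rw [Finset.mem_filter, Finset.mem_sdiff]
          refine ⟨⟨hvT, ?_⟩, huv j hj'⟩
          intro h
          rw [← Finset.mem_coe, hSB] at h
          exact Set.disjoint_left.1 (hdis j i0 hj') (hv j hj') h
      · intro j hj j' hj' heq
        have h1 : j ≠ i0 := (Finset.mem_erase.1 (Finset.mem_coe.1 hj)).1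
        have h2 : j' ≠ i0 := (Finset.mem_erase.1 (Finset.mem_coe.1 hj')).1
        simp only [dif_pos h1, dif_pos h2] at heq
        by_contra hne
        have h3 : v j h1 = v j' h2 := congrArg Sigma.snd heq
        have h4 := hv j h1
        rw [h3] at h4
        exact Set.disjoint_left.1 (hdis j j' hne) h4 (hv j' h2)
    rw [Finset.card_sigma, Finset.card_erase_of_mem (Finset.mem_univ _), Finset.card_univ, Fintype.card_fin] at hcs
    omega
  omega

end

end Pool.Agent.H64.K4
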