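import Pool.Agent.H64.K4.Defs

/-!
Module Pt (row K4PT).  The point structure of a graph in the class.

For adjacent `v, u` let `blk v u := insert v (insert u (nb G u ∩ nb G v))` (by `Dia` the last set has at most one element: a triangle or an edge).
`P v := (nb G v).image (blk v)`.  Facts:
(1) if `w ∈ blk v u`, `w ≠ v` (so `w ~ v`) then `blk v w = blk v u`, and `blk u v = blk v u`, and `blk w v = blk v u`; so `blk v u ∈ P w` for all `w ∈ blk v u`; and
    `X ∈ P w` implies `w ∈ X`.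
(2) the sets `X \ {v}`, `X ∈ P v`, partition `nb G v`; so `Σ_(X ∈ P v) (|X| - 1) = |nb G v| ≤ d`.
(3) `|P v| ≤ 3`: from four different blocks choose `u_i`; if `u_i ~ u_j` then `u_j ∈ blk v u_i`, so the blocks are equal; so the `u_i` are pairwise non-adjacent: contradiction to `K14`.
(4) if `u ≠ v` share `X ∈ P u ∩ P v` then `u ~ v` and `X = blk u v` (so two different vertices share at most one block); if `u ~ v` they share `blk u v`.
Nodes: `N := Finset V ⊕ (V × Fin 3)`; `f v := (P v).image inl ∪ ((Finset.univ.filter (fun i : Fin 3 => (P v).card + i.val < 3)).image (fun i => inr (v, i)))`.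
`|f v| = |P v| + (3 - |P v|) = 3`.  `mult f (inl X) ≤ |X| ≤ 3` (the vertices of `X`), `mult f (inr (v, i)) ≤ 1`.
`Σ_(p ∈ f v) mult f p ≤ Σ_(X ∈ P v) |X| + (3 - |P v|) = |nb G v| + |P v| + 3 - |P v| ≤ d + 3`.
-/

set_option autoImplicit false
set_option linter.all false

namespace Pool.Agent.H64.K4

open Classical Pool.Agent.H67.CF

noncomputable section

/-- the block of the edge `v u` -/
def Pt_blk {V : Type} [Fintype V] (G : SimpleGraph V) (v u : V) : Finset V :=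
  insert v (insert u (nb G u ∩ nb G v))

/-- the blocks at `v` -/
def Pt_P {V : Type} [Fintype V] (G : SimpleGraph V) (v : V) : Finset (Finset V) :=
  (nb G v).image (Pt_blk G v)

lemma Pt_mem_nb {V : Type} [Fintype V] {G : SimpleGraph V} {v w : V} : w ∈ nb G v ↔ G.Adj v w := by
  unfold nb
  simp

lemma Pt_mem_blk {V : Type} [Fintype V] {G : SimpleGraph V} {v u w : V} :
    w ∈ Pt_blk G v u ↔ w = v ∨ w = u ∨ (G.Adj u w ∧ G.Adj v w) := by
  unfold Pt_blk
  rw [Finset.mem_insert, Finset.mem_insert, Finset.mem_inter, Pt_mem_nb, Pt_mem_nb]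

lemma Pt_mem_P {V : Type} [Fintype V] {G : SimpleGraph V} {v : V} {X : Finset V} :
    X ∈ Pt_P G v ↔ ∃ u, G.Adj v u ∧ Pt_blk G v u = X := by
  unfold Pt_P
  rw [Finset.mem_image]
  constructor
  · rintro ⟨u, hu, rfl⟩
    exact ⟨u, Pt_mem_nb.1 hu, rfl⟩
  · rintro ⟨u, hu, rfl⟩
    exact ⟨u, Pt_mem_nb.2 hu, rfl⟩

lemma Pt_blk_adj {V : Type} [Fintype V] {G : SimpleGraph V} (hdia : Dia G) {v u a b : V}
    (hvu : G.Adj v u) (ha : a ∈ Pt_blk G v u) (hb : b ∈ Pt_blk G v u) (hab : a ≠ b) :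
    G.Adj a b := by
  rw [Pt_mem_blk] at ha hb
  rcases ha with rfl | rfl | ⟨h1, h2⟩ <;> rcases hb with rfl | rfl | ⟨h3, h4⟩
  · exact absurd rfl hab
  · exact hvu
  · exact h4
  · exact hvu.symm
  · exact absurd rfl hab
  · exact h3
  · exact h2.symm
  · exact h1.symm
  · exact absurd (hdia v u a b hvu h2 h1 h4 h3) hab

lemma Pt_common {V : Type} [Fintype V] {G : SimpleGraph V} (hdia : Dia G) {v u a b w : V}
    (hvu : G.Adj v u) (ha : a ∈ Pt_blk G v u) (hb : b ∈ Pt_blk G v u) (hab : a ≠ b)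
    (h1 : G.Adj a w) (h2 : G.Adj b w) : w ∈ Pt_blk G v u := by
  have hab' := Pt_blk_adj hdia hvu ha hb hab
  rw [Pt_mem_blk] at ha hb ⊢
  rcases ha with rfl | rfl | ⟨h3, h4⟩ <;> rcases hb with rfl | rfl | ⟨h5, h6⟩
  · exact absurd rfl hab
  · exact Or.inr (Or.inr ⟨h2, h1⟩)
  · exact Or.inr (Or.inl (hdia a b w u hab' h1 h2 hvu h5.symm))
  · exact Or.inr (Or.inr ⟨h1, h2⟩)
  · exact absurd rfl hab
  · exact Or.inl (hdia a b w v hab' h1 h2 hvu.symm h6.symm)
  · exact Or.inr (Or.inl (hdia a b w u hab' h1 h2 h3.symm hvu))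
  · exact Or.inl (hdia a b w v hab' h1 h2 h4.symm hvu.symm)
  · exact absurd (hdia v u a b hvu h4 h3 h6 h5) hab

lemma Pt_blk_eq {V : Type} [Fintype V] {G : SimpleGraph V} (hdia : Dia G) {v u a b : V}
    (hvu : G.Adj v u) (ha : a ∈ Pt_blk G v u) (hb : b ∈ Pt_blk G v u) (hab : a ≠ b) :
    Pt_blk G a b = Pt_blk G v u := by
  ext w
  constructor
  · intro hw
    rw [Pt_mem_blk] at hw
    rcases hw with rfl | rfl | ⟨h1, h2⟩
    · exact ha
    · exact hb
    · exact Pt_common hdia hvu ha hb hab h2 h1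
  · intro hw
    rw [Pt_mem_blk]
    by_cases h1 : w = a
    · exact Or.inl h1
    by_cases h2 : w = b
    · exact Or.inr (Or.inl h2)
    exact Or.inr (Or.inr ⟨Pt_blk_adj hdia hvu hb hw (fun h => h2 h.symm),
      Pt_blk_adj hdia hvu ha hw (fun h => h1 h.symm)⟩)

lemma Pt_left_mem {V : Type} [Fintype V] {G : SimpleGraph V} {v u : V} : v ∈ Pt_blk G v u :=
  Pt_mem_blk.2 (Or.inl rfl)

lemma Pt_right_mem {V : Type} [Fintype V] {G : SimpleGraph V} {v u : V} : u ∈ Pt_blk G v u :=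
  Pt_mem_blk.2 (Or.inr (Or.inl rfl))

lemma Pt_mem_self {V : Type} [Fintype V] {G : SimpleGraph V} {v : V} {X : Finset V}
    (h : X ∈ Pt_P G v) : v ∈ X := by
  obtain ⟨u, -, rfl⟩ := Pt_mem_P.1 h
  exact Pt_left_mem

lemma Pt_other {V : Type} [Fintype V] {G : SimpleGraph V} (hdia : Dia G) {v w : V} {X : Finset V}
    (h : X ∈ Pt_P G v) (hw : w ∈ X) (hwv : v ≠ w) : G.Adj v w ∧ X = Pt_blk G v w := by
  obtain ⟨u, hu, rfl⟩ := Pt_mem_P.1 h
  exact ⟨Pt_blk_adj hdia hu Pt_left_mem hw hwv, (Pt_blk_eq hdia hu Pt_left_mem hw hwv).symm⟩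

lemma Pt_mem_P_of {V : Type} [Fintype V] {G : SimpleGraph V} (hdia : Dia G) {v w : V}
    {X : Finset V} (h : X ∈ Pt_P G v) (hw : w ∈ X) : X ∈ Pt_P G w := by
  by_cases hwv : v = w
  · rw [← hwv]; exact h
  · obtain ⟨u, hu, rfl⟩ := Pt_mem_P.1 h
    have h1 := Pt_blk_adj hdia hu hw Pt_left_mem (fun h => hwv h.symm)
    exact Pt_mem_P.2 ⟨v, h1, Pt_blk_eq hdia hu hw Pt_left_mem (fun h => hwv h.symm)⟩

lemma Pt_card_blk {V : Type} [Fintype V] {G : SimpleGraph V} (hdia : Dia G) {v u : V}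
    (hvu : G.Adj v u) : (Pt_blk G v u).card ≤ 3 := by
  unfold Pt_blk
  have h1 : (nb G u ∩ nb G v).card ≤ 1 := by
    rw [Finset.card_le_one]
    intro a ha b hb
    rw [Finset.mem_inter, Pt_mem_nb, Pt_mem_nb] at ha hb
    exact hdia v u a b hvu ha.2 ha.1 hb.2 hb.1
  have h2 := Finset.card_insert_le u (nb G u ∩ nb G v)
  have h3 := Finset.card_insert_le v (insert u (nb G u ∩ nb G v))
  omega

lemma Pt_card_mem {V : Type} [Fintype V] {G : SimpleGraph V} (hdia : Dia G) {v : V}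
    {X : Finset V} (h : X ∈ Pt_P G v) : X.card ≤ 3 := by
  obtain ⟨u, hu, rfl⟩ := Pt_mem_P.1 h
  exact Pt_card_blk hdia hu

lemma Pt_sum {V : Type} [Fintype V] {G : SimpleGraph V} (hdia : Dia G) (v : V) :
    ∑ X ∈ Pt_P G v, X.card = (nb G v).card + (Pt_P G v).card := by
  have h1 : nb G v = (Pt_P G v).biUnion (fun X => X.erase v) := by
    ext u
    rw [Finset.mem_biUnion, Pt_mem_nb]
    constructor
    · intro hu
      exact ⟨Pt_blk G v u, Pt_mem_P.2 ⟨u, hu, rfl⟩, Finset.mem_erase.2 ⟨hu.ne', Pt_right_mem⟩⟩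
    · rintro ⟨X, hX, hu⟩
      rw [Finset.mem_erase] at hu
      exact (Pt_other hdia hX hu.2 (fun h => hu.1 h.symm)).1
  have h2 : (nb G v).card = ∑ X ∈ Pt_P G v, (X.erase v).card := by
    conv_lhs => rw [h1]
    apply Finset.card_biUnion
    intro X hX Y hY hXY
    show Disjoint (X.erase v) (Y.erase v)
    rw [Finset.disjoint_left]
    intro u hu hu'
    rw [Finset.mem_erase] at hu hu'
    apply hXY
    rw [(Pt_other hdia hX hu.2 (fun h => hu.1 h.symm)).2,
      (Pt_other hdia hY hu'.2 (fun h => hu'.1 h.symm)).2]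
  rw [h2, Finset.card_eq_sum_ones, ← Finset.sum_add_distrib]
  apply Finset.sum_congr rfl
  intro X hX
  rw [Finset.card_erase_add_one (Pt_mem_self hX)]

lemma Pt_card_P {V : Type} [Fintype V] {G : SimpleGraph V} (h14 : K14 G) (hdia : Dia G) (v : V) :
    (Pt_P G v).card ≤ 3 := by
  by_contra hcon
  obtain ⟨T, hT, hT4⟩ := Finset.exists_subset_card_eq (show 4 ≤ (Pt_P G v).card by omega)
  obtain ⟨e⟩ : Nonempty (T ≃ Fin 4) := ⟨T.equivFinOfCardEq hT4⟩
  have h1 : ∀ i : Fin 4, ∃ u, G.Adj v u ∧ Pt_blk G v u = (e.symm i : Finset V) := fun i =>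
    Pt_mem_P.1 (hT (e.symm i).2)
  choose u hu hb using h1
  have h2 : ∀ i j, i ≠ j → Pt_blk G v (u i) ≠ Pt_blk G v (u j) := by
    intro i j hij h
    rw [hb, hb] at h
    exact hij (e.symm.injective (Subtype.ext h))
  have h3 : ∀ i j, i ≠ j → u i ≠ u j := fun i j hij h => h2 i j hij (by rw [h])
  have h4 : ∀ i j, i ≠ j → ¬ G.Adj (u i) (u j) := by
    intro i j hij h
    apply h2 i j hij
    have h5 : u j ∈ Pt_blk G v (u i) := Pt_mem_blk.2 (Or.inr (Or.inr ⟨h, hu j⟩))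
    exact (Pt_blk_eq hdia (hu i) Pt_left_mem h5 (hu j).ne).symm
  rcases h14 v (u 0) (u 1) (u 2) (u 3) (hu 0) (hu 1) (hu 2) (hu 3) (h3 0 1 (by decide))
    (h3 0 2 (by decide)) (h3 0 3 (by decide)) (h3 1 2 (by decide)) (h3 1 3 (by decide))
    (h3 2 3 (by decide)) with h | h | h | h | h | h
  · exact h4 0 1 (by decide) h
  · exact h4 0 2 (by decide) h
  · exact h4 0 3 (by decide) h
  · exact h4 1 2 (by decide) h
  · exact h4 1 3 (by decide) h
  · exact h4 2 3 (by decide) h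

/-- the padding nodes -/
def Pt_pad {V : Type} [Fintype V] (G : SimpleGraph V) (v : V) : Finset (V × Fin 3) :=
  (Finset.univ.filter (fun i : Fin 3 => (Pt_P G v).card + i.val < 3)).image (fun i => (v, i))

lemma Pt_mem_pad {V : Type} [Fintype V] {G : SimpleGraph V} {v : V} {x : V × Fin 3}
    (h : x ∈ Pt_pad G v) : x.1 = v := by
  unfold Pt_pad at h
  rw [Finset.mem_image] at h
  obtain ⟨i, -, rfl⟩ := h
  rfl

lemma Pt_card_pad {V : Type} [Fintype V] {G : SimpleGraph V} (h14 : K14 G) (hdia : Dia G)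
    (v : V) : (Pt_P G v).card + (Pt_pad G v).card = 3 := by
  have h1 := Pt_card_P h14 hdia v
  unfold Pt_pad
  rw [Finset.card_image_of_injective _ (fun i j h => (Prod.ext_iff.1 h).2)]
  generalize (Pt_P G v).card = c at h1 ⊢
  interval_cases c <;> decide

lemma Pt_mult_le {V N : Type} [Fintype V] (f : V → Finset N) (p : N) (S : Finset V)
    (h : ∀ v, p ∈ f v → v ∈ S) : mult f p ≤ S.card := by
  unfold mult
  apply Finset.card_le_card
  intro v hv
  exact h v (Finset.mem_filter.1 hv).2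

/-- the nodes of `v` -/
def Pt_f {V : Type} [Fintype V] (G : SimpleGraph V) (v : V) : Finset (Finset V ⊕ (V × Fin 3)) :=
  (Pt_P G v).disjSum (Pt_pad G v)

theorem exists_ps {V : Type} [Fintype V] {G : SimpleGraph V} {d : ℕ} (h14 : K14 G) (hdia : Dia G)
    (hdeg : ∀ v, (nb G v).card ≤ d) :
    ∃ (N : Type) (_ : Fintype N) (f : V → Finset N), PS G f d := by
  have hm1 : ∀ X, mult (Pt_f G) (Sum.inl X) ≤ X.card := by
    intro X
    exact Pt_mult_le _ _ X fun v hv => Pt_mem_self (Finset.inl_mem_disjSum.1 hv)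
  have hm2 : ∀ x, mult (Pt_f G) (Sum.inr x) ≤ 1 := by
    intro x
    have h1 := Pt_mult_le (Pt_f G) (Sum.inr x) {x.1} fun v hv => by
      rw [Finset.mem_singleton, Pt_mem_pad (Finset.inr_mem_disjSum.1 hv)]
    rwa [Finset.card_singleton] at h1
  refine ⟨Finset V ⊕ (V × Fin 3), inferInstance, Pt_f G, ?_, ?_, ?_, ?_, ?_⟩
  · intro v
    unfold Pt_f
    rw [Finset.card_disjSum]
    exact Pt_card_pad h14 hdia v
  · intro u v
    constructor
    · intro h
      have h1 : Pt_blk G u v ∈ Pt_P G u := Pt_mem_P.2 ⟨v, h, rfl⟩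
      exact ⟨h.ne, Sum.inl (Pt_blk G u v), Finset.inl_mem_disjSum.2 h1,
        Finset.inl_mem_disjSum.2 (Pt_mem_P_of hdia h1 Pt_right_mem)⟩
    · rintro ⟨huv, p | p, hp, hq⟩
      · exact (Pt_other hdia (Finset.inl_mem_disjSum.1 hp)
          (Pt_mem_self (Finset.inl_mem_disjSum.1 hq)) huv).1
      · exact absurd ((Pt_mem_pad (Finset.inr_mem_disjSum.1 hp)).symm.trans
          (Pt_mem_pad (Finset.inr_mem_disjSum.1 hq))) huv
  · rintro u v huv (p | p) (q | q) h1 h2 h3 h4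
    · congr 1
      rw [(Pt_other hdia (Finset.inl_mem_disjSum.1 h1)
          (Pt_mem_self (Finset.inl_mem_disjSum.1 h2)) huv).2,
        (Pt_other hdia (Finset.inl_mem_disjSum.1 h3)
          (Pt_mem_self (Finset.inl_mem_disjSum.1 h4)) huv).2]
    · exact absurd ((Pt_mem_pad (Finset.inr_mem_disjSum.1 h3)).symm.trans
          (Pt_mem_pad (Finset.inr_mem_disjSum.1 h4))) huv
    · exact absurd ((Pt_mem_pad (Finset.inr_mem_disjSum.1 h1)).symm.trans
          (Pt_mem_pad (Finset.inr_mem_disjSum.1 h2))) huv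
    · exact absurd ((Pt_mem_pad (Finset.inr_mem_disjSum.1 h1)).symm.trans
          (Pt_mem_pad (Finset.inr_mem_disjSum.1 h2))) huv
  · rintro (X | x)
    · by_cases h : ∃ v, Sum.inl X ∈ Pt_f G v
      · obtain ⟨v, hv⟩ := h
        exact (hm1 X).trans (Pt_card_mem hdia (Finset.inl_mem_disjSum.1 hv))
      · have h1 := Pt_mult_le (Pt_f G) (Sum.inl X) ∅ fun v hv => absurd ⟨v, hv⟩ h
        rw [Finset.card_empty] at h1
        omega
    · exact (hm2 x).trans (by norm_num)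
  · intro v
    have h1 : ∑ p ∈ Pt_f G v, mult (Pt_f G) p =
        ∑ X ∈ Pt_P G v, mult (Pt_f G) (Sum.inl X) + ∑ x ∈ Pt_pad G v, mult (Pt_f G) (Sum.inr x) := by
      conv_lhs => rw [Pt_f]
      rw [Finset.sum_disjSum]
    have h2 : ∑ X ∈ Pt_P G v, mult (Pt_f G) (Sum.inl X) ≤ ∑ X ∈ Pt_P G v, X.card :=
      Finset.sum_le_sum fun X _ => hm1 X
    have h3 : ∑ x ∈ Pt_pad G v, mult (Pt_f G) (Sum.inr x) ≤ ∑ x ∈ Pt_pad G v, 1 :=
      Finset.sum_le_sum fun x _ => hm2 x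
    rw [← Finset.card_eq_sum_ones] at h3
    have h4 := Pt_sum hdia v
    have h5 := Pt_card_pad h14 hdia v
    have h6 := hdeg v
    omega

end

end Pool.Agent.H64.K4
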