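import Pool.Agent.H64.K4.Defs

/-!
Module Tb (row K4TB).  The Tutte-Berge formula (one inequality), from Mathlib's Tutte theorem `SimpleGraph.tutte`
(file Mathlib/Combinatorics/SimpleGraph/Tutte.lean, `SimpleGraph.IsTutteViolator`, `oddComponents`).

`oddC S U` = the classes of odd size of the complement of `U` (`Defs`), `mate` = the involution of a matching, fixed points = unmatched.

Proof.  If `N` is empty take `U = ∅`.  Let `U` maximise `|oddC S U| - |U|` (as an integer; `Finset.exists_max_image` over `Finset.univ`), and let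
`D` be this maximum, `D ≥ 0` (compare with `U = ∅`).  Let `S'` be the graph on `N ⊕ Fin D` in which `inl p ~ inl q` iff `S.Adj p q` and every `inr i` is
adjacent to every other vertex.  `S'` has no Tutte violator `u` (a set of vertices with fewer elements than the number of odd components of `S' - u`):
(a) if `u` contains all `inr i`, then `|u| = |U'| + D` with `U' = {p | inl p ∈ u}` and the odd components of `S' - u` correspond to the elements of
    `oddC S U'`, so their number is `≤ |U'| + D = |u|`;
(b) otherwise `S' - u` is connected (or empty), so there is at most one odd component, and `|u| < 1` forces `u = ∅`, the whole vertex set is an odd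
    component, i.e. `|N| + D` is odd.  But `|N| + D` is even: `|N| = |U| + Σ_(classes Z) |Z| ≡ |U| + |oddC S U| ≡ D (mod 2)`.
So `S'` has a perfect matching; `mate p := q` if `inl p` is matched with `inl q`, and `mate p := p` if `inl p` is matched with some `inr i`; the number of
the latter `p` is at most `D = |oddC S U| - |U|`.
(Any other proof is fine, e.g. a direct induction proof of Tutte-Berge.)
-/

set_option autoImplicit false
set_option linter.all false

namespace Pool.Agent.H64.K4

open Classical Pool.Agent.H67.CF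

noncomputable section

section Tb

variable {N : Type}

/-- the vertices of `N` below the component `c` -/
def Tb_im [Fintype N] {W : Type} {G : SimpleGraph W} (φ : W → N) (c : G.ConnectedComponent) :
    Finset N := Finset.univ.filter (fun z => ∃ w, w ∈ c.supp ∧ φ w = z)

theorem Tb_card_im [Fintype N] {W : Type} [Finite W] {G : SimpleGraph W} {φ : W → N}
    (hφ : Function.Injective φ) (c : G.ConnectedComponent) : (Tb_im φ c).card = c.supp.ncard := by
  have h : φ '' c.supp = ↑(Tb_im φ c) := by
    ext z
    simp [Tb_im]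
  rw [← Set.ncard_coe_finset, ← h, Set.ncard_image_of_injective _ hφ]

theorem Tb_im_mk [Fintype N] (S : SimpleGraph N) (U : Finset N) {W : Type} [Finite W]
    {G : SimpleGraph W} {φ : W → N} (hr : ∀ z, z ∉ U ↔ ∃ w, φ w = z)
    (hφ : Function.Injective φ) (ha : ∀ a b, G.Adj a b ↔ S.Adj (φ a) (φ b)) (w : W) :
    Tb_im φ (G.connectedComponentMk w) = clsF S U (φ w) := by
  ext z
  unfold Tb_im clsF
  simp only [Finset.mem_filter, Finset.mem_univ, true_and]
  constructor
  · rintro ⟨w', hw', rfl⟩
    refine ⟨(hr _).2 ⟨w', rfl⟩, ?_⟩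
    have h1 : G.Reachable w w' := (SimpleGraph.ConnectedComponent.exact hw').symm
    rw [SimpleGraph.reachable_iff_reflTransGen] at h1
    clear hw'
    induction h1 with
    | refl => exact rch_refl
    | @tail b c _ hbc ih => exact rch_tail ih ((ha _ _).1 hbc) ((hr _).2 ⟨c, rfl⟩)
  · rintro ⟨_, h⟩
    have h1 : ∃ w', φ w' = z ∧ G.Reachable w w' := by
      refine rch_induct (P := fun z => ∃ w', φ w' = z ∧ G.Reachable w w') h
        ⟨w, rfl, SimpleGraph.Reachable.refl _⟩ ?_
      rintro x y ⟨w1, rfl, hw1⟩ _ hxy hy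
      obtain ⟨w2, rfl⟩ := (hr y).1 hy
      exact ⟨w2, rfl, hw1.trans ((ha w1 w2).2 hxy).reachable⟩
    obtain ⟨w', hw', hr'⟩ := h1
    exact ⟨w', SimpleGraph.ConnectedComponent.sound hr'.symm, hw'⟩

theorem Tb_ncard [Fintype N] (S : SimpleGraph N) (U : Finset N) {W : Type} [Finite W]
    {G : SimpleGraph W} {φ : W → N} (hr : ∀ z, z ∉ U ↔ ∃ w, φ w = z)
    (hφ : Function.Injective φ) (ha : ∀ a b, G.Adj a b ↔ S.Adj (φ a) (φ b)) :
    G.oddComponents.ncard = (oddC S U).card := by
  have himg : Tb_im φ '' G.oddComponents = ↑(oddC S U) := by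
    ext Z
    constructor
    · rintro ⟨c, hc, rfl⟩
      have hc' : Odd c.supp.ncard := hc
      unfold oddC
      rw [Finset.mem_coe, Finset.mem_filter, Tb_card_im hφ]
      refine ⟨?_, hc'⟩
      induction c using SimpleGraph.ConnectedComponent.ind with
      | h w =>
        rw [Tb_im_mk S U hr hφ ha w]
        unfold allC
        exact Finset.mem_image.2 ⟨φ w, Finset.mem_filter.2 ⟨Finset.mem_univ _, (hr _).2 ⟨w, rfl⟩⟩, rfl⟩
    · intro hZ
      unfold oddC at hZ
      rw [Finset.mem_coe, Finset.mem_filter] at hZ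
      obtain ⟨hZ1, hZ2⟩ := hZ
      unfold allC at hZ1
      obtain ⟨p, hp, rfl⟩ := Finset.mem_image.1 hZ1
      obtain ⟨w, rfl⟩ := (hr p).1 (Finset.mem_filter.1 hp).2
      refine ⟨G.connectedComponentMk w, ?_, Tb_im_mk S U hr hφ ha w⟩
      change Odd _
      rw [← Tb_card_im hφ, Tb_im_mk S U hr hφ ha w]
      exact hZ2
  have hinj : Set.InjOn (Tb_im (G := G) φ) G.oddComponents := by
    intro c _ c' _ h
    obtain ⟨w, hw⟩ := c.nonempty_supp
    have h1 : φ w ∈ Tb_im φ c := by
      unfold Tb_im
      exact Finset.mem_filter.2 ⟨Finset.mem_univ _, w, hw, rfl⟩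
    rw [h] at h1
    unfold Tb_im at h1
    obtain ⟨w', hw', he⟩ := (Finset.mem_filter.1 h1).2
    have := hφ he
    subst this
    exact SimpleGraph.ConnectedComponent.eq_of_common_vertex hw hw'
  rw [← Set.ncard_coe_finset, ← himg, Set.ncard_image_of_injOn hinj]

theorem Tb_parity [Fintype N] (S : SimpleGraph N) (U : Finset N) :
    Even (Fintype.card N + U.card + (oddC S U).card) := by
  have h1 := Tb_ncard S U (W := {y // y ∉ U}) (G := S.comap Subtype.val) (φ := Subtype.val)
    (fun z => by simp) Subtype.val_injective (fun a b => by simp)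
  have h2 := SimpleGraph.odd_ncard_oddComponents (G := S.comap (Subtype.val : {y // y ∉ U} → N))
  rw [h1] at h2
  have h3 : Nat.card {y // y ∉ U} = Fintype.card N - U.card := by
    rw [Nat.card_eq_fintype_card, Fintype.card_subtype_compl, Fintype.card_coe]
  have h4 : U.card ≤ Fintype.card N := Finset.card_le_univ U
  rw [h3] at h2
  rcases Nat.even_or_odd (oddC S U).card with h5 | h5
  · have h6 : ¬ Odd (Fintype.card N - U.card) := fun h => (Nat.not_odd_iff_even.2 h5) (h2.2 h)
    rw [Nat.not_odd_iff_even] at h6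
    obtain ⟨a, ha⟩ := h5
    obtain ⟨b, hb⟩ := h6
    exact ⟨a + b + U.card, by omega⟩
  · have h6 := h2.1 h5
    obtain ⟨a, ha⟩ := h5
    obtain ⟨b, hb⟩ := h6
    exact ⟨a + b + U.card + 1, by omega⟩

/-- `S` together with `D` universal vertices -/
def Tb_gr (S : SimpleGraph N) (D : ℕ) : SimpleGraph (N ⊕ Fin D) where
  Adj x y := x ≠ y ∧ ∀ p q, x = Sum.inl p → y = Sum.inl q → S.Adj p q
  symm := ⟨fun _ _ h => ⟨h.1.symm, fun p q hp hq => (h.2 q p hq hp).symm⟩⟩
  loopless := ⟨fun _ h => h.1 rfl⟩

theorem Tb_novio [Fintype N] (S : SimpleGraph N) (D : ℕ)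
    (hD : ∀ U : Finset N, (oddC S U).card ≤ U.card + D) (hpar : Even (Fintype.card N + D))
    (u : Set (N ⊕ Fin D)) : ¬ (Tb_gr S D).IsTutteViolator u := by
  unfold SimpleGraph.IsTutteViolator
  rw [not_lt]
  by_cases hall : ∀ i : Fin D, Sum.inr i ∈ u
  · obtain ⟨U, hU⟩ : ∃ U : Finset N, ∀ p, p ∈ U ↔ Sum.inl p ∈ u :=
      ⟨Finset.univ.filter (fun p => Sum.inl p ∈ u), fun p => by simp⟩
    have hex : ∀ w : ((⊤ : (Tb_gr S D).Subgraph).deleteVerts u).verts, ∃ p, w.1 = Sum.inl p := by
      rintro ⟨w, hw⟩
      rcases w with p | i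
      · exact ⟨p, rfl⟩
      · exact absurd (hall i) hw.2
    choose φ hφ using hex
    have hinj : Function.Injective φ := by
      intro a b hab
      apply Subtype.ext
      rw [hφ a, hφ b, hab]
    have hr : ∀ z, z ∉ U ↔ ∃ w, φ w = z := by
      intro z
      rw [hU]
      constructor
      · intro hz
        refine ⟨⟨Sum.inl z, ⟨trivial, hz⟩⟩, ?_⟩
        exact (Sum.inl_injective (hφ ⟨Sum.inl z, ⟨trivial, hz⟩⟩)).symm
      · rintro ⟨w, rfl⟩
        rw [← hφ w]
        exact w.2.2
    have ha : ∀ a b, ((⊤ : (Tb_gr S D).Subgraph).deleteVerts u).coe.Adj a b ↔ S.Adj (φ a) (φ b) := by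
      intro a b
      rw [SimpleGraph.Subgraph.coe_adj, SimpleGraph.Subgraph.deleteVerts_adj]
      constructor
      · rintro ⟨_, _, _, _, h⟩
        have h' : (Tb_gr S D).Adj a.1 b.1 := h
        exact h'.2 _ _ (hφ a) (hφ b)
      · intro h
        refine ⟨trivial, a.2.2, trivial, b.2.2, ?_⟩
        have h' : (Tb_gr S D).Adj a.1 b.1 := by
          refine ⟨?_, ?_⟩
          · intro hab
            have : a = b := Subtype.ext hab
            subst this
            exact S.loopless.irrefl _ h
          · intro p q hp hq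
            rw [hφ a] at hp
            rw [hφ b] at hq
            rw [← Sum.inl_injective hp, ← Sum.inl_injective hq]
            exact h
        exact h'
    rw [Tb_ncard S U hr hinj ha]
    refine (hD U).trans ?_
    have hu : u = Sum.inl '' (U : Set N) ∪ Set.range (Sum.inr : Fin D → N ⊕ Fin D) := by
      ext x
      rcases x with p | i
      · simp [hU]
      · simp [hall]
    have hdis : Disjoint (Sum.inl '' (U : Set N)) (Set.range (Sum.inr : Fin D → N ⊕ Fin D)) := by
      rw [Set.disjoint_left]
      rintro _ ⟨p, _, rfl⟩ ⟨i, hi⟩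
      exact absurd hi (by simp)
    rw [hu, Set.ncard_union_eq hdis (Set.toFinite _) (Set.toFinite _),
      Set.ncard_image_of_injective _ Sum.inl_injective, Set.ncard_coe_finset]
    have : (Set.range (Sum.inr : Fin D → N ⊕ Fin D)).ncard = D := by
      rw [← Set.image_univ, Set.ncard_image_of_injective _ Sum.inr_injective, Set.ncard_univ,
        Nat.card_eq_fintype_card, Fintype.card_fin]
    rw [this]
  · push Not at hall
    obtain ⟨i, hi⟩ := hall
    have hle : ((⊤ : (Tb_gr S D).Subgraph).deleteVerts u).coe.oddComponents.ncard ≤ 1 := by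
      rw [Set.ncard_le_one_iff]
      intro a b _ _
      have key : ∀ w : ((⊤ : (Tb_gr S D).Subgraph).deleteVerts u).verts,
          ((⊤ : (Tb_gr S D).Subgraph).deleteVerts u).coe.Reachable ⟨Sum.inr i, ⟨trivial, hi⟩⟩ w := by
        intro w
        by_cases hw : w.1 = Sum.inr i
        · have : w = ⟨Sum.inr i, ⟨trivial, hi⟩⟩ := Subtype.ext hw
          rw [this]
        · apply SimpleGraph.Adj.reachable
          rw [SimpleGraph.Subgraph.coe_adj, SimpleGraph.Subgraph.deleteVerts_adj]
          refine ⟨trivial, hi, trivial, w.2.2, ?_⟩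
          have h' : (Tb_gr S D).Adj (Sum.inr i) w.1 :=
            ⟨fun h => hw h.symm, fun p q hp _ => absurd hp (by simp)⟩
          exact h'
      induction a using SimpleGraph.ConnectedComponent.ind with
      | h x =>
        induction b using SimpleGraph.ConnectedComponent.ind with
        | h y => exact SimpleGraph.ConnectedComponent.sound ((key x).symm.trans (key y))
    by_contra hlt
    rw [not_le] at hlt
    have hu0 : u.ncard = 0 := by omega
    have hu : u = ∅ := (Set.ncard_eq_zero (Set.toFinite _)).1 hu0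
    have h1 : ((⊤ : (Tb_gr S D).Subgraph).deleteVerts u).coe.oddComponents.ncard = 1 := by omega
    have h2 : Odd ((⊤ : (Tb_gr S D).Subgraph).deleteVerts u).coe.oddComponents.ncard := by
      rw [h1]; exact odd_one
    rw [SimpleGraph.odd_ncard_oddComponents] at h2
    have h3 : Nat.card ((⊤ : (Tb_gr S D).Subgraph).deleteVerts u).verts = Fintype.card N + D := by
      rw [Nat.card_coe_set_eq, SimpleGraph.Subgraph.deleteVerts_verts, hu, Set.diff_empty,
        SimpleGraph.Subgraph.verts_top, Set.ncard_univ, Nat.card_eq_fintype_card, Fintype.card_sum,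
        Fintype.card_fin]
    rw [h3] at h2
    exact (Nat.not_odd_iff_even.2 hpar) h2

end Tb

theorem tutte_berge {N : Type} [Fintype N] (S : SimpleGraph N) :
    ∃ (U : Finset N) (mate : N → N), (∀ p, mate (mate p) = p) ∧
      (∀ p, mate p = p ∨ S.Adj p (mate p)) ∧
      (Finset.univ.filter (fun p => mate p = p)).card + U.card ≤ (oddC S U).card := by
  obtain ⟨U, -, hU⟩ := Finset.exists_max_image (Finset.univ : Finset (Finset N))
    (fun U => ((oddC S U).card : ℤ) - (U.card : ℤ)) ⟨∅, Finset.mem_univ _⟩
  have hU0 := hU ∅ (Finset.mem_univ _)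
  simp only [Finset.card_empty, Nat.cast_zero, sub_zero] at hU0
  obtain ⟨D, hD⟩ : ∃ D : ℕ, (oddC S U).card = U.card + D := by
    refine ⟨(oddC S U).card - U.card, ?_⟩
    have : (0 : ℤ) ≤ ((oddC S ∅).card : ℤ) := by positivity
    omega
  have hmax : ∀ U' : Finset N, (oddC S U').card ≤ U'.card + D := by
    intro U'
    have := hU U' (Finset.mem_univ _)
    omega
  have hpar : Even (Fintype.card N + D) := by
    have h1 := Tb_parity S U
    obtain ⟨a, ha⟩ := h1
    exact ⟨a - U.card, by omega⟩
  obtain ⟨M, hM⟩ := SimpleGraph.tutte.2 (Tb_novio S D hmax hpar)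
  rw [SimpleGraph.Subgraph.isPerfectMatching_iff] at hM
  choose m hm hm2 using hM
  have hmm : ∀ x y, m x = y → m y = x := by
    intro x y hxy
    have h1 : M.Adj y x := by
      rw [← hxy]; exact (hm x).symm
    exact (hm2 y x h1).symm
  have hadj : ∀ x, (Tb_gr S D).Adj x (m x) := fun x => (hm x).adj_sub
  have hcase : ∀ p : N, (∃ q, m (Sum.inl p) = Sum.inl q) ∨ ∃ i, m (Sum.inl p) = Sum.inr i := by
    intro p
    rcases h : m (Sum.inl p) with q | i
    · exact Or.inl ⟨q, rfl⟩
    · exact Or.inr ⟨i, rfl⟩
  obtain ⟨mate, hmate⟩ : ∃ mate : N → N, ∀ p, mate p = Sum.elim id (fun _ => p) (m (Sum.inl p)) :=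
    ⟨_, fun p => rfl⟩
  have hl : ∀ p q, m (Sum.inl p) = Sum.inl q → mate p = q := by
    intro p q h
    rw [hmate, h]; rfl
  have hrr : ∀ p i, m (Sum.inl p) = Sum.inr i → mate p = p := by
    intro p i h
    rw [hmate, h]; rfl
  refine ⟨U, mate, ?_, ?_, ?_⟩
  · intro p
    rcases hcase p with ⟨q, hq⟩ | ⟨i, hi⟩
    · rw [hl p q hq]
      exact hl q p (hmm _ _ hq)
    · rw [hrr p i hi, hrr p i hi]
  · intro p
    rcases hcase p with ⟨q, hq⟩ | ⟨i, hi⟩
    · right
      rw [hl p q hq]
      have := hadj (Sum.inl p)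
      rw [hq] at this
      exact this.2 p q rfl rfl
    · left
      exact hrr p i hi
  · have hex : ∀ p ∈ Finset.univ.filter (fun p => mate p = p), ∃ i : Fin D,
        m (Sum.inl p) = Sum.inr i := by
      intro p hp
      rcases hcase p with ⟨q, hq⟩ | ⟨i, hi⟩
      · exfalso
        have h1 := hl p q hq
        rw [(Finset.mem_filter.1 hp).2] at h1
        have h2 := hadj (Sum.inl p)
        rw [hq, ← h1] at h2
        exact h2.1 rfl
      · exact ⟨i, hi⟩
    have hcard : (Finset.univ.filter (fun p => mate p = p)).card ≤ D := by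
      have hinj : Function.Injective (fun p : N => m (Sum.inl p)) := by
        intro p q hpq
        have h1 : m (m (Sum.inl p)) = Sum.inl p := hmm _ _ rfl
        have h2 : m (m (Sum.inl q)) = Sum.inl q := hmm _ _ rfl
        have h3 : m (Sum.inl p) = m (Sum.inl q) := hpq
        rw [h3, h2] at h1
        exact (Sum.inl_injective h1).symm
      rw [← Finset.card_image_of_injective _ hinj]
      calc ((Finset.univ.filter (fun p => mate p = p)).image (fun p : N => m (Sum.inl p))).card
          ≤ ((Finset.univ : Finset (Fin D)).image (Sum.inr : Fin D → N ⊕ Fin D)).card := by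
            apply Finset.card_le_card
            intro x hx
            obtain ⟨p, hp, rfl⟩ := Finset.mem_image.1 hx
            obtain ⟨i, hi⟩ := hex p hp
            exact Finset.mem_image.2 ⟨i, Finset.mem_univ _, hi.symm⟩
        _ ≤ (Finset.univ : Finset (Fin D)).card := Finset.card_image_le
        _ = D := by simp
    omega

end

end Pool.Agent.H64.K4
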