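import Pool.Agent.H64.K4.Co
import Pool.Agent.H64.K4.Om
import Pool.Agent.H64.K4.Mr
import Pool.Agent.H64.K4.Of
import Pool.Agent.H64.K4.Fr
import Pool.Agent.H64.K4.Pt
import Pool.Agent.H67.CF.Sd

/-!
Module Up.  The upper bounds (helper64).  See /team-store/H64_K14.md, 7.
-/

set_option autoImplicit false
set_option linter.all false

namespace Pool.Agent.H64.K4

open Classical Pool.Agent.H67.CF

noncomputable section

theorem card_add {V : Type} [Fintype V] {G : SimpleGraph V} {F : Finset V} {B : Finset (Finset V)}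
    {x : Finset V → V} (hR : Reg G B x) (hx : ∀ X ∈ B, x X ∉ F) :
    (F ∪ B.image x).card = F.card + B.card := by
  rw [Finset.card_union_of_disjoint]
  · congr 1
    apply Finset.card_image_of_injOn
    intro X hX Y hY he
    by_contra hne
    have h1 := hR.disj X hX Y hY hne
    rw [Finset.disjoint_left] at h1
    refine h1 (hR.mem X hX) ?_
    have he' : x X = x Y := he
    rw [he']
    exact hR.mem Y hY
  · rw [Finset.disjoint_left]
    intro v hv hv'
    obtain ⟨X, hX, rfl⟩ := Finset.mem_image.1 hv'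
    exact hx X hX hv

theorem reg_sub {V : Type} {G : SimpleGraph V} {B B' : Finset (Finset V)} {x : Finset V → V}
    (hR : Reg G B x) (hB : B' ⊆ B) : Reg G B' x := by
  refine ⟨fun X hX Y hY hne => hR.disj X (hB hX) Y (hB hY) hne, fun X hX => hR.mem X (hB hX), ?_⟩
  intro X hX
  obtain ⟨C, h1, h2, h3⟩ := hR.cut X (hB hX)
  exact ⟨C, h1, fun Y hY => h2 Y (hB hY), h3⟩

theorem up_model {V : Type} [Fintype V] [Nonempty V] {G : SimpleGraph V} {d : ℕ}
    (hd : d = 4 ∨ d = 6) (h14 : K14 G) (hdia : Dia G) (hdeg : ∀ v, (nb G v).card ≤ d) :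
    ∃ T : Finset V, (12 - d) * Fintype.card V ≤ 12 * T.card ∧
      ∀ r, d + 3 ≤ r → ¬ Model G r (T : Set V) := by
  obtain ⟨N, iN, f, h⟩ := exists_ps h14 hdia hdeg
  obtain ⟨F, own, B, x, hOwn, hR, hx, hcard⟩ := core hd h
  refine ⟨F ∪ B.image x, ?_, ?_⟩
  · rw [card_add hR hx]
    exact hcard
  · intro r hr
    obtain ⟨s, rfl⟩ : ∃ s, r = s + 1 := ⟨r - 1, by omega⟩
    have hd4 : 4 ≤ d := by rcases hd with rfl | rfl <;> norm_num
    exact model_regions hR (by omega)
      (own_model h.card3 h.adj hdeg hOwn (r := s) (by omega) (by omega))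

/-- the bound on the size of the pieces -/
def CK (d m : ℕ) : ℕ := (d + 1) ^ m * (m + 3) + d * ((d + 1) ^ m * (m + 3)) * m + m

theorem up_frag {V : Type} [Fintype V] [Nonempty V] {G : SimpleGraph V} {d : ℕ}
    (hd : d = 4 ∨ d = 6) (h14 : K14 G) (hdia : Dia G) (hdeg : ∀ v, (nb G v).card ≤ d)
    {m : ℕ} (hm : 1 ≤ m) :
    ∃ T : Finset V, m * ((12 - d) * Fintype.card V) ≤ 12 * (m * T.card) + 36 * Fintype.card V ∧
      ∀ Z : Finset V, Z ⊆ T → PConn G (Z : Set V) → Z.card ≤ CK d m := by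
  obtain ⟨N, iN, f, h⟩ := exists_ps h14 hdia hdeg
  obtain ⟨F, own, B, x, hOwn, hR, hx, hcard⟩ := core hd h
  obtain ⟨F1, hF1, hF1card, hF1p⟩ := own_frag h.card3 h.adj h.m3 hdeg hOwn hm
  obtain ⟨B1, hB1⟩ : ∃ B1, B1 = B.filter (fun X => X.card ≤ m) := ⟨_, rfl⟩
  have hB1B : B1 ⊆ B := by rw [hB1]; exact Finset.filter_subset _ _
  have hR1 := reg_sub hR hB1B
  refine ⟨F1 ∪ B1.image x, ?_, ?_⟩
  · rw [card_add hR1 (fun X hX hxF => hx X (hB1B hX) (hF1 hxF))]
    -- the large regions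
    have h1 := Finset.card_filter_add_card_filter_not (s := B) (fun X => X.card ≤ m)
    rw [← hB1] at h1
    have h2 : m * (B.filter (fun X => ¬ X.card ≤ m)).card ≤ Fintype.card V := by
      have e1 : ((B.filter (fun X => ¬ X.card ≤ m)).biUnion id).card =
          ∑ X ∈ B.filter (fun X => ¬ X.card ≤ m), X.card := by
        rw [Finset.card_biUnion]
        · rfl
        · intro X hX Y hY hne
          exact hR.disj X (Finset.mem_filter.1 hX).1 Y (Finset.mem_filter.1 hY).1 hne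
      have e2 : ∑ X ∈ B.filter (fun X => ¬ X.card ≤ m), m ≤
          ∑ X ∈ B.filter (fun X => ¬ X.card ≤ m), X.card := by
        refine Finset.sum_le_sum fun X hX => ?_
        have := (Finset.mem_filter.1 hX).2
        omega
      rw [Finset.sum_const, smul_eq_mul, mul_comm, ← e1] at e2
      exact e2.trans (Finset.card_le_univ _)
    have h3 : F.card ≤ Fintype.card V := Finset.card_le_univ F
    have h4 : m * ((12 - d) * Fintype.card V) ≤ m * (12 * (F.card + B.card)) :=
      Nat.mul_le_mul_left m hcard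
    have h5 : m * B.card = m * B1.card + m * (B.filter (fun X => ¬ X.card ≤ m)).card := by
      rw [← h1, mul_add]
    calc m * ((12 - d) * Fintype.card V) ≤ m * (12 * (F.card + B.card)) := h4
      _ = 12 * (m * F.card) + 12 * (m * B.card) := by ring
      _ ≤ 12 * (m * F1.card + 2 * F.card) + 12 * (m * B1.card + Fintype.card V) := by
          rw [h5]
          omega
      _ ≤ 12 * (m * F1.card + 2 * Fintype.card V) + 12 * (m * B1.card + Fintype.card V) := by
          omega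
      _ = 12 * (m * (F1.card + B1.card)) + 36 * Fintype.card V := by ring
  · intro Z hZ hconn
    exact frag_regions hdeg hR1 (fun X hX => by
      rw [hB1] at hX
      exact (Finset.mem_filter.1 hX).2) hF1p Z hZ hconn

theorem mu_mem {P : (n : ℕ) → SimpleGraph (Fin n) → Prop} (hP : ∀ n G, P n G → K14 G ∧ Dia G)
    {d r : ℕ} (hd : d = 4 ∨ d = 6) (hr : d + 3 ≤ r) : (d : ℝ) / 12 ∈ muSet P r d := by
  intro ε hε
  refine ⟨1, fun n hn G hPG hdeg => ?_⟩
  obtain ⟨h14, hdia⟩ := hP n G hPG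
  have hdeg' : ∀ v, (nb G v).card ≤ d := fun v => by
    rw [nb_card]
    exact hdeg v
  haveI : Nonempty (Fin n) := ⟨⟨0, by omega⟩⟩
  obtain ⟨T, hT, hM⟩ := up_model hd h14 hdia hdeg'
  refine ⟨Tᶜ, ?_, ?_⟩
  · have h1 : T.card ≤ n := by simpa using Finset.card_le_univ T
    rw [Finset.card_compl, Fintype.card_fin, Nat.cast_sub h1]
    rw [Fintype.card_fin] at hT
    have h2 : 0 ≤ ε * (n : ℝ) := mul_nonneg hε.le (Nat.cast_nonneg n)
    have h3 : (((12 - d) * n : ℕ) : ℝ) ≤ ((12 * T.card : ℕ) : ℝ) := by exact_mod_cast hT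
    rcases hd with rfl | rfl
    · norm_num at h3 ⊢
      linarith
    · norm_num at h3 ⊢
      linarith
  · rintro ⟨g, hg1, hg2, hg3, hg4⟩
    apply hM r hr
    refine ⟨g, fun i => ⟨?_, (connected_iff.1 (hg2 i)).1, (connected_iff.1 (hg2 i)).2⟩, hg3, hg4⟩
    intro x hx
    by_contra hxT
    refine (Set.disjoint_left.1 (hg1 i)) hx ?_
    rw [Finset.mem_coe, Finset.mem_compl]
    exact hxT

theorem cf_mem {P : (n : ℕ) → SimpleGraph (Fin n) → Prop} (hP : ∀ n G, P n G → K14 G ∧ Dia G)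
    {d : ℕ} (hd : d = 4 ∨ d = 6) : (d : ℝ) / 12 ∈ cfSet P d := by
  intro ε hε
  obtain ⟨m, hm⟩ := exists_nat_gt (3 / ε)
  have hm0 : (0 : ℝ) < m := lt_of_le_of_lt (by positivity) hm
  have hm1 : 1 ≤ m := by
    have h0 : 0 < m := by exact_mod_cast hm0
    omega
  have hm3 : 3 ≤ ε * (m : ℝ) := by
    rw [div_lt_iff₀ hε] at hm
    linarith
  refine ⟨CK d m, fun n G hPG hdeg => ?_⟩
  rcases Nat.eq_zero_or_pos n with rfl | hn
  · refine ⟨∅, by simp, ?_⟩
    intro T' _ hconn
    obtain ⟨⟨x, -⟩⟩ := hconn.nonempty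
    exact x.elim0
  obtain ⟨h14, hdia⟩ := hP n G hPG
  have hdeg' : ∀ v, (nb G v).card ≤ d := fun v => by
    rw [nb_card]
    exact hdeg v
  haveI : Nonempty (Fin n) := ⟨⟨0, hn⟩⟩
  obtain ⟨T, hT, hM⟩ := up_frag hd h14 hdia hdeg' hm1
  refine ⟨Tᶜ, ?_, ?_⟩
  · have h1 : T.card ≤ n := by simpa using Finset.card_le_univ T
    rw [Finset.card_compl, Fintype.card_fin, Nat.cast_sub h1]
    rw [Fintype.card_fin] at hT
    have h3 : ((m * ((12 - d) * n) : ℕ) : ℝ) ≤ ((12 * (m * T.card) + 36 * n : ℕ) : ℝ) := by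
      exact_mod_cast hT
    have hn0 : (0 : ℝ) ≤ n := Nat.cast_nonneg n
    have h4 : 3 * (n : ℝ) ≤ ε * (m : ℝ) * n := mul_le_mul_of_nonneg_right hm3 hn0
    -- divide by m
    rcases hd with rfl | rfl
    · norm_num at h3
      have h5 : (m : ℝ) * (n - T.card) ≤ m * ((1 / 3 + ε) * n) := by nlinarith
      have h6 := le_of_mul_le_mul_left h5 hm0
      norm_num at h6 ⊢
      linarith
    · norm_num at h3
      have h5 : (m : ℝ) * (n - T.card) ≤ m * ((1 / 2 + ε) * n) := by nlinarith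
      have h6 := le_of_mul_le_mul_left h5 hm0
      norm_num at h6 ⊢
      linarith
  · intro T' hT' hconn
    have h1 : T' ⊆ (T : Set (Fin n)) := by
      intro x hx
      by_contra hxT
      refine (Set.disjoint_left.1 hT') hx ?_
      rw [Finset.mem_coe, Finset.mem_compl]
      exact hxT
    have hfin : T'.Finite := Set.toFinite T'
    have h2 := hM hfin.toFinset (by
      intro x hx
      exact h1 (hfin.mem_toFinset.1 hx)) (by
      rw [hfin.coe_toFinset]
      exact (connected_iff.1 hconn).2)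
    rw [Set.ncard_eq_toFinset_card T' hfin]
    exact h2

/-- the graphs of the class have maximum degree at most 6 -/
theorem nb_le_six {V : Type} [Fintype V] {G : SimpleGraph V} (h14 : K14 G) (hdia : Dia G) (v : V) :
    (nb G v).card ≤ 6 := by
  obtain ⟨N, iN, f, h⟩ := exists_ps (d := Fintype.card V) h14 hdia fun v => Finset.card_le_univ _
  have h1 : nb G v ⊆ (f v).biUnion (fun p => (Finset.univ.filter (fun u => p ∈ f u)).erase v) := by
    intro u hu
    have hu' : G.Adj v u := by simpa [nb] using hu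
    obtain ⟨hne, p, hp, hpu⟩ := (h.adj v u).1 hu'
    rw [Finset.mem_biUnion]
    refine ⟨p, hp, Finset.mem_erase.2 ⟨hne.symm, ?_⟩⟩
    simpa using hpu
  calc (nb G v).card ≤ _ := Finset.card_le_card h1
    _ ≤ ∑ p ∈ f v, ((Finset.univ.filter (fun u => p ∈ f u)).erase v).card := Finset.card_biUnion_le
    _ ≤ ∑ p ∈ f v, 2 := by
        refine Finset.sum_le_sum fun p hp => ?_
        rw [Finset.card_erase_of_mem (by simpa using hp)]
        have := h.m3 p
        unfold mult at this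
        omega
    _ = 6 := by rw [Finset.sum_const, h.card3]; rfl

theorem deg_six {n : ℕ} {G : SimpleGraph (Fin n)} (h : K14 G ∧ Dia G) (v : Fin n) :
    (G.neighborSet v).ncard ≤ 6 := by
  rw [← nb_card]
  exact nb_le_six h.1 h.2 v

theorem mu_six {P : (n : ℕ) → SimpleGraph (Fin n) → Prop} (hP : ∀ n G, P n G → K14 G ∧ Dia G)
    {d r : ℕ} (hd : 6 ≤ d) : muSet P r d = muSet P r 6 := by
  ext μ
  constructor
  · intro h ε hε
    obtain ⟨N, hN⟩ := h ε hε
    exact ⟨N, fun n hn G hPG hdeg => hN n hn G hPG fun v => (hdeg v).trans hd⟩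
  · intro h ε hε
    obtain ⟨N, hN⟩ := h ε hε
    exact ⟨N, fun n hn G hPG _ => hN n hn G hPG fun v => deg_six (hP n G hPG) v⟩

theorem cf_six {P : (n : ℕ) → SimpleGraph (Fin n) → Prop} (hP : ∀ n G, P n G → K14 G ∧ Dia G)
    {d : ℕ} (hd : 6 ≤ d) : cfSet P d = cfSet P 6 := by
  ext c
  constructor
  · intro h ε hε
    obtain ⟨C, hC⟩ := h ε hε
    exact ⟨C, fun n G hPG hdeg => hC n G hPG fun v => (hdeg v).trans hd⟩
  · intro h ε hε
    obtain ⟨C, hC⟩ := h ε hε
    exact ⟨C, fun n G hPG _ => hC n G hPG fun v => deg_six (hP n G hPG) v⟩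

end

end Pool.Agent.H64.K4
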